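import Pool.Agent.Helper28.HM.QLemma

/-!
# The dependent case
-/

set_option autoImplicit false
set_option linter.unusedTactic false
set_option linter.unreachableTactic false

universe u w

namespace Pool.Agent.Helper28.HM

open Set

variable {K : Type u} [Field K] {Γ : Type w} [LinearOrderedCommGroupWithZero Γ]
  {v : Valuation K Γ} {D : DefStr v} {A B : Set K}

section Aux

variable {σ : Type u} [DSort K σ]

lemma DefPt.add {a b : K} (ha : DefPt D A a) (hb : DefPt D A b) : DefPt D A (a + b) :=
  DefPred.eq DefMap.id ((DefMap.const ha).add (DefMap.const hb))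

lemma DefPt.sub {a b : K} (ha : DefPt D A a) (hb : DefPt D A b) : DefPt D A (a - b) :=
  DefPred.eq DefMap.id ((DefMap.const ha).sub (DefMap.const hb))

lemma LL_shift {a e : K} (he : DefPt D A e) : LL D A (a - e) = LL D A a := by
  ext γ
  constructor
  · intro h e' he'
    have := h (e' - e) (he'.sub he)
    rwa [sub_sub_sub_cancel_right] at this
  · intro h e' he'
    have := h (e' + e) (he'.add he)
    rwa [add_comm, ← sub_sub] at this

lemma DefPred.trans {P : σ → Prop} (h : DefPred D B P) (hB : ∀ b ∈ B, DefPt D A b) :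
    DefPred D A P := by
  obtain ⟨β, hβ, a, ha, Q, hQ, h⟩ := h
  have h1 : DefPred D A (fun p : σ × (β → K) => Q (Sum.elim (DSort.e (K := K) p.1) p.2)) := by
    refine ⟨Empty, inferInstance, Empty.elim, fun i => i.elim,
      fun s => Q (s ∘ Sum.inl), D.comap' _ hQ, fun s => ?_⟩
    apply iff_of_eq
    congr 1
  have h2 : DefMap D A (fun s : σ => (s, a)) :=
    DefMap.id.pair (DefMap.pi fun i => DefMap.const (hB _ (ha i)))
  exact (h1.comp h2).congr h

lemma DefPt.trans {z : K} (h : DefPt D B z) (hB : ∀ b ∈ B, DefPt D A b) : DefPt D A z :=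
  DefPred.trans h hB

lemma LL_congr (h1 : ∀ b ∈ B, DefPt D A b) (h2 : ∀ a ∈ A, DefPt D B a) (x : K) :
    LL D A x = LL D B x := by
  ext γ
  exact ⟨fun h e he => h e (he.trans h1), fun h e he => h e (he.trans h2)⟩

end Aux

section VF

variable [VF v] [UG D]

/-- The situation of the bad case. -/
structure Bad (D : DefStr v) (A : Set K) (x : K) {ι : Type} (S : Finset ι) (a : ι → K)
    (g : ι → K → K) (ρ : Γ) (ν : Set Γ) : Prop where
  hg : ∀ i, DefMap D A (g i)
  hgL : ∀ i, Lip D A x (g i)
  hgx : ∀ i ∈ S, v (a i - g i x) ∈ LL D A x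
  hρ0 : ρ ≠ 0
  hρx : ρ ∈ LL D A x
  hρν : ρ ∈ ν
  hrel : ∀ i ∈ S, ∀ f, DefMap D A f → v (a i - f x) ∈ LL D A x → Rel D A x (a i - f x)
  hne : ∃ i ∈ S, LL D (insert x A) (a i) = ν
  hmax : ∀ j ∈ S, LL D (insert x A) (a j) ⊆ ν
  h2b : ∀ i ∈ S, LL D (insert x A) (a i) = ν → ∀ f, DefMap D A f → v (a i - f x) ∈ LL D A x →
    LL D (insert (a i - f x) A) x = ν

variable {x : K} {ι : Type} {S : Finset ι} {a : ι → K} {g : ι → K → K} {ρ : Γ} {ν : Set Γ}

omit [VF v] [UG D] in
lemma Bad.low (h : Bad D A x S a g ρ ν) {γ δ : Γ} (hγ : γ ∈ ν) (hδ : δ ≤ γ) : δ ∈ ν := by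
  obtain ⟨i, _, hi⟩ := h.hne
  rw [← hi] at hγ ⊢
  exact LL.lower hγ hδ

omit [VF v] [UG D] in
lemma Bad.sub (h : Bad D A x S a g ρ ν) : ν ⊆ LL D A x := by
  obtain ⟨i, hiS, hi⟩ := h.hne
  rw [← h.h2b i hiS hi (g i) (h.hg i) (h.hgx i hiS)]
  exact LL.anti (subset_insert _ _) x

/-- Distances to `E (A x)` are not attained. -/
lemma Bad.na (h : Bad D A x S a g ρ ν) {i : ι} (hi : i ∈ S)
    (hν : LL D (insert x A) (a i) = ν) {γ : Γ} (hγ : γ ∉ ν) :
    ∃ f : K → K, DefMap D A f ∧ v (a i - f x) < γ ∧ v (a i - f x) ∈ LL D A x := by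
  -- first get a strict improvement
  have key : ∀ γ ∉ ν, ∃ f : K → K, DefMap D A f ∧ v (a i - f x) < γ := by
    intro γ hγ
    rw [← hν] at hγ
    obtain ⟨e, he, hle⟩ := notMem_LL hγ
    obtain ⟨f, hf, rfl⟩ := pt_insert he
    by_cases hmem : v (a i - f x) ∈ LL D A x
    · have hr := h.hrel i hi f hf hmem
      obtain ⟨μ, hμ, h1, ⟨k, hk, hk'⟩, h3, h4⟩ := rel_main ⟨ρ, h.hρx, h.hρ0⟩ hr
      refine ⟨fun y => f y + k y, by repeat' (beta_reduce; with_reducible (first
            | assumption | exact DefMap.id | exact DefPred.const _ | exact DefVal.const _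
            | refine DefPred.and ?_ ?_ | refine DefPred.or ?_ ?_ | refine DefPred.ne ?_ ?_
            | refine DefPred.vne ?_ ?_ | refine DefPred.not ?_ | refine DefPred.imp ?_ ?_
            | refine DefPred.iff ?_ ?_ | refine DefPred.ex ?_ | refine DefPred.all ?_
            | refine DefPred.le ?_ ?_ | refine DefPred.lt ?_ ?_ | refine DefPred.eq ?_ ?_
            | refine DefPred.veq ?_ ?_ | refine DefVal.val ?_ | refine DefVal.mul ?_ ?_
            | exact DefMap.const (by assumption) | exact DefMap.const DefPt.zero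
            | exact DefMap.const DefPt.one | exact DefMap.const (DefPt.of_mem (by assumption))
            | refine DefMap.add ?_ ?_ | refine DefMap.sub ?_ ?_ | refine DefMap.mul ?_ ?_
            | refine DefMap.neg ?_ | refine DefMap.fst ?_ | refine DefMap.snd ?_
            | refine DefMap.pair ?_ ?_ | refine DefMap.update _ ?_ ?_
            | refine DefPred.comp (by assumption) ?_ | refine DefVal.comp (by assumption) ?_
            | refine DefMap.comp (by assumption) ?_ | refine DefMap.comp (DefMap.apply _) ?_)), ?_⟩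
      refine lt_of_lt_of_le ?_ hle
      by_contra hcon
      push Not at hcon
      apply val_notMem_LL (D := D) (A := A) (a i - f x)
      refine LL.lower hk' ?_
      have e1 : a i - (f x + k x) = -(k x - (a i - f x)) := by ring
      rwa [e1, Valuation.map_neg] at hcon
    · refine ⟨g i, h.hg i, lt_of_lt_of_le ?_ hle⟩
      by_contra hcon
      push Not at hcon
      exact hmem (LL.lower (h.hgx i hi) hcon)
  have h0 : v (a i - g i x) ∉ ν := by
    rw [← hν]
    exact val_sub_notMem_LL _ (pt_insert_of (h.hg i))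
  obtain ⟨f, hf, hf'⟩ := key (min γ (v (a i - g i x))) (by
    rcases min_choice γ (v (a i - g i x)) with h | h <;> rw [h] <;> assumption)
  exact ⟨f, hf, hf'.trans_le (min_le_left _ _),
    LL.lower (h.hgx i hi) (hf'.trans_le (min_le_right _ _)).le⟩

/-- Coinitiality of the slopes. -/
lemma Bad.coin (h : Bad D A x S a g ρ ν) {i : ι} (hi : i ∈ S)
    (hν : LL D (insert x A) (a i) = ν) {t : Γ} (ht0 : t ≠ 0) (ht : sc t ν ⊆ ν) :
    ∃ f : K → K, DefMap D A f ∧ v (a i - f x) ∈ LL D A x ∧ ∃ μ : Γ, μ ≠ 0 ∧ t * μ ≤ 1 ∧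
      (∃ k : K → K, DefMap D A k ∧ v (k x - (a i - f x)) ∈ LL D A (a i - f x)) ∧
      (∀ k : K → K, DefMap D A k → v (k x - (a i - f x)) ∈ LL D A (a i - f x) →
        ∀ y y', v (y - x) ∈ LL D A x → v (y' - x) ∈ LL D A x →
          v (k y - k y') = μ * v (y - y')) := by
  by_contra hcon
  have hsub : LL D A x ⊆ sc t ν := by
    intro γ hγ
    by_contra hγ'
    obtain ⟨f, hf, hf1, hf2⟩ := h.na hi hν (γ := γ / t) hγ'
    obtain ⟨μ, hμ, h1, h2, h3, h4⟩ := rel_main ⟨ρ, h.hρx, h.hρ0⟩ (h.hrel i hi f hf hf2)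
    apply hcon
    refine ⟨f, hf, hf2, μ, hμ, ?_, h2, h3⟩
    have h5 : γ * μ ∈ LL D A (a i - f x) := by
      rw [h1]
      change γ * μ / μ ∈ LL D A x
      rwa [mul_div_cancel_right₀ _ hμ]
    have h6 : γ * μ < v (a i - f x) := by
      have := h5 0 DefPt.zero
      simpa using this
    have h7 := h6.trans hf1
    have hγ0 : 0 < γ := by
      rw [zero_lt_iff]
      rintro rfl
      simp at hf1
    have h8 : γ * (t * μ) < γ * 1 := by
      rw [lt_div_iff₀ (zero_lt_iff.2 ht0)] at h7
      rw [mul_one]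
      calc γ * (t * μ) = γ * μ * t := by ac_rfl
        _ < γ := h7
    exact (lt_of_mul_lt_mul_of_nonneg_left h8 hγ0.le).le
  have h0 : v (a i - g i x) ∉ ν := by
    rw [← hν]
    exact val_sub_notMem_LL _ (pt_insert_of (h.hg i))
  exact h0 (ht (hsub (h.hgx i hi)))

open Classical in
/-- A maximal independent set. -/
lemma Bad.exists_J (h : Bad D A x S a g ρ ν) : ∃ J ⊆ S, J.Nonempty ∧
    (∀ k ∈ J, LL D (insert x A) (a k) = ν) ∧
    (∀ k ∈ J, LL D (insert x (A ∪ a '' (J.erase k : Finset ι))) (a k) = ν) ∧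
    ∀ l ∈ S, LL D (insert x A) (a l) = ν → l ∉ J → LL D (insert x (A ∪ a '' J)) (a l) ≠ ν := by
  let M : Finset ι := S.filter fun i => LL D (insert x A) (a i) = ν
  let T : Finset (Finset ι) := M.powerset.filter fun J =>
    ∀ k ∈ J, LL D (insert x (A ∪ a '' (J.erase k : Finset ι))) (a k) = ν
  obtain ⟨i₀, hi₀, hi₀ν⟩ := h.hne
  have hT : ({i₀} : Finset ι) ∈ T := by
    simp only [T, Finset.mem_filter, Finset.mem_powerset, Finset.singleton_subset_iff, M,
      Finset.mem_singleton]
    refine ⟨⟨hi₀, hi₀ν⟩, ?_⟩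
    rintro k rfl
    simpa using hi₀ν
  obtain ⟨J, hJT, hJmax⟩ := Finset.exists_max_image T (fun J => J.card) ⟨_, hT⟩
  have hJM : J ⊆ M := by
    have := (Finset.mem_filter.1 hJT).1
    exact Finset.mem_powerset.1 this
  have hJind := (Finset.mem_filter.1 hJT).2
  have hJne : J.Nonempty := by
    have := hJmax _ hT
    simpa using this
  refine ⟨J, hJM.trans (Finset.filter_subset _ _), hJne,
    fun k hk => (Finset.mem_filter.1 (hJM hk)).2, hJind, fun l hlS hlν hlJ heq => ?_⟩
  -- `insert l J` would be independent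
  have hins : insert l J ∈ T := by
    simp only [T, Finset.mem_filter, Finset.mem_powerset]
    refine ⟨?_, ?_⟩
    · intro i hi
      rcases Finset.mem_insert.1 hi with rfl | hi
      · exact Finset.mem_filter.2 ⟨hlS, hlν⟩
      · exact hJM hi
    · intro k hk
      rcases Finset.mem_insert.1 hk with rfl | hkJ
      · rw [Finset.erase_insert hlJ]; exact heq
      · have hkl : k ≠ l := by rintro rfl; exact hlJ hkJ
        by_contra hcon
        set A'' : Set K := insert x (A ∪ a '' (J.erase k : Finset ι)) with hA''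
        have hset : insert x (A ∪ a '' ((insert l J).erase k : Finset ι)) = insert (a l) A'' := by
          rw [Finset.erase_insert_of_ne hkl.symm, hA'']
          rw [Finset.coe_insert, image_insert_eq, union_insert]
          exact insert_comm _ _ _
        rw [hset] at hcon
        have hν1 : LL D A'' (a k) = ν := hJind k hkJ
        have hrel : Rel D A'' (a k) (a l) := by
          by_contra hnr
          exact hcon ((LL_of_not_rel hnr).trans hν1)
        have hrel' : Rel D A'' (a l) (a k) :=
          Rel.symm ⟨ρ, by rw [hν1]; exact h.hρν, h.hρ0⟩ hrel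
        have hset2 : insert (a k) A'' = insert x (A ∪ a '' J) := by
          rw [hA'', insert_comm]
          congr 1
          conv_rhs => rw [← Finset.insert_erase hkJ]
          rw [Finset.coe_insert, image_insert_eq, union_insert]
        have hne := LL_ne_of_rel hrel'
        rw [hset2, heq] at hne
        apply hne
        apply Subset.antisymm
        · rw [← heq, ← hset2]
          exact LL.anti (subset_insert _ _) _
        · have hsub : insert x A ⊆ A'' := insert_subset_insert subset_union_left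
          have := LL.anti (D := D) hsub (a l)
          rwa [hlν] at this
  have := hJmax _ hins
  rw [Finset.card_insert_of_notMem hlJ] at this
  omega

omit [VF v] [UG D] in
lemma exists_F [Finite ι] (J : Finset ι) {z : K} (hz : DefPt D (insert x (A ∪ a '' J)) z) :
    ∃ F : K × (ι → K) → K, DefMap D A F ∧ F (x, a) = z ∧
      ∀ y b b', (∀ i ∈ J, b i = b' i) → F (y, b) = F (y, b') := by
  have h1 : DefPt D (insert x A ∪ range (fun i : {i // i ∈ J} => a i)) z := by
    refine DefPt.mono hz ?_
    rw [insert_union]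
    apply insert_subset_insert
    apply union_subset_union_right
    rintro _ ⟨i, hi, rfl⟩
    exact ⟨⟨i, hi⟩, rfl⟩
  obtain ⟨f, hf, hfz⟩ := pt_range h1
  obtain ⟨F', hF', hF'f⟩ := param_fun hf
  refine ⟨fun p => F' (fun i : {i // i ∈ J} => p.2 i, p.1), ?_, ?_, ?_⟩
  · refine hF'.comp (DefMap.pair (DefMap.pi fun i => ?_) DefMap.fst_id)
    exact (DefMap.apply i.1).comp DefMap.snd_id
  · dsimp only
    rw [hF'f, ← hfz]
  · intro y b b' hb
    dsimp only
    congr 2
    funext i
    exact hb i i.2

open Classical in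
/-- The slopes of `F` in the variables `k ∈ J`. -/
lemma Bad.slopes (h : Bad D A x S a g ρ ν) [Finite ι] {J : Finset ι} {k : ι} (hk : k ∈ J)
    (hkν : LL D (insert x (A ∪ a '' (J.erase k : Finset ι))) (a k) = ν)
    {F : K × (ι → K) → K} (hF : DefMap D A F)
    (hFJ : ∀ y b b', (∀ i ∈ J, b i = b' i) → F (y, b) = F (y, b'))
    (hz : LL D (insert x A) (F (x, a)) ⊆ ν) :
    ∃ s : Γ, (s = 0 ∨ sc s ν ⊆ ν) ∧ ∀ u u', v (u - a k) ∈ ν → v (u' - a k) ∈ ν →
      v (F (x, Function.update a k u) - F (x, Function.update a k u')) ≤ s * v (u - u') := by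
  set A'' : Set K := insert x (A ∪ a '' (J.erase k : Finset ι)) with hA''
  let φ : K → K := fun u => F (x, Function.update a k u)
  have hφ : DefMap D A'' φ := by
    let ψ : K → K := fun u => F (x, fun i => if i ∈ J then (if i = k then u else a i) else 0)
    have hψ : φ = ψ := by
      funext u
      refine hFJ _ _ _ fun i hi => ?_
      by_cases hik : i = k
      · subst hik; simp [hi]
      · simp [hi, hik]
    rw [hψ]
    refine (hF.mono ((subset_union_left).trans (subset_insert _ _))).comp
      (DefMap.pair (DefMap.const (DefPt.of_mem (mem_insert _ _))) (DefMap.pi fun i => ?_))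
    by_cases hi : i ∈ J
    · by_cases hik : i = k
      · have e0 : (fun u : K => if i ∈ J then (if i = k then u else a i) else 0) = fun u => u := by
          funext u; simp [hik, hk]
        rw [e0]
        exact DefMap.id
      · have e0 : (fun u : K => if i ∈ J then (if i = k then u else a i) else 0) =
            fun _ => a i := by
          funext u; simp [hi, hik]
        rw [e0]
        refine DefMap.const (DefPt.of_mem (mem_insert_of_mem _ (Or.inr ⟨i, ?_, rfl⟩)))
        simp [hi, hik]
    · simp only [hi, if_false]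
      exact DefMap.const DefPt.zero
  have hφa : φ (a k) = F (x, a) := by simp [φ]
  by_cases hpt : DefPt D A'' (φ (a k))
  · refine ⟨0, Or.inl rfl, fun u u' hu hu' => ?_⟩
    rw [← hkν] at hu hu'
    have e1 := const_of_pt hφ hpt hu
    have e2 := const_of_pt hφ hpt hu'
    simp only [φ] at e1 e2
    rw [e1, e2, sub_self, map_zero]
    exact zero_le
  · obtain ⟨s, hs, h1, h2⟩ := scale hφ hpt ⟨ρ, by rw [hkν]; exact h.hρν, h.hρ0⟩
    rw [hkν] at h1 h2
    refine ⟨s, Or.inr ?_, fun u u' hu hu' => (h1 u u' hu hu').le⟩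
    rw [← h2, hφa]
    refine Subset.trans ?_ hz
    exact LL.anti (insert_subset_insert subset_union_left) _

omit [VF v] [UG D] in
/-- A common bound for finitely many slopes. -/
lemma exists_bound {κ' : Type} (T : Finset κ') (s : κ' → Γ)
    (hs : ∀ l ∈ T, s l = 0 ∨ sc (s l) ν ⊆ ν) :
    ∃ t : Γ, t ≠ 0 ∧ sc t ν ⊆ ν ∧ ∀ l ∈ T, s l ≤ t := by
  classical
  induction T using Finset.induction_on with
  | empty =>
    refine ⟨1, one_ne_zero, fun γ hγ => ?_, by simp⟩
    have : γ / 1 ∈ ν := hγ
    rwa [div_one] at this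
  | insert l T _ ih =>
    obtain ⟨t, ht0, ht, hle⟩ := ih fun l hl => hs l (Finset.mem_insert_of_mem hl)
    rcases le_total (s l) t with h | h
    · refine ⟨t, ht0, ht, fun l' hl' => ?_⟩
      rcases Finset.mem_insert.1 hl' with rfl | hl'
      · exact h
      · exact hle l' hl'
    · have hs0 : s l ≠ 0 := fun h0 => ht0 (le_zero_iff.1 (h0 ▸ h))
      refine ⟨s l, hs0, (hs l (Finset.mem_insert_self _ _)).resolve_left hs0, fun l' hl' => ?_⟩
      rcases Finset.mem_insert.1 hl' with rfl | hl'
      · exact le_rfl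
      · exact (hle l' hl').trans h

omit [VF v] in
lemma Lip.const_of_pt {f : K → K} [VF v] (hf : DefMap D A f) (hpt : DefPt D A (f x)) :
    Lip D A x f := by
  intro y y' hy hy'
  rw [HM.const_of_pt hf hpt hy, HM.const_of_pt hf hpt hy', sub_self, map_zero]
  exact zero_le

open Classical in
theorem Bad.main (h : Bad D A x S a g ρ ν) [Finite ι] :
    ∃ (J : Finset ι) (w : ι → K) (g' : ι → K → K), J ⊆ S ∧ J.Nonempty ∧
      LL D (A ∪ w '' J) x = ν ∧ (∀ i, DefMap D (A ∪ w '' J) (g' i)) ∧
      (∀ i, Lip D (A ∪ w '' J) x (g' i)) ∧ (∀ i ∈ S, i ∉ J → v (a i - g' i x) ∈ ν) ∧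
      (∀ i ∈ J, a i = g' i x) ∧ (∀ i ∉ S, g' i = g i) := by
  have := Fintype.ofFinite ι
  obtain ⟨J, hJS, hJne, hJν, hJind, hJmax⟩ := h.exists_J
  have hx0 : v (x - x) ∈ LL D A x := by
    rw [sub_self, map_zero]; exact LL.lower h.hρx zero_le
  -- the functions describing the dependent points
  have hF : ∀ l, ∃ F : K × (ι → K) → K, DefMap D A F ∧
      (∀ y b b', (∀ i ∈ J, b i = b' i) → F (y, b) = F (y, b')) ∧
      ∃ s : ι → Γ, (∀ k ∈ J, (s k = 0 ∨ sc (s k) ν ⊆ ν) ∧
        ∀ u u', v (u - a k) ∈ ν → v (u' - a k) ∈ ν →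
          v (F (x, Function.update a k u) - F (x, Function.update a k u')) ≤ s k * v (u - u')) ∧
      (l ∈ S → LL D (insert x A) (a l) = ν → l ∉ J → v (a l - F (x, a)) ∈ ν) := by
    intro l
    by_cases hl : l ∈ S ∧ LL D (insert x A) (a l) = ν ∧ l ∉ J
    · obtain ⟨hlS, hlν, hlJ⟩ := hl
      have hne := hJmax l hlS hlν hlJ
      have hsub : LL D (insert x (A ∪ a '' J)) (a l) ⊆ ν := by
        rw [← hlν]
        exact LL.anti (insert_subset_insert subset_union_left) _
      obtain ⟨γ, hγν, hγ⟩ : ∃ γ ∈ ν, γ ∉ LL D (insert x (A ∪ a '' J)) (a l) := by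
        by_contra hcon
        push Not at hcon
        exact hne (Subset.antisymm hsub hcon)
      obtain ⟨z, hz, hle⟩ := notMem_LL hγ
      obtain ⟨F, hFd, hFz, hFJ⟩ := exists_F J hz
      have hFx : v (a l - F (x, a)) ∈ ν := by rw [hFz]; exact h.low hγν hle
      have hzν : LL D (insert x A) (F (x, a)) ⊆ ν := by
        rw [← hlν, LL_eq (x := a l)]
        rw [hlν, Valuation.map_sub_swap]; exact hFx
      have hs : ∀ k, ∃ s : Γ, k ∈ J → (s = 0 ∨ sc s ν ⊆ ν) ∧
          ∀ u u', v (u - a k) ∈ ν → v (u' - a k) ∈ ν →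
          v (F (x, Function.update a k u) - F (x, Function.update a k u')) ≤ s * v (u - u') := by
        intro k
        by_cases hk : k ∈ J
        · obtain ⟨s, hs1, hs2⟩ := h.slopes hk (hJind k hk) hFd hFJ hzν
          exact ⟨s, fun _ => ⟨hs1, hs2⟩⟩
        · exact ⟨0, fun h => absurd h hk⟩
      choose s hs using hs
      exact ⟨F, hFd, hFJ, s, hs, fun _ _ _ => hFx⟩
    · refine ⟨fun _ => 0, DefMap.const DefPt.zero, fun _ _ _ _ => rfl, fun _ => 0,
        fun k _ => ⟨Or.inl rfl, fun u u' _ _ => by simp⟩, fun h1 h2 h3 => absurd ⟨h1, h2, h3⟩ hl⟩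
  choose F hFd hFJ s hs hFx using hF
  -- the functions approximating the independent points
  have hf : ∀ k, ∃ (f : K → K) (μ : Γ), DefMap D A f ∧ (k ∈ J → v (a k - f x) ∈ LL D A x ∧
      (∀ l, s l k * μ ≤ 1) ∧
      (∃ k₀ : K → K, DefMap D A k₀ ∧ v (k₀ x - (a k - f x)) ∈ LL D A (a k - f x)) ∧
      (∀ k₀ : K → K, DefMap D A k₀ → v (k₀ x - (a k - f x)) ∈ LL D A (a k - f x) →
        ∀ y y', v (y - x) ∈ LL D A x → v (y' - x) ∈ LL D A x →
          v (k₀ y - k₀ y') = μ * v (y - y'))) := by
    intro k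
    by_cases hk : k ∈ J
    · obtain ⟨t, ht0, ht, hle⟩ := exists_bound (ν := ν) Finset.univ (fun l => s l k)
        (fun l _ => (hs l k hk).1)
      obtain ⟨f, hfd, hfx, μ, hμ, htμ, h1, h2⟩ := h.coin (hJS hk) (hJν k hk) ht0 ht
      refine ⟨f, μ, hfd, fun _ => ⟨hfx, fun l => ?_, h1, h2⟩⟩
      exact (mul_le_mul_left (hle l (Finset.mem_univ _)) _).trans htμ
    · exact ⟨fun _ => 0, 0, DefMap.const DefPt.zero, fun h => absurd h hk⟩
  choose f μ hfd hfJ using hf
  set w : ι → K := fun k => a k - f k x with hw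
  -- (G1)
  have G1 : ∀ T ⊆ J, ∀ j ∈ J, j ∉ T → LL D (insert x (A ∪ w '' T)) (w j) = ν := by
    intro T hT j hj hjT
    have hc : LL D (insert x (A ∪ w '' T)) (w j) = LL D (insert x (A ∪ a '' T)) (w j) := by
      apply LL_congr
      · rintro b (rfl | hb | ⟨i, hi, rfl⟩)
        · exact DefPt.of_mem (mem_insert _ _)
        · exact DefPt.of_mem (Or.inr (Or.inl hb))
        · have e1 : a i = w i + f i x := by simp [hw]
          rw [e1]
          refine DefPt.add (DefPt.of_mem (Or.inr (Or.inr ⟨i, hi, rfl⟩))) ?_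
          exact (pt_insert_of (hfd i)).mono (insert_subset_insert subset_union_left)
      · rintro b (rfl | hb | ⟨i, hi, rfl⟩)
        · exact DefPt.of_mem (mem_insert _ _)
        · exact DefPt.of_mem (Or.inr (Or.inl hb))
        · refine DefPt.sub (DefPt.of_mem (Or.inr (Or.inr ⟨i, hi, rfl⟩))) ?_
          exact (pt_insert_of (hfd i)).mono (insert_subset_insert subset_union_left)
    rw [hc, hw]
    dsimp only
    rw [LL_shift ((pt_insert_of (hfd j)).mono (insert_subset_insert subset_union_left))]
    apply Subset.antisymm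
    · rw [← hJν j hj]
      exact LL.anti (insert_subset_insert subset_union_left) _
    · rw [← hJind j hj]
      refine LL.anti (insert_subset_insert (union_subset_union_right _ (image_mono ?_))) _
      intro i hi
      simp only [Finset.coe_erase, mem_sdiff, Finset.mem_coe, mem_singleton_iff]
      exact ⟨hT hi, fun h => hjT (h ▸ hi)⟩
  -- the radius over `A ∪ w '' T`
  have G3' : ∀ T ⊆ J, T.Nonempty → LL D (A ∪ w '' T) x = ν := by
    intro T
    induction T using Finset.induction_on with
    | empty => intro _ h; simp at h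
    | insert j T hjT ih =>
      intro hT _
      have hjJ : j ∈ J := hT (Finset.mem_insert_self _ _)
      have hTJ : T ⊆ J := (Finset.subset_insert _ _).trans hT
      have hset : A ∪ w '' ((insert j T : Finset ι) : Set ι) = insert (w j) (A ∪ w '' T) := by
        rw [Finset.coe_insert, image_insert_eq, union_insert]
      rw [hset]
      rcases T.eq_empty_or_nonempty with rfl | hTne
      · simp only [Finset.coe_empty, image_empty, union_empty]
        exact h.h2b j (hJS hjJ) (hJν j hjJ) (f j) (hfd j) (hfJ j hjJ).1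
      · have hih := ih hTJ hTne
        by_cases hrel : Rel D (A ∪ w '' T) x (w j)
        · exfalso
          have hL : ∃ γ ∈ LL D (A ∪ w '' T) x, γ ≠ 0 := ⟨ρ, by rw [hih]; exact h.hρν, h.hρ0⟩
          obtain ⟨σ, hσ, h1, _, _, _⟩ := rel_main hL hrel
          rw [hih] at h1
          have h5 := G1 T hTJ j hjJ hjT
          have h6 := LL_ne_of_rel (Rel.symm hL hrel)
          rw [h5, h1] at h6
          have h7 : ν ⊆ sc σ ν := by
            have := LL.anti (D := D) (subset_insert x (A ∪ w '' (T : Set ι))) (w j)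
            rwa [h5, h1] at this
          obtain ⟨γ, hγσ, hγν⟩ : ∃ γ ∈ sc σ ν, γ ∉ ν := by
            by_contra hcon
            push Not at hcon
            exact h6 (Subset.antisymm h7 hcon)
          obtain ⟨f', hf', hf'1, hf'2⟩ := h.na (hJS hjJ) (hJν j hjJ) hγν
          obtain ⟨μ', hμ', m1, m2, m3, m4⟩ :=
            rel_main ⟨ρ, h.hρx, h.hρ0⟩ (h.hrel j (hJS hjJ) f' hf' hf'2)
          rw [h.h2b j (hJS hjJ) (hJν j hjJ) f' hf' hf'2, LL_shift (pt_insert_of hf'),
            hJν j hjJ] at m4
          have hsub : LL D A x ⊆ sc σ ν := by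
            intro δ hδ
            have n1 : δ * μ' ∈ LL D A (a j - f' x) := by
              rw [m1]
              change δ * μ' / μ' ∈ LL D A x
              rwa [mul_div_cancel_right₀ _ hμ']
            have n2 : δ * μ' < v (a j - f' x) := by
              have := n1 0 DefPt.zero
              simpa using this
            have n3 : δ * μ' / σ ∈ ν := by
              refine h.low (γ := γ / σ) hγσ ?_
              exact div_le_div_of_nonneg_right (n2.trans hf'1).le zero_le
            rw [m4] at n3
            have n4 : δ * μ' / σ / μ' ∈ ν := n3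
            have n5 : δ * μ' / σ / μ' = δ / σ := by
              rw [div_right_comm, mul_div_cancel_right₀ _ hμ']
            rw [n5] at n4
            exact n4
          have := hsub (hfJ j hjJ).1
          rw [← h1] at this
          exact val_notMem_LL _ this
        · rw [LL_of_not_rel hrel, hih]
  have G3 : ∀ T ⊆ J, ρ ∈ LL D (A ∪ w '' T) x := by
    intro T hT
    rcases T.eq_empty_or_nonempty with rfl | hTne
    · simpa using h.hρx
    · rw [G3' T hT hTne]; exact h.hρν
  have hLJ := G3' J Subset.rfl hJne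
  have hAsub : A ⊆ A ∪ w '' (J : Set ι) := subset_union_left
  have hwJ : ∀ k ∈ J, w k ∈ A ∪ w '' (J : Set ι) := fun k hk => Or.inr ⟨k, hk, rfl⟩
  -- (G2)
  have G2 : ∀ j ∈ J, ∀ γ ∉ ν, ∃ h' : K → K, DefMap D A h' ∧ v (w j - h' x) < γ ∧
      ∀ y, v (y - x) ∈ LL D A x → v (h' y - h' x) ≤ μ j * v (y - x) := by
    intro j hj γ hγ
    obtain ⟨h1, h2, ⟨k₀, hk₀, hk₀x⟩, h4⟩ := hfJ j hj
    have h5 : v (w j - k₀ x) ∉ ν := by
      rw [← G1 ∅ (Finset.empty_subset _) j hj (by simp)]
      refine val_sub_notMem_LL _ ?_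
      simpa using pt_insert_of hk₀
    obtain ⟨f', hf', hf'1, hf'2⟩ := h.na (hJS hj) (hJν j hj) (γ := min γ (v (w j - k₀ x))) (by
      rcases min_choice γ (v (w j - k₀ x)) with h | h <;> rw [h] <;> assumption)
    have e1 : w j - (f' x - f j x) = a j - f' x := by simp [hw]
    refine ⟨fun y => f' y - f j y, hf'.sub (hfd j), ?_, fun y hy => ?_⟩
    · dsimp only
      rw [e1]
      exact hf'1.trans_le (min_le_left _ _)
    · refine (h4 (fun y => f' y - f j y) (hf'.sub (hfd j)) ?_ y x hy hx0).le
      refine LL.lower hk₀x ?_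
      rw [Valuation.map_sub_swap, Valuation.map_sub_swap v (k₀ x)]
      change v (w j - (f' x - f j x)) ≤ v (w j - k₀ x)
      rw [e1]
      exact (hf'1.trans_le (min_le_right _ _)).le
  -- the new functions
  have key : ∀ l, ∃ G : K → K, DefMap D (A ∪ w '' J) G ∧ Lip D (A ∪ w '' J) x G ∧
      (l ∈ S → l ∉ J → v (a l - G x) ∈ ν) ∧ (l ∈ J → a l = G x) ∧ (l ∉ S → G = g l) := by
    intro l
    by_cases hlS : l ∈ S
    swap
    · exact ⟨g l, (h.hg l).mono hAsub, (h.hgL l).mono hAsub, fun h => absurd h hlS,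
        fun h => absurd (hJS h) hlS, fun _ => rfl⟩
    by_cases hlJ : l ∈ J
    · have hfl : Lip D A x (f l) := by
        refine (h.hgL l).of_close (h.hg l) (hfd l) ?_
        have e1 : f l x - g l x = (a l - g l x) - (a l - f l x) := by ring
        rw [e1]
        have := Valuation.map_sub v (a l - g l x) (a l - f l x)
        refine LL.lower (γ := max (v (a l - g l x)) (v (a l - f l x))) ?_ this
        rcases max_choice (v (a l - g l x)) (v (a l - f l x)) with h' | h' <;> rw [h']
        · exact h.hgx l hlS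
        · exact (hfJ l hlJ).1
      refine ⟨fun y => f l y + w l, ?_, ?_, fun _ h => absurd hlJ h, fun _ => by simp [hw],
        fun h => absurd hlS h⟩
      · exact ((hfd l).mono hAsub).add (DefMap.const (DefPt.of_mem (hwJ l hlJ)))
      · intro y y' hy hy'
        have := (hfl.mono hAsub) y y' hy hy'
        simpa using this
    by_cases hlν : LL D (insert x A) (a l) = ν
    swap
    · -- easy case
      obtain ⟨γ, hγν, hγ⟩ : ∃ γ ∈ ν, γ ∉ LL D (insert x A) (a l) := by
        by_contra hcon
        push Not at hcon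
        exact hlν (Subset.antisymm (h.hmax l hlS) hcon)
      obtain ⟨z, hz, hle⟩ := notMem_LL hγ
      obtain ⟨f', hf', rfl⟩ := pt_insert hz
      have hal : v (a l - f' x) ∈ ν := h.low hγν hle
      have hfl : Lip D A x f' := by
        refine (h.hgL l).of_close (h.hg l) hf' ?_
        have e1 : f' x - g l x = (a l - g l x) - (a l - f' x) := by ring
        rw [e1]
        have := Valuation.map_sub v (a l - g l x) (a l - f' x)
        refine LL.lower (γ := max (v (a l - g l x)) (v (a l - f' x))) ?_ this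
        rcases max_choice (v (a l - g l x)) (v (a l - f' x)) with h' | h' <;> rw [h']
        · exact h.hgx l hlS
        · exact h.sub hal
      exact ⟨f', hf'.mono hAsub, hfl.mono hAsub, fun _ _ => hal, fun h => absurd h hlJ,
        fun h => absurd hlS h⟩
    -- the dependent case
    let Φ : K × (ι → K) → K := fun p => F l (p.1, fun k => f k p.1 + p.2 k)
    have hΦ : DefMap D A Φ := by
      refine (hFd l).comp (DefMap.pair DefMap.fst_id (DefMap.pi fun k => ?_))
      exact DefMap.add ((hfd k).comp DefMap.fst_id) ((DefMap.apply k).comp DefMap.snd_id)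
    let h0 : ι → K → K := fun _ _ => 0
    have hh0 : ∀ i, DefMap D A (h0 i) := fun i => DefMap.const DefPt.zero
    let G : K → K := fun y => Φ (y, vec J h0 w y)
    have hG : DefMap D (A ∪ w '' J) G :=
      (hΦ.mono hAsub).comp (DefMap.id.pair
        (defMap_vec J h0 w (fun i => (hh0 i).mono hAsub) hwJ DefMap.id))
    have hvecJ : ∀ y, ∀ k ∈ J, vec J h0 w y k = w k := fun y k hk => by simp [vec, hk]
    have hGx : G x = F l (x, a) := by
      refine hFJ l x _ _ fun k hk => ?_
      dsimp only
      rw [hvecJ x k hk]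
      simp [hw]
    have hal : v (a l - G x) ∈ ν := by rw [hGx]; exact hFx l hlS hlν hlJ
    refine ⟨G, hG, ?_, fun _ _ => hal, fun h => absurd h hlJ, fun h => absurd hlS h⟩
    by_cases hpt : DefPt D (A ∪ w '' J) (G x)
    · exact Lip.const_of_pt hG hpt
    obtain ⟨κ, hκ0, hκ1, _⟩ := scale hG hpt ⟨ρ, by rw [hLJ]; exact h.hρν, h.hρ0⟩
    by_cases hκ : κ ≤ 1
    · intro y y' hy hy'
      rw [hκ1 y y' hy hy']
      calc κ * v (y - y') ≤ 1 * v (y - y') := mul_le_mul_left hκ _
        _ = v (y - y') := one_mul _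
    · exfalso
      push Not at hκ
      obtain ⟨r, hr⟩ := VF.surj (v := v) ρ
      have hr0 : r ≠ 0 := by
        rintro rfl
        rw [map_zero] at hr
        exact h.hρ0 hr.symm
      have hx0' : v (x - x) ∈ LL D (A ∪ w '' J) x := by
        rw [sub_self, map_zero, hLJ]; exact h.low h.hρν zero_le
      have hγ₁ : v (G x - g l x) ∈ LL D A x := by
        have e1 : G x - g l x = (a l - g l x) - (a l - G x) := by ring
        rw [e1]
        have := Valuation.map_sub v (a l - g l x) (a l - G x)
        refine LL.lower (γ := max (v (a l - g l x)) (v (a l - G x))) ?_ this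
        rcases max_choice (v (a l - g l x)) (v (a l - G x)) with h' | h' <;> rw [h']
        · exact h.hgx l hlS
        · exact h.sub hal
      refine qlemma w J hΦ (h.hg l) (h.hgL l) hγ₁ hκ h.hρ0 (s l) μ
        (fun j hj => (hfJ j hj).2.1 l) G1 G2 G3 J Subset.rfl h0 hh0 le_rfl ?_ ?_
      · intro j hj
        refine ⟨r, hr0, fun u u' hu hu' => ?_⟩
        have e1 : ∀ u, Φ (x, Function.update (vec J h0 w x) j u) =
            F l (x, Function.update a j (f j x + u)) := by
          intro u
          refine hFJ l x _ _ fun k hk => ?_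
          by_cases hkj : k = j
          · subst hkj; simp
          · simp only [Function.update_of_ne hkj, hvecJ x k hk]
            simp [hw]
        rw [e1, e1]
        have e2 := (hs l j hj).2 (f j x + u) (f j x + u') (by
          have : f j x + u - a j = u - w j := by simp only [hw]; ring
          rw [this]
          exact h.low h.hρν (hr ▸ hu.le)) (by
          have : f j x + u' - a j = u' - w j := by simp only [hw]; ring
          rw [this]
          exact h.low h.hρν (hr ▸ hu'.le))
        rwa [add_sub_add_left_eq_sub] at e2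
      · refine ⟨r, hr0, fun y hy => ?_⟩
        refine hκ1 y x ?_ hx0'
        rw [hLJ]
        exact h.low h.hρν (hr ▸ hy.le)
  choose G hG1 hG2 hG3 hG4 hG5 using key
  exact ⟨J, w, G, hJS, hJne, hLJ, hG1, hG2, hG3, hG4, hG5⟩

end VF

end Pool.Agent.Helper28.HM
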