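import Pool.Agent.Helper28.HM.Case3

/-!
# The main induction
-/

set_option autoImplicit false
set_option linter.unusedTactic false
set_option linter.unreachableTactic false

universe u w

namespace Pool.Agent.Helper28.HM

open Set

variable {K : Type u} [Field K] {Γ : Type w} [LinearOrderedCommGroupWithZero Γ]
  {v : Valuation K Γ} {D : DefStr v}

section VF

variable [VF v] [UG D]

omit [VF v] [UG D] in
lemma val_sub_le_max3 (p q r s : K) (ρ : Γ) (h1 : v (p - q) ≤ ρ) (h2 : v (q - r) ≤ ρ)
    (h3 : v (r - s) ≤ ρ) : v (p - s) ≤ ρ := by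
  have : p - s = (p - q) + ((q - r) + (r - s)) := by ring
  rw [this]
  exact Valuation.map_add_le v h1 (Valuation.map_add_le v h2 h3)

omit [VF v] [UG D] in
lemma LL_max {A : Set K} {x p q : K} (h1 : v p ∈ LL D A x) (h2 : v q ∈ LL D A x) :
    v (p - q) ∈ LL D A x := by
  refine LL.lower (γ := max (v p) (v q)) ?_ (Valuation.map_sub v p q)
  rcases max_choice (v p) (v q) with h' | h' <;> rw [h'] <;> assumption

/-- The main claim: realizations of `Z (x, ·)` can be moved to realizations of `Z (x', ·)` with
displacement at most `ρ`. -/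
theorem claim {ι : Type} [Finite ι] (n : ℕ) : ∀ (S : Finset ι), S.card = n →
    ∀ (A : Set K) (x : K) (ρ : Γ) (a : ι → K) (g : ι → K → K) (Z : K × (ι → K) → Prop),
    DefPred D A Z → ρ ≠ 0 → ρ ∈ LL D A x → (∀ i, DefMap D A (g i)) → (∀ i, Lip D A x (g i)) →
    (∀ i ∈ S, v (a i - g i x) ∈ LL D A x) → (∀ i ∉ S, a i = g i x) → Z (x, a) →
    ∀ x', v (x' - x) ≤ ρ → ∃ a', Z (x', a') ∧ ∀ i, v (a' i - a i) ≤ ρ := by
  classical
  induction n using Nat.strong_induction_on with
  | _ n ih =>
    intro S hSn A x ρ a g Z hZ hρ0 hρ hg hgL hgx hgS hZx x' hx'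
    have hx0 : v (x - x) ∈ LL D A x := by
      rw [sub_self, map_zero]; exact LL.lower hρ zero_le
    have hx'L : v (x' - x) ∈ LL D A x := LL.lower hρ hx'
    rcases S.eq_empty_or_nonempty with rfl | hSne
    · -- no active point
      have hX : DefPred D A (fun y => Z (y, fun i => g i y)) :=
        hZ.comp (DefMap.id.pair (DefMap.pi fun i => hg i))
      have ha : a = fun i => g i x := funext fun i => hgS i (by simp)
      refine ⟨fun i => g i x', ?_, fun i => ?_⟩
      · exact (hom hX hx'L).1 (by rw [ha] at hZx; exact hZx)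
      · rw [ha]
        exact (hgL i x' x hx'L hx0).trans hx'
    by_cases h1 : ∃ i ∈ S, ∃ f : K → K, DefMap D A f ∧ v (a i - f x) ≤ ρ
    · obtain ⟨i, hiS, f, hf, hfx⟩ := h1
      have hfL : Lip D A x f := by
        refine (hgL i).of_close (hg i) hf ?_
        have e1 : f x - g i x = (a i - g i x) - (a i - f x) := by ring
        rw [e1]
        exact LL_max (hgx i hiS) (LL.lower hρ hfx)
      let Z' : K × (ι → K) → Prop := fun p => ∃ t, v (t - f p.1) ≤ ρ ∧
        Z (p.1, Function.update p.2 i t)
      have hZ' : DefPred D A Z' := by repeat' (beta_reduce; with_reducible (first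
            | assumption | exact DefMap.id | exact DefPred.const _ | exact DefVal.const _
            | refine DefPred.and ?_ ?_ | refine DefPred.or ?_ ?_ | refine DefPred.ne ?_ ?_
            | refine DefPred.vne ?_ ?_ | refine DefPred.not ?_ | refine DefPred.imp ?_ ?_
            | refine DefPred.iff ?_ ?_ | refine DefPred.ex ?_ | refine DefPred.all ?_
            | refine DefPred.le ?_ ?_ | refine DefPred.lt ?_ ?_ | refine DefPred.eq ?_ ?_
            | refine DefPred.veq ?_ ?_ | refine DefVal.val ?_ | refine DefVal.mul ?_ ?_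
            | exact DefMap.const (by assumption) | exact DefMap.const DefPt.zero
            | exact DefMap.const DefPt.one | exact DefMap.const (DefPt.of_mem (by assumption))
            | refine DefMap.add ?_ ?_ | refine DefMap.sub ?_ ?_ | refine DefMap.mul ?_ ?_
            | refine DefMap.neg ?_ | refine DefMap.fst ?_ | refine DefMap.snd ?_
            | refine DefMap.pair ?_ ?_ | refine DefMap.update _ ?_ ?_
            | refine DefPred.comp (by assumption) ?_ | refine DefVal.comp (by assumption) ?_
            | refine DefMap.comp (by assumption) ?_ | refine DefMap.comp (DefMap.apply _) ?_))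
      have hcard : (S.erase i).card < n := by
        rw [← hSn]; exact Finset.card_erase_lt_of_mem hiS
      obtain ⟨a'', ⟨t, ht1, ht2⟩, ha''⟩ := ih _ hcard (S.erase i) rfl A x ρ
        (Function.update a i (f x)) (Function.update g i f) Z' hZ' hρ0 hρ (fun j => by
          by_cases hj : j = i
          · subst hj; simpa using hf
          · simpa [Function.update_of_ne hj] using hg j) (fun j => by
          by_cases hj : j = i
          · subst hj; simpa using hfL
          · simpa [Function.update_of_ne hj] using hgL j) (fun j hj => by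
          have hj' := Finset.mem_erase.1 hj
          rw [Function.update_of_ne hj'.1, Function.update_of_ne hj'.1]
          exact hgx j hj'.2) (fun j hj => by
          by_cases hji : j = i
          · subst hji; simp
          · rw [Function.update_of_ne hji, Function.update_of_ne hji]
            exact hgS j fun hjS => hj (Finset.mem_erase.2 ⟨hji, hjS⟩))
        ⟨a i, hfx, by simpa using hZx⟩ x' hx'
      refine ⟨Function.update a'' i t, ht2, fun j => ?_⟩
      by_cases hj : j = i
      · subst hj
        rw [Function.update_self]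
        refine val_sub_le_max3 t (f x') (f x) (a j) ρ ht1 ?_ ?_
        · exact (hfL x' x hx'L hx0).trans hx'
        · rwa [Valuation.map_sub_swap]
      · have := ha'' j
        rwa [Function.update_of_ne hj] at this ⊢
    push Not at h1
    have hρν : ∀ i ∈ S, ρ ∈ LL D (insert x A) (a i) := by
      intro i hi e he
      obtain ⟨f, hf, rfl⟩ := pt_insert he
      exact h1 i hi f hf
    -- case 1: a free difference
    by_cases h2 : ∃ i ∈ S, ∃ f : K → K, DefMap D A f ∧ v (a i - f x) ∈ LL D A x ∧
        ¬ Rel D A x (a i - f x)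
    · obtain ⟨i, hiS, f, hf, hfx, hnr⟩ := h2
      set b := a i - f x with hb
      have hLL : LL D (insert b A) x = LL D A x := LL_of_not_rel hnr
      have hsub : A ⊆ insert b A := subset_insert _ _
      have hfL : Lip D A x f := by
        refine (hgL i).of_close (hg i) hf ?_
        have e1 : f x - g i x = (a i - g i x) - (a i - f x) := by ring
        rw [e1]
        exact LL_max (hgx i hiS) hfx
      have hcard : (S.erase i).card < n := by
        rw [← hSn]; exact Finset.card_erase_lt_of_mem hiS
      refine ih _ hcard (S.erase i) rfl (insert b A) x ρ a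
        (Function.update g i (fun y => f y + b)) Z (hZ.mono hsub) hρ0 (by rwa [hLL]) (fun j => ?_)
        (fun j => ?_) (fun j hj => ?_) (fun j hj => ?_) hZx x' hx'
      · by_cases hj : j = i
        · subst hj
          rw [Function.update_self]
          exact (hf.mono hsub).add (DefMap.const (DefPt.of_mem (mem_insert _ _)))
        · rw [Function.update_of_ne hj]; exact (hg j).mono hsub
      · by_cases hj : j = i
        · subst hj
          rw [Function.update_self]
          intro y y' hy hy'
          have := (hfL.mono hsub) y y' hy hy'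
          simpa using this
        · rw [Function.update_of_ne hj]; exact (hgL j).mono hsub
      · have hj' := Finset.mem_erase.1 hj
        rw [Function.update_of_ne hj'.1, hLL]
        exact hgx j hj'.2
      · by_cases hji : j = i
        · subst hji
          simp [hb]
        · rw [Function.update_of_ne hji]
          exact hgS j fun hjS => hj (Finset.mem_erase.2 ⟨hji, hjS⟩)
    push Not at h2
    -- the largest radius
    obtain ⟨i₀, hi₀, hmax⟩ : ∃ i₀ ∈ S, ∀ j ∈ S,
        LL D (insert x A) (a j) ⊆ LL D (insert x A) (a i₀) := by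
      obtain ⟨i₀, hi₀, hmax⟩ := Finset.exists_max_image S
        (fun i => (⟨LL D (insert x A) (a i), fun _ _ h1 h2 => LL.lower h2 h1⟩ : LowerSet Γ)) hSne
      exact ⟨i₀, hi₀, fun j hj => hmax j hj⟩
    set ν := LL D (insert x A) (a i₀) with hν
    have hνlow : ∀ {γ δ : Γ}, γ ∈ ν → δ ≤ γ → δ ∈ ν := fun h1 h2 => LL.lower h1 h2
    by_cases h3 : ∃ i ∈ S, LL D (insert x A) (a i) = ν ∧ ∃ f : K → K, DefMap D A f ∧
        v (a i - f x) ∈ LL D A x ∧ LL D (insert (a i - f x) A) x ≠ ν
    · -- case 2
      obtain ⟨i, hiS, hiν, f, hf, hfx, hne⟩ := h3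
      set b := a i - f x with hb
      have hrel := h2 i hiS f hf hfx
      obtain ⟨μ, hμ, m1, _, _, m4⟩ := rel_main ⟨ρ, hρ, hρ0⟩ hrel
      rw [← hb, LL_shift (pt_insert_of hf), hiν] at m4
      have hμ1 : μ ≤ 1 := by
        by_contra hcon
        push Not at hcon
        apply val_notMem_LL (D := D) (A := A) (a i - f x)
        rw [m1]
        refine LL.lower hfx ?_
        rw [div_le_iff₀ (zero_lt_iff.2 hμ)]
        exact le_mul_of_one_le_right' hcon.le
      have hsubν : ν ⊆ LL D (insert b A) x := by
        intro γ hγ
        rw [m4] at hγ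
        refine LL.lower (γ := γ / μ) hγ ?_
        rw [le_div_iff₀ (zero_lt_iff.2 hμ)]
        exact mul_le_of_le_one_right' hμ1
      obtain ⟨γ, hγ1, hγ2⟩ : ∃ γ ∈ LL D (insert b A) x, γ ∉ ν := by
        by_contra hcon
        push Not at hcon
        exact hne (Subset.antisymm hcon hsubν)
      have hsub : A ⊆ insert b A := subset_insert _ _
      have hfL : Lip D A x f := by
        refine (hgL i).of_close (hg i) hf ?_
        have e1 : f x - g i x = (a i - g i x) - (a i - f x) := by ring
        rw [e1]
        exact LL_max (hgx i hiS) hfx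
      have hfj : ∀ j, ∃ g' : K → K, DefMap D A g' ∧ Lip D A x g' ∧
          (j ∈ S → v (a j - g' x) ∈ LL D (insert b A) x) ∧ (j ∉ S → g' = g j) := by
        intro j
        by_cases hj : j ∈ S
        · have hγj : γ ∉ LL D (insert x A) (a j) := fun h => hγ2 (hmax j hj h)
          obtain ⟨z, hz, hle⟩ := notMem_LL hγj
          obtain ⟨f', hf', rfl⟩ := pt_insert hz
          have hclose : v (a j - f' x) ∈ LL D (insert b A) x := LL.lower hγ1 hle
          refine ⟨f', hf', ?_, fun _ => hclose, fun h => absurd hj h⟩
          refine (hgL j).of_close (hg j) hf' ?_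
          have e1 : f' x - g j x = (a j - g j x) - (a j - f' x) := by ring
          rw [e1]
          exact LL_max (hgx j hj) (LL.anti hsub _ hclose)
        · exact ⟨g j, hg j, hgL j, fun h => absurd h hj, fun _ => rfl⟩
      choose g' hg'1 hg'2 hg'3 hg'4 using hfj
      have hcard : (S.erase i).card < n := by
        rw [← hSn]; exact Finset.card_erase_lt_of_mem hiS
      refine ih _ hcard (S.erase i) rfl (insert b A) x ρ a
        (Function.update g' i (fun y => f y + b)) Z (hZ.mono hsub) hρ0
        (hsubν (hρν i₀ hi₀)) (fun j => ?_)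
        (fun j => ?_) (fun j hj => ?_) (fun j hj => ?_) hZx x' hx'
      · by_cases hj : j = i
        · subst hj
          rw [Function.update_self]
          exact (hf.mono hsub).add (DefMap.const (DefPt.of_mem (mem_insert _ _)))
        · rw [Function.update_of_ne hj]; exact (hg'1 j).mono hsub
      · by_cases hj : j = i
        · subst hj
          rw [Function.update_self]
          intro y y' hy hy'
          have := (hfL.mono hsub) y y' hy hy'
          simpa using this
        · rw [Function.update_of_ne hj]; exact (hg'2 j).mono hsub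
      · have hj' := Finset.mem_erase.1 hj
        rw [Function.update_of_ne hj'.1]
        exact hg'3 j hj'.2
      · by_cases hji : j = i
        · subst hji
          simp [hb]
        · rw [Function.update_of_ne hji]
          have hjS : j ∉ S := fun hjS => hj (Finset.mem_erase.2 ⟨hji, hjS⟩)
          rw [hg'4 j hjS]
          exact hgS j hjS
    push Not at h3
    -- case 3
    have hbad : Bad D A x S a g ρ ν :=
      { hg := hg
        hgL := hgL
        hgx := hgx
        hρ0 := hρ0
        hρx := hρ
        hρν := hρν i₀ hi₀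
        hrel := h2
        hne := ⟨i₀, hi₀, rfl⟩
        hmax := hmax
        h2b := h3 }
    obtain ⟨J, w, g', hJS, hJne, hLJ, hg'1, hg'2, hg'3, hg'4, hg'5⟩ := hbad.main
    have hcard : (S \ J).card < n := by
      rw [← hSn]
      exact Finset.card_lt_card (Finset.sdiff_ssubset hJS hJne)
    refine ih _ hcard (S \ J) rfl (A ∪ w '' J) x ρ a g' Z (hZ.mono subset_union_left) hρ0
      (by rw [hLJ]; exact hρν i₀ hi₀) hg'1 hg'2 (fun j hj => ?_) (fun j hj => ?_) hZx x' hx'
    · rw [Finset.mem_sdiff] at hj
      rw [hLJ]
      exact hg'3 j hj.1 hj.2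
    · rw [Finset.mem_sdiff, not_and, not_not] at hj
      by_cases hjJ : j ∈ J
      · exact hg'4 j hjJ
      · have hjS : j ∉ S := fun h => hjJ (hj h)
        rw [hg'5 j hjS]
        exact hgS j hjS

/-- The abstract form of `ω`-h-minimality. -/
theorem omega_hom {m : ℕ} {A : Set K} {Z : K × (Fin m → K) → Prop} (hZ : DefPred D A Z)
    {lam : Γ} (h0 : lam ≠ 0) (h1 : lam ≤ 1) {x x' : K}
    (hxx' : ∀ e, DefPt D A e → v (x' - x) < lam * v (x - e)) (a : Fin m → K) (hZx : Z (x, a)) :
    ∃ a', Z (x', a') ∧ ∀ i, RVE v lam (a' i) (a i) := by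
  classical
  by_cases hxe : x' = x
  · subst hxe
    exact ⟨a, hZx, fun i => Or.inl rfl⟩
  have hρ : v (x' - x) ≠ 0 := (Valuation.ne_zero_iff v).2 (sub_ne_zero.2 hxe)
  -- first add the free points to the base
  suffices H : ∀ (n : ℕ) (A : Set K), DefPred D A Z →
      (∀ e, DefPt D A e → v (x' - x) < lam * v (x - e)) →
      (Finset.univ.filter fun i => a i ∉ A).card = n →
      ∃ a', Z (x', a') ∧ ∀ i, RVE v lam (a' i) (a i) from
    H _ A hZ hxx' rfl
  intro n
  induction n using Nat.strong_induction_on with
  | _ n ih =>
    intro A hZ hxx' hn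
    have hdiv : v (x' - x) / lam ∈ LL D A x := (mem_LL_div h0).2 hxx'
    have hρL : v (x' - x) ∈ LL D A x := by
      refine LL.lower hdiv ?_
      rw [le_div_iff₀ (zero_lt_iff.2 h0)]
      exact mul_le_of_le_one_right' h1
    by_cases hfree : ∃ i, a i ∉ A ∧ ¬ Rel D A x (a i)
    · obtain ⟨i, hiA, hnr⟩ := hfree
      have hLL : LL D (insert (a i) A) x = LL D A x := LL_of_not_rel hnr
      refine ih _ ?_ (insert (a i) A) (hZ.mono (subset_insert _ _)) ?_ rfl
      · rw [← hn]
        apply Finset.card_lt_card
        refine ⟨?_, ?_⟩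
        · intro j hj
          simp only [Finset.mem_filter, Finset.mem_univ, true_and] at hj ⊢
          exact fun h => hj (mem_insert_of_mem _ h)
        · intro hcon
          have := hcon (by simp [hiA] : i ∈ Finset.univ.filter fun i => a i ∉ A)
          simp at this
      · rw [← mem_LL_div h0, hLL]; exact hdiv
    push Not at hfree
    -- all the remaining points are related to `x`
    have hdata : ∀ i, ∃ (k h : K → K) (μ : Γ), DefMap D A k ∧ DefMap D A h ∧
        (a i ∈ A → k = fun _ => a i) ∧ (a i ∉ A → μ ≠ 0 ∧ LL D A (a i) = sc μ (LL D A x) ∧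
          v (h (a i) - x) ∈ LL D A x ∧ k (h (a i)) = a i ∧
          ∀ y y', v (y - x) ∈ LL D A x → v (y' - x) ∈ LL D A x →
            v (k y - k y') = μ * v (y - y')) := by
      intro i
      by_cases hi : a i ∈ A
      · exact ⟨fun _ => a i, fun _ => 0, 1, DefMap.const (DefPt.of_mem hi),
          DefMap.const DefPt.zero, fun _ => rfl, fun h => absurd hi h⟩
      · obtain ⟨μ, hμ, m1, ⟨k, hk, hkx⟩, m3, m4⟩ := rel_main ⟨_, hρL, hρ⟩ (hfree i hi)
        have hpt : ¬ DefPt D A (k x) := not_pt_of_LL (γ := v (k x - a i)) (by rwa [LL_eq hkx])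
        obtain ⟨h, hh, hhx, b1, b2⟩ := bij hk hpt
        have hm : v (a i - k x) ∈ LL D A (k x) := by
          rw [LL_eq hkx, Valuation.map_sub_swap]; exact hkx
        obtain ⟨c1, c2⟩ := b2 (a i) hm
        exact ⟨k, h, μ, hk, hh, fun h => absurd h hi, fun _ => ⟨hμ, m1, c1, c2, m3 k hk hkx⟩⟩
    choose k h μ hk hh hkA hkh using hdata
    -- normalized points
    let S : Finset (Fin m) := Finset.univ.filter fun i => a i ∉ A
    let at' : Fin m → K := fun i => if a i ∈ A then x else h i (a i)
    let Z' : K × (Fin m → K) → Prop := fun p => Z (p.1, fun i => k i (p.2 i))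
    have hZ' : DefPred D A Z' := by
      refine hZ.comp (DefMap.fst_id.pair (DefMap.pi fun i => ?_))
      exact (hk i).comp ((DefMap.apply i).comp DefMap.snd_id)
    have hka : ∀ i, k i (at' i) = a i := by
      intro i
      by_cases hi : a i ∈ A
      · rw [hkA i hi]
      · simp only [at', hi, if_false]
        exact (hkh i hi).2.2.2.1
    obtain ⟨a', ha', ha''⟩ := claim (D := D) S.card S rfl A x (v (x' - x)) at' (fun _ y => y) Z' hZ' hρ
      hρL (fun _ => DefMap.id) (fun _ y y' _ _ => le_rfl) (fun i hi => by
        have hiA : a i ∉ A := by simpa [S] using hi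
        simp only [at', hiA, if_false]
        exact (hkh i hiA).2.2.1) (fun i hi => by
        have hiA : a i ∈ A := by simpa [S] using hi
        simp only [at', hiA, if_true]) (by
        simp only [Z', hka]
        exact hZx) x' le_rfl
    refine ⟨fun i => k i (a' i), ha', fun i => ?_⟩
    by_cases hi : a i ∈ A
    · left
      dsimp only
      rw [hkA i hi]
    · right
      obtain ⟨hμ, m1, c1, c2, c3⟩ := hkh i hi
      have hati : at' i = h i (a i) := by simp only [at', hi, if_false]
      have hmem : v (a' i - x) ∈ LL D A x := by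
        have h5 := ha'' i
        rw [hati] at h5
        have h6 : v (a' i - h i (a i)) ∈ LL D A (h i (a i)) := by
          rw [LL_eq c1]; exact LL.lower hρL h5
        exact LL_trans c1 h6
      have e1 := c3 (a' i) (h i (a i)) hmem c1
      rw [c2] at e1
      rw [e1]
      have h7 : v (a' i - h i (a i)) ≤ v (x' - x) := by
        have h5 := ha'' i
        rwa [hati] at h5
      have h8 : μ i * (v (x' - x) / lam) ∈ LL D A (a i) := by
        rw [m1]
        change μ i * (v (x' - x) / lam) / μ i ∈ LL D A x
        rwa [mul_div_cancel_left₀ _ hμ]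
      have h9 := h8 0 DefPt.zero
      rw [sub_zero, mul_div_assoc', div_lt_iff₀ (zero_lt_iff.2 h0), mul_comm (v (a i))] at h9
      exact (mul_le_mul_right h7 _).trans_lt h9

end VF

end Pool.Agent.Helper28.HM
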