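import Mathlib

/-!
# Hensel minimality: definitions
-/

set_option autoImplicit false
set_option linter.unusedTactic false
set_option linter.unreachableTactic false

universe u v w

namespace Pool.Agent.Helper28.HM

open FirstOrder FirstOrder.Language FirstOrder.Language.Structure

/-- The symbols `+`, `·`, `𝒪` of the language of valued fields inside a language `L`. -/
structure ValLang (L : FirstOrder.Language.{v, w}) where
  add : L.Functions 2
  mul : L.Functions 2
  int : L.Relations 1

/-- The `L`-structure `K` is an expansion of the valued field `(K, O)`: the three symbols are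
interpreted by the addition, the multiplication and the valuation ring. -/
structure IsValuedModel {L : FirstOrder.Language.{v, w}} (V : ValLang L) (K : Type u) [Field K]
    [L.Structure K] (O : ValuationSubring K) : Prop where
  add : ∀ x y : K, funMap V.add ![x, y] = x + y
  mul : ∀ x y : K, funMap V.mul ![x, y] = x * y
  int : ∀ x : K, RelMap V.int ![x] ↔ x ∈ O

/-- `rv_lam x = rv_lam y` in `RV_lam = Kˣ / (1 + B_{< lam}(0)) ∪ {0}`. -/
def SameRV {K : Type u} [Field K] (O : ValuationSubring K) (lam : O.ValueGroup) (x y : K) :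
    Prop :=
  (x = 0 ∧ y = 0) ∨ (x ≠ 0 ∧ y ≠ 0 ∧ O.valuation (x / y - 1) < lam)

/-- `X ⊆ K` is definable with parameters from `A`, from `RV` and from the finite set
`{rv_lam (c 0), …, rv_lam (c (n - 1))} ⊆ RV_lam`: for some finite tuple `b` (representing elements
of `RV`) and some `A`-definable `Y`, membership of `x` in `X` means that `(x, b', c') ∈ Y` for some
`b'`, `c'` with the same classes as `b`, `c`. -/
def DefinableOver (L : FirstOrder.Language.{v, w}) {K : Type u} [Field K] [L.Structure K]
    (O : ValuationSubring K) (lam : O.ValueGroup) (A : Set K) {n : ℕ} (c : Fin n → K)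
    (X : Set K) : Prop :=
  ∃ (m : ℕ) (b : Fin m → K) (Y : Set (Unit ⊕ (Fin m ⊕ Fin n) → K)), A.Definable L Y ∧
    ∀ x, x ∈ X ↔ ∃ (b' : Fin m → K) (c' : Fin n → K), (∀ i, SameRV O 1 (b' i) (b i)) ∧
      (∀ j, SameRV O lam (c' j) (c j)) ∧ Sum.elim (fun _ => x) (Sum.elim b' c') ∈ Y

/-- `X` is `lam`-prepared by `C`: whether `x ∈ X` depends only on `(rv_lam (x - c))_{c ∈ C}`. -/
def Prepared {K : Type u} [Field K] (O : ValuationSubring K) (lam : O.ValueGroup)
    (C X : Set K) : Prop :=
  ∀ x x' : K, (∀ c ∈ C, SameRV O lam (x - c) (x' - c)) → (x ∈ X ↔ x' ∈ X)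

/-- `l`-h-minimality of the theory of `K`, for `l` a natural number or `l = ω` (written `⊤`). -/
def HMin {L : FirstOrder.Language.{v, w}} (V : ValLang L) (K : Type u) [L.Structure K] (l : ℕ∞) : Prop :=
  ∀ (K' : Type u) [Field K'] [L.Structure K'] (O : ValuationSubring K'),
    IsValuedModel V K' O → K ≅[L] K' →
    ∀ lam : O.ValueGroup, lam ≠ 0 → lam ≤ 1 → ∀ (A : Set K') (n : ℕ) (c : Fin n → K'),
    (n : ℕ∞) ≤ l → ∀ X : Set K', DefinableOver L O lam A c X →
    ∃ C : Set K', C.Nonempty ∧ C.Finite ∧ A.Definable₁ L C ∧ Prepared O lam C X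

end Pool.Agent.Helper28.HM
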