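import Pool.Agent.Helper28.HM.Claim

/-!
# Adding parameters from `RV`
-/

set_option autoImplicit false
set_option linter.unusedTactic false
set_option linter.unreachableTactic false

universe u w

namespace Pool.Agent.Helper28.HM

open Set

variable {K : Type u} [Field K] {Γ : Type w} [LinearOrderedCommGroupWithZero Γ]
  {v : Valuation K Γ}

lemma RVE.refl (v : Valuation K Γ) (lam : Γ) (x : K) : RVE v lam x x := Or.inl rfl

lemma RVE.symm {lam : Γ} (hl : lam ≤ 1) {x y : K} (h : RVE v lam x y) : RVE v lam y x := by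
  rcases h with h | h'
  · exact Or.inl h.symm
  · right
    rw [Valuation.map_sub_swap, RVE.val_eq hl (Or.inr h')]
    exact h'

lemma RVE.trans {lam : Γ} (hl : lam ≤ 1) {x y z : K} (h : RVE v lam x y) (h' : RVE v lam y z) :
    RVE v lam x z := by
  have e1 := h'.val_eq hl
  rcases h with rfl | h
  · exact h'
  rcases h' with rfl | h'
  · exact Or.inr h
  right
  rw [e1] at h
  have : x - z = (x - y) + (y - z) := by ring
  rw [this]
  exact Valuation.map_add_lt v h h'

section

variable {σ : Type u} [DSort K σ] {A : Set K}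

lemma DefPred.rve {D : DefStr v} {f g : σ → K} (hf : DefMap D A f) (hg : DefMap D A g) :
    DefPred D A (fun s => RVE v 1 (f s) (g s)) := by
  have h1 : DefPred D A (fun s => f s = g s ∨ ¬ v (g s) ≤ v (f s - g s)) :=
    (DefPred.eq hf hg).or (DefPred.val_le' hg (hf.sub hg)).not
  refine h1.congr fun s => ?_
  simp only [RVE, one_mul, not_le]

end

/-- Adding all parameters from `RV` to a definable structure. -/
def rvExp (D : DefStr v) : DefStr v where
  Dfn {α} _ P := ∃ (β : Type) (_ : Finite β) (b : β → K) (Q : (α ⊕ β → K) → Prop), D.Dfn Q ∧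
    ∀ s, P s ↔ ∃ b' : β → K, (∀ i, RVE v 1 (b' i) (b i)) ∧ Q (Sum.elim s b')
  and' := by
    rintro α _ P Q ⟨β, _, b, P', hP', hP⟩ ⟨γ, _, c, Q', hQ', hQ⟩
    refine ⟨β ⊕ γ, inferInstance, Sum.elim b c,
      fun s => P' (s ∘ Sum.map id Sum.inl) ∧ Q' (s ∘ Sum.map id Sum.inr),
      D.and' (D.comap' _ hP') (D.comap' _ hQ'), fun s => ?_⟩
    beta_reduce
    rw [hP, hQ]
    constructor
    · rintro ⟨⟨b', h1, h2⟩, ⟨c', h3, h4⟩⟩
      refine ⟨Sum.elim b' c', ?_, ?_⟩
      · rintro (i | i)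
        · exact h1 i
        · exact h3 i
      · simpa only [Sum.elim_comp_map, Function.comp_id, Sum.elim_comp_inl,
          Sum.elim_comp_inr] using ⟨h2, h4⟩
    · rintro ⟨b', h1, h2⟩
      refine ⟨⟨b' ∘ Sum.inl, fun i => h1 (Sum.inl i), ?_⟩,
        ⟨b' ∘ Sum.inr, fun i => h1 (Sum.inr i), ?_⟩⟩
      · simpa only [Sum.elim_comp_map, Function.comp_id] using h2.1
      · simpa only [Sum.elim_comp_map, Function.comp_id] using h2.2
  not' := by
    rintro α _ P ⟨β, _, b, P', hP', hP⟩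
    have h2 : D.Dfn (fun s : (α ⊕ β) → K => ∀ t : β → K, (∀ i, RVE v 1 (t i) (s (Sum.inr i))) →
        ¬ P' (Sum.elim (s ∘ Sum.inl) t)) := by
      have h3 : D.Dfn (fun s : (α ⊕ β) ⊕ β → K =>
          (∀ i, RVE v 1 (s (Sum.inr i)) (s (Sum.inl (Sum.inr i)))) ∧
          P' (s ∘ Sum.elim (fun i => Sum.inl (Sum.inl i)) Sum.inr)) := by
        refine D.and' ?_ (D.comap' _ hP')
        -- use the automation for one conjunct
        have h4 : ∀ i : β, DefPred (σ := ((α ⊕ β) ⊕ β → K)) D ∅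
            (fun s => RVE v 1 (s (Sum.inr i)) (s (Sum.inl (Sum.inr i)))) := fun i =>
          DefPred.rve (DefMap.apply _) (DefMap.apply _)
        have h5 := DefPred.forall_fin h4
        obtain ⟨γ, _, c, hc, Q, hQ, h6⟩ := h5
        have : IsEmpty γ := ⟨fun i => (hc i).elim⟩
        have h7 := D.comap' (β := (α ⊕ β) ⊕ β) (fun i : ((α ⊕ β) ⊕ β) ⊕ γ =>
          Sum.elim (fun j => j) (fun j => (this.false j).elim) i) hQ
        convert h7 using 1
        funext s
        refine propext ((h6 s).trans ?_)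
        apply iff_of_eq
        congr 1
        ext (i | i)
        · rfl
        · exact (this.false i).elim
      have h8 := D.not' (D.ex' h3)
      convert h8 using 1
      funext s
      apply propext
      simp only [not_exists, not_and, Sum.elim_inr, Sum.elim_inl]
      constructor
      · intro h t ht hcon
        apply h t ht
        convert hcon using 1
        ext (i | i) <;> rfl
      · intro h t ht hcon
        apply h t ht
        convert hcon using 1
        ext (i | i) <;> rfl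
    refine ⟨β, inferInstance, b, _, h2, fun s => ?_⟩
    beta_reduce
    rw [hP]
    constructor
    · intro h
      refine ⟨b, fun i => RVE.refl _ _ _, fun t ht hcon => h ⟨t, ?_, hcon⟩⟩
      simpa using ht
    · rintro ⟨b', h3, h4⟩ ⟨b'', h5, h6⟩
      refine h4 b'' (fun i => ?_) h6
      exact (h5 i).trans le_rfl ((h3 i).symm le_rfl)
  ex' := by
    rintro α γ _ _ P ⟨β, _, b, P', hP', hP⟩
    refine ⟨β, inferInstance, b, fun s => ∃ t : γ → K, P' (Sum.elim s t ∘
      Sum.elim (Sum.elim (fun i => Sum.inl (Sum.inl i)) Sum.inr) (fun i => Sum.inl (Sum.inr i))),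
      D.ex' (D.comap' _ hP'), fun s => ?_⟩
    constructor
    · rintro ⟨t, ht⟩
      obtain ⟨b', h1, h2⟩ := (hP _).1 ht
      refine ⟨b', h1, t, ?_⟩
      convert h2 using 1
      ext ((i | i) | i) <;> rfl
    · rintro ⟨b', h1, t, ht⟩
      refine ⟨t, (hP _).2 ⟨b', h1, ?_⟩⟩
      convert ht using 1
      ext ((i | i) | i) <;> rfl
  comap' := by
    rintro α γ _ _ P f ⟨β, _, b, P', hP', hP⟩
    refine ⟨β, inferInstance, b, fun s => P' (s ∘ Sum.map f id), D.comap' _ hP', fun s => ?_⟩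
    beta_reduce
    rw [hP]
    simp only [Sum.elim_comp_map, Function.comp_id]
  eq' := ⟨Empty, inferInstance, Empty.elim, fun s => s (Sum.inl 0) = s (Sum.inl 1),
    D.comap' Sum.inl D.eq', fun s => ⟨fun h => ⟨Empty.elim, fun i => i.elim, h⟩,
      fun ⟨_, _, h⟩ => h⟩⟩
  add' := ⟨Empty, inferInstance, Empty.elim,
    fun s => s (Sum.inl 0) + s (Sum.inl 1) = s (Sum.inl 2),
    D.comap' Sum.inl D.add', fun s => ⟨fun h => ⟨Empty.elim, fun i => i.elim, h⟩,
      fun ⟨_, _, h⟩ => h⟩⟩
  mul' := ⟨Empty, inferInstance, Empty.elim,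
    fun s => s (Sum.inl 0) * s (Sum.inl 1) = s (Sum.inl 2),
    D.comap' Sum.inl D.mul', fun s => ⟨fun h => ⟨Empty.elim, fun i => i.elim, h⟩,
      fun ⟨_, _, h⟩ => h⟩⟩
  int' := ⟨Empty, inferInstance, Empty.elim, fun s => v (s (Sum.inl 0)) ≤ 1,
    D.comap' Sum.inl D.int', fun s => ⟨fun h => ⟨Empty.elim, fun i => i.elim, h⟩,
      fun ⟨_, _, h⟩ => h⟩⟩

instance (D : DefStr v) : RVStr (rvExp D) where
  rv' b := by
    refine ⟨Unit, inferInstance, fun _ => b, fun s => s (Sum.inl 0) = s (Sum.inr ()), ?_,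
      fun s => ?_⟩
    · exact D.comap' (![Sum.inl 0, Sum.inr ()] : Fin 2 → Fin 1 ⊕ Unit) D.eq'
    · constructor
      · intro h
        exact ⟨fun _ => s 0, fun _ => h, rfl⟩
      · rintro ⟨b', h1, h2⟩
        have h3 : s 0 = b' () := h2
        rw [h3]
        exact h1 ()

lemma rvExp_of {D : DefStr v} {α : Type} [Finite α] {P : (α → K) → Prop} (h : D.Dfn P) :
    (rvExp D).Dfn P :=
  ⟨Empty, inferInstance, Empty.elim, fun s => P (s ∘ Sum.inl), D.comap' _ h,
    fun _ => ⟨fun h => ⟨Empty.elim, fun i => i.elim, h⟩, fun ⟨_, _, h⟩ => h⟩⟩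

lemma DefPred.rvExp {D : DefStr v} {σ : Type u} [DSort K σ] {A : Set K} {P : σ → Prop}
    (h : DefPred D A P) : DefPred (HM.rvExp D) A P := by
  obtain ⟨β, hβ, a, ha, Q, hQ, h⟩ := h
  exact ⟨β, hβ, a, ha, Q, rvExp_of hQ, h⟩

end Pool.Agent.Helper28.HM
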