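import Pool.Agent.Helper28.HM.Ultra

/-!
# `1`-h-minimality implies `ω`-h-minimality
-/

set_option autoImplicit false
set_option linter.unusedTactic false
set_option linter.unreachableTactic false

universe u v w

namespace Pool.Agent.Helper28.HM

open FirstOrder FirstOrder.Language FirstOrder.Language.Structure Set

variable {L : FirstOrder.Language.{v, w}} {V : ValLang L}

section Formulas

variable {K : Type u} [L.Structure K] {A : Set K}

lemma definable_of_formula {α ι : Type} {s : α → K} (hs : ∀ i, s i ∈ A) (φ : L.Formula (α ⊕ ι)) :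
    A.Definable L {w : ι → K | φ.Realize (Sum.elim s w)} := by
  rw [definable_iff_exists_formula_sum]
  refine ⟨φ.relabel (Sum.map (fun i => (⟨s i, hs i⟩ : A)) id), ?_⟩
  ext w
  simp only [mem_ofPred_eq, Formula.realize_relabel]
  apply iff_of_eq
  congr 1
  ext (i | i) <;> rfl

lemma formula_of_range {α ι : Type} {s : α → K} {Y : Set (ι → K)}
    (h : (range s).Definable L Y) : ∃ φ : L.Formula (α ⊕ ι), Y = {w | φ.Realize (Sum.elim s w)} := by
  rw [definable_iff_exists_formula_sum] at h
  obtain ⟨φ, rfl⟩ := h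
  choose g hg using fun y : range s => y.2
  refine ⟨φ.relabel (Sum.map g id), ?_⟩
  ext w
  simp only [mem_ofPred_eq, Formula.realize_relabel]
  apply iff_of_eq
  congr 1
  ext (i | i)
  · exact (hg i).symm
  · rfl

lemma formula_of_definable {ι : Type} {Y : Set (ι → K)} (h : A.Definable L Y) :
    ∃ (k : ℕ) (s : Fin k → K), (∀ i, s i ∈ A) ∧
      ∃ φ : L.Formula (Fin k ⊕ ι), Y = {w | φ.Realize (Sum.elim s w)} := by
  rw [definable_iff_finitely_definable] at h
  obtain ⟨A0, hA0, h⟩ := h
  let e := A0.equivFin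
  have hr : (A0 : Set K) = range (fun i : Fin A0.card => (e.symm i : K)) := by
    ext y
    constructor
    · intro hy
      exact ⟨e ⟨y, hy⟩, by simp⟩
    · rintro ⟨i, rfl⟩
      exact (e.symm i).2
  rw [hr] at h
  exact ⟨A0.card, _, fun i => hA0 (e.symm i).2, formula_of_range h⟩

end Formulas

section Transfer

/-- The term `(n + 1) • t`. -/
def nterm (V : ValLang L) {α : Type} (t : L.Term α) : ℕ → L.Term α
  | 0 => t
  | n + 1 => V.add.apply₂ (nterm V t n) t

lemma realize_nterm {K : Type u} [Field K] [L.Structure K] {O : ValuationSubring K}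
    (hV : IsValuedModel V K O) {α : Type} (t : L.Term α) (x : α → K) (n : ℕ) :
    (nterm V t n).realize x = (n + 1 : ℕ) * t.realize x := by
  induction n with
  | zero => simp [nterm]
  | succ n ih =>
    simp only [nterm, Term.realize_functions_apply₂, hV.add, ih]
    push_cast
    ring

/-- The sentence saying that `n + 1` is invertible in the valuation ring. -/
def charSentence (V : ValLang L) (n : ℕ) : L.Sentence :=
  ∃' ∃' ((∀' (Term.bdEqual (V.mul.apply₂ (&0) (&2)) (&2))) ⊓
    (Term.bdEqual (V.mul.apply₂ (nterm V (&0) n) (&1)) (&0) ⊓ V.int.boundedFormula₁ (&1)))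

lemma realize_charSentence {K : Type u} [Field K] [L.Structure K] {O : ValuationSubring K}
    (hV : IsValuedModel V K O) (n : ℕ) :
    K ⊨ charSentence V n ↔ ∃ y ∈ O, ((n + 1 : ℕ) : K) * y = 1 := by
  simp only [charSentence, Sentence.Realize, Formula.Realize, BoundedFormula.realize_ex,
    BoundedFormula.realize_inf, BoundedFormula.realize_all, BoundedFormula.realize_bdEqual,
    BoundedFormula.realize_rel₁, Term.realize_functions_apply₂, hV.mul, hV.int,
    realize_nterm hV, Term.realize_var, Sum.elim_inr, Function.comp_apply]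
  constructor
  · rintro ⟨e, y, h1, h2, h3⟩
    have he : e = 1 := by
      have := h1 1
      simpa [Fin.snoc] using this
    subst he
    refine ⟨y, ?_, ?_⟩
    · simpa [Fin.snoc] using h3
    · simpa [Fin.snoc] using h2
  · rintro ⟨y, hy, h⟩
    refine ⟨1, y, ?_, ?_, ?_⟩
    · intro x; simp [Fin.snoc]
    · simpa [Fin.snoc] using h
    · simpa [Fin.snoc] using hy

/-- The sentence saying that the valuation is non-trivial. -/
def nontrivSentence (V : ValLang L) : L.Sentence :=
  ∃' (V.int.boundedFormula₁ (&0)).not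

lemma realize_nontrivSentence {K : Type u} [Field K] [L.Structure K] {O : ValuationSubring K}
    (hV : IsValuedModel V K O) : K ⊨ nontrivSentence V ↔ ∃ y : K, y ∉ O := by
  simp only [nontrivSentence, Sentence.Realize, Formula.Realize, BoundedFormula.realize_ex,
    BoundedFormula.realize_not, BoundedFormula.realize_rel₁, hV.int, Term.realize_var,
    Sum.elim_inr, Function.comp_apply]
  constructor
  · rintro ⟨y, hy⟩
    exact ⟨y, by simpa [Fin.snoc] using hy⟩
  · rintro ⟨y, hy⟩
    exact ⟨y, by simpa [Fin.snoc] using hy⟩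

/-- The standing assumptions, in terms of the valuation ring. -/
structure Good (K : Type u) [Field K] (O : ValuationSubring K) : Prop where
  char : ∀ n : ℕ, ∃ y ∈ O, ((n + 1 : ℕ) : K) * y = 1
  nontriv : ∃ y : K, y ∉ O

lemma Good.transfer {K K' : Type u} [Field K] [L.Structure K] {O : ValuationSubring K}
    (hV : IsValuedModel V K O) [Field K'] [L.Structure K'] {O' : ValuationSubring K'}
    (hV' : IsValuedModel V K' O') (h : K ≅[L] K') (hG : Good K O) : Good K' O' := by
  rw [elementarilyEquivalent_iff] at h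
  constructor
  · intro n
    rw [← realize_charSentence hV', ← h, realize_charSentence hV]
    exact hG.char n
  · rw [← realize_nontrivSentence hV', ← h, realize_nontrivSentence hV]
    exact hG.nontriv

lemma Good.vf {K : Type u} [Field K] {O : ValuationSubring K} (h : Good K O) :
    VF O.valuation where
  surj := O.valuation_surjective
  char n hn := by
    obtain ⟨k, rfl⟩ := Nat.exists_eq_succ_of_ne_zero hn
    obtain ⟨y, hy, h⟩ := h.char k
    apply le_antisymm
    · rw [ValuationSubring.valuation_le_one_iff]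
      exact natCast_mem O _
    · have h1 : O.valuation ((k + 1 : ℕ) : K) * O.valuation y = 1 := by
        rw [← map_mul, h, map_one]
      have h2 : O.valuation y ≤ 1 := (ValuationSubring.valuation_le_one_iff _ _).2 hy
      calc (1 : O.ValueGroup) = O.valuation ((k + 1 : ℕ) : K) * O.valuation y := h1.symm
        _ ≤ O.valuation ((k + 1 : ℕ) : K) * 1 := mul_le_mul_right h2 _
        _ = _ := mul_one _
  nontriv := by
    obtain ⟨y, hy⟩ := h.nontriv
    have hy0 : y ≠ 0 := by
      rintro rfl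
      exact hy O.zero_mem
    refine ⟨y⁻¹, inv_ne_zero hy0, ?_⟩
    rw [← ValuationSubring.valuation_le_one_iff, not_le] at hy
    rw [map_inv₀]
    exact inv_lt_one_of_one_lt₀ hy

lemma good_of_char {K : Type u} [Field K] {O : ValuationSubring K} (h1 : O ≠ ⊤)
    (h2 : CharZero (IsLocalRing.ResidueField O)) : Good K O where
  char n := by
    have h3 : ((n + 1 : ℕ) : IsLocalRing.ResidueField O) ≠ 0 := Nat.cast_ne_zero.2 n.succ_ne_zero
    have h4 : IsUnit ((n + 1 : ℕ) : O) := by
      by_contra hcon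
      apply h3
      rw [← map_natCast (IsLocalRing.residue O) (n + 1), IsLocalRing.residue_eq_zero_iff,
        IsLocalRing.mem_maximalIdeal]
      exact hcon
    obtain ⟨y, hy⟩ := h4.exists_right_inv
    refine ⟨y, y.2, ?_⟩
    have := congrArg (Subtype.val) hy
    simpa using this
  nontriv := by
    by_contra hcon
    push Not at hcon
    exact h1 (by ext x; simp [hcon x])

end Transfer

section Main

variable {K : Type u} [Field K] [L.Structure K] {O : ValuationSubring K}

lemma definableOver_defSet {α : Type} {m n : ℕ} (φ : L.Formula (α ⊕ (Unit ⊕ (Fin m ⊕ Fin n))))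
    {lam : O.ValueGroup} (h0 : lam ≠ 0) (h1 : lam ≤ 1) {A : Set K} {s : α → K}
    (hs : ∀ i, s i ∈ A) (b : Fin m → K) (c : Fin n → K) :
    DefinableOver L O lam A c (defSet O φ lam s b c) := by
  refine ⟨m, b, _, definable_of_formula hs φ, fun x => ?_⟩
  simp only [defSet, mem_ofPred_eq, sameRV_iff h0 h1, sameRV_iff one_ne_zero le_rfl]

lemma prepared_iff {lam : O.ValueGroup} (h0 : lam ≠ 0) (h1 : lam ≤ 1) {C X : Set K} :
    Prepared O lam C X ↔ Prepares O.valuation lam C X := by
  simp only [Prepared, Prepares, sameRV_iff h0 h1]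

/-- Pointwise form of h-minimality. -/
lemma pointwise_of_hmin (hV : IsValuedModel V K O) {l : ℕ∞} (hH : HMin V K l) {α : Type} {m n : ℕ}
    (hn : (n : ℕ∞) ≤ l) (φ : L.Formula (α ⊕ (Unit ⊕ (Fin m ⊕ Fin n)))) : Pointwise O φ := by
  intro s x x' lam h0 h1 b c hclose hx
  obtain ⟨C, hC1, hC2, hC3, hC4⟩ := hH K O hV rfl lam h0 h1 (range s) n c hn
    (defSet O φ lam s b c) (definableOver_defSet φ h0 h1 (fun i => mem_range_self i) b c)
  rw [prepared_iff h0 h1] at hC4
  obtain ⟨ψ, hψ⟩ := formula_of_range hC3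
  have hψ' : ∀ e, e ∈ C ↔ (ψ.relabel (Sum.map id fun _ : Fin 1 => ())).Realize
      (Sum.elim s fun _ => e) := by
    intro e
    have h2 : (fun _ : Fin 1 => e) ∈ {x : Fin 1 → K | x 0 ∈ C} ↔
        (fun _ : Fin 1 => e) ∈ {w | ψ.Realize (Sum.elim s w)} := by rw [hψ]
    simp only [mem_ofPred_eq] at h2
    rw [h2, Formula.realize_relabel]
    apply iff_of_eq
    congr 1
    ext (i | i) <;> rfl
  have hset : {e | (ψ.relabel (Sum.map id fun _ : Fin 1 => ())).Realize
      (Sum.elim s fun _ => e)} = C := by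
    ext e; exact (hψ' e).symm
  exact (hC4 x x' fun e he => hclose _ e ((hψ' e).1 he) (by rw [hset]; exact hC2)).1 hx

omit [Field K] in
lemma hmin_congr {K' : Type u} [L.Structure K'] {l : ℕ∞} (h : K ≅[L] K') (hH : HMin V K l) :
    HMin V K' l :=
  fun K'' _ _ O'' hV'' h'' => hH K'' O'' hV'' (h.trans h'')

/-- The uniform form of `1`-h-minimality. -/
lemma ug_of_hmin (hV : IsValuedModel V K O) (hH : HMin V K 1) : UG (rvExp (LStr hV)) where
  ug {α} _ Z hZ := by
    obtain ⟨β₀, _, a, ha, Q, ⟨β, _, b, Q', hQ', hQ⟩, hZ⟩ := hZ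
    have hβ₀ : IsEmpty β₀ := ⟨fun i => (ha i).elim⟩
    have hQ'' : (∅ : Set K).Definable L {s | Q' s} := hQ'
    rw [empty_definable_iff] at hQ''
    obtain ⟨ψ, hψ⟩ := hQ''
    have hψ' : ∀ w, Q' w ↔ ψ.Realize w := by
      intro w
      have : w ∈ {s | Q' s} ↔ w ∈ Set.ofPred ψ.Realize := by rw [hψ]
      exact this
    obtain ⟨m, ⟨eβ⟩⟩ := Finite.exists_equiv_fin β
    let r : (DSort.ι K ((α → K) × K × K) ⊕ β₀) ⊕ β → α ⊕ (Unit ⊕ (Fin m ⊕ Fin 1)) :=
      Sum.elim (Sum.elim (Sum.elim (fun i => Sum.inl i) (Sum.elim (fun _ => Sum.inr (Sum.inl ()))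
        (fun _ => Sum.inr (Sum.inr (Sum.inr 0))))) (fun i => (hβ₀.false i).elim))
        (fun i => Sum.inr (Sum.inr (Sum.inl (eβ i))))
    let φ : L.Formula (α ⊕ (Unit ⊕ (Fin m ⊕ Fin 1))) := ψ.relabel r
    have hφ : ∀ (s : α → K) (x c : K) (b' : Fin m → K),
        φ.Realize (Sum.elim s (Sum.elim (fun _ => x) (Sum.elim b' fun _ => c))) ↔
          Q' (Sum.elim (Sum.elim (DSort.e (K := K) (s, x, c)) a) (b' ∘ eβ)) := by
      intro s x c b'
      rw [hψ', Formula.realize_relabel]
      apply iff_of_eq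
      congr 1
      ext (((i | (i | i)) | i) | i)
      · rfl
      · rfl
      · rfl
      · exact (hβ₀.false i).elim
      · rfl
    obtain ⟨N, C, hC, hC1, hC2⟩ := compactness hV φ (fun I U =>
      pointwise_of_hmin (UP.model hV) (hmin_congr UP.elem hH) (by simp) φ) (b ∘ eβ.symm)
    refine ⟨N, C, hC.rvExp, hC1, fun s lam h0 h1 c => ?_⟩
    have := hC2 s lam h0 h1 (fun _ => c)
    convert this using 1
    ext x
    simp only [mem_ofPred_eq, defSet]
    constructor
    · rintro ⟨c', hc', hz⟩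
      rw [hZ, hQ] at hz
      obtain ⟨b', hb', hz⟩ := hz
      refine ⟨b' ∘ eβ.symm, fun _ => c', fun i => hb' _, fun _ => hc', ?_⟩
      rw [hφ]
      convert hz using 2
      ext i
      simp
    · rintro ⟨b', c', hb', hc', hz⟩
      refine ⟨c' 0, hc' 0, ?_⟩
      rw [hZ, hQ]
      refine ⟨b' ∘ eβ, fun i => ?_, ?_⟩
      · have := hb' (eβ i)
        simpa using this
      · rw [← hφ]
        convert hz using 5
        rename_i i
        fin_cases i
        rfl

/-- Points definable over `A` and `RV` are algebraic over `A`. -/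
lemma alg_of_pt (hV : IsValuedModel V K O) (hG : Good K O) (hH : HMin V K 1) {A : Set K} {e : K}
    (he : DefPt (rvExp (LStr hV)) A e) :
    ∃ C : Set K, C.Finite ∧ A.Definable₁ L C ∧ e ∈ C := by
  have := hG.vf
  obtain ⟨β₁, _, a, ha, Q, ⟨β, _, b, Q', hQ', hQ⟩, hX⟩ := he
  have hQ'' : (∅ : Set K).Definable L {s | Q' s} := hQ'
  rw [empty_definable_iff] at hQ''
  obtain ⟨ψ, hψ⟩ := hQ''
  have hψ' : ∀ w, Q' w ↔ ψ.Realize w := by
    intro w
    have : w ∈ {s | Q' s} ↔ w ∈ Set.ofPred ψ.Realize := by rw [hψ]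
    exact this
  obtain ⟨m, ⟨eβ⟩⟩ := Finite.exists_equiv_fin β
  let r : (DSort.ι K K ⊕ β₁) ⊕ β → β₁ ⊕ (Unit ⊕ (Fin m ⊕ Fin 0)) :=
    Sum.elim (Sum.elim (fun _ => Sum.inr (Sum.inl ())) (fun i => Sum.inl i))
      (fun i => Sum.inr (Sum.inr (Sum.inl (eβ i))))
  let φ : L.Formula (β₁ ⊕ (Unit ⊕ (Fin m ⊕ Fin 0))) := ψ.relabel r
  have hφ : ∀ (x : K) (b' : Fin m → K) (c : Fin 0 → K),
      φ.Realize (Sum.elim a (Sum.elim (fun _ => x) (Sum.elim b' c))) ↔
        Q' (Sum.elim (Sum.elim (DSort.e (K := K) x) a) (b' ∘ eβ)) := by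
    intro x b' c
    rw [hψ', Formula.realize_relabel]
    apply iff_of_eq
    congr 1
    ext ((i | i) | i) <;> rfl
  have hset : defSet O φ 1 a (b ∘ eβ.symm) (Fin.elim0 : Fin 0 → K) = {e} := by
    ext x
    simp only [mem_singleton_iff, defSet, mem_ofPred_eq]
    have hX' : x = e ↔ Q (Sum.elim (DSort.e x) a) := hX x
    rw [hX', hQ]
    constructor
    · rintro ⟨b', c', hb', _, hz⟩
      refine ⟨b' ∘ eβ, fun i => ?_, ?_⟩
      · have := hb' (eβ i)
        simpa using this
      · rwa [← hφ x b' c']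
    · rintro ⟨b', hb', hz⟩
      refine ⟨b' ∘ eβ.symm, Fin.elim0, fun i => hb' _, fun i => i.elim0, ?_⟩
      rw [hφ]
      convert hz using 2
      ext i
      simp
  obtain ⟨C, hC1, hC2, hC3, hC4⟩ := hH K O hV rfl 1 one_ne_zero le_rfl A 0 Fin.elim0 (by simp)
    _ (definableOver_defSet φ one_ne_zero le_rfl ha (b ∘ eβ.symm) Fin.elim0)
  rw [hset, prepared_iff one_ne_zero le_rfl] at hC4
  refine ⟨C, hC2, hC3, ?_⟩
  by_contra heC
  obtain ⟨c₀, hc₀, hmin⟩ := Set.exists_min_image C (fun c => O.valuation (e - c)) hC2 hC1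
  have hδ : O.valuation (e - c₀) ≠ 0 := by
    rw [Valuation.ne_zero_iff, sub_ne_zero]
    rintro rfl
    exact heC hc₀
  obtain ⟨r, hr, hr'⟩ := exists_small (v := O.valuation) hδ
  have := hC4 (e + r) e (fun c hc => Or.inr (by
    have h1 : e + r - c - (e - c) = r := by ring
    rw [h1, one_mul]
    exact hr'.trans_le (hmin c hc)))
  simp [hr] at this

/-- Pointwise form of `ω`-h-minimality. -/
theorem pointwise_omega (hV : IsValuedModel V K O) (hG : Good K O) (hH : HMin V K 1) {α : Type}
    [Finite α] {m n : ℕ} (φ : L.Formula (α ⊕ (Unit ⊕ (Fin m ⊕ Fin n)))) : Pointwise O φ := by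
  have := hG.vf
  have := ug_of_hmin hV hH
  rintro s x x' lam h0 h1 b c hclose ⟨b', c', hb', hc', hx⟩
  by_cases hxx : x = x'
  · subst hxx
    exact ⟨b', c', hb', hc', hx⟩
  let Z : K × (Fin n → K) → Prop := fun p => ∃ b' : Fin m → K,
    (∀ i, RVE O.valuation 1 (b' i) (b i)) ∧
      φ.Realize (Sum.elim s (Sum.elim (fun _ => p.1) (Sum.elim b' p.2)))
  have hZ : DefPred (rvExp (LStr hV)) (range s) Z := by
    refine ⟨α, inferInstance, s, fun i => mem_range_self i, fun w => ∃ b' : Fin m → K,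
      (∀ i, RVE O.valuation 1 (b' i) (b i)) ∧
      φ.Realize (Sum.elim w b' ∘ Sum.elim (fun i => Sum.inl (Sum.inr i))
        (Sum.elim (fun _ => Sum.inl (Sum.inl (Sum.inl ())))
          (Sum.elim (fun i => Sum.inr i) (fun i => Sum.inl (Sum.inl (Sum.inr i)))))), ?_, ?_⟩
    · refine ⟨Fin m, inferInstance, b, fun w => φ.Realize (w ∘ Sum.elim (fun i => Sum.inl (Sum.inr i))
        (Sum.elim (fun _ => Sum.inl (Sum.inl (Sum.inl ())))
          (Sum.elim (fun i => Sum.inr i) (fun i => Sum.inl (Sum.inl (Sum.inr i)))))), ?_,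
        fun w => Iff.rfl⟩
      change (∅ : Set K).Definable L _
      rw [empty_definable_iff]
      refine ⟨φ.relabel (Sum.elim (fun i => Sum.inl (Sum.inr i))
        (Sum.elim (fun _ => Sum.inl (Sum.inl (Sum.inl ())))
          (Sum.elim (fun i => Sum.inr i) (fun i => Sum.inl (Sum.inl (Sum.inr i)))))), ?_⟩
      ext w
      exact Formula.realize_relabel.symm
    · rintro ⟨y, d⟩
      simp only [Z]
      refine exists_congr fun b' => and_congr_right fun _ => ?_
      apply iff_of_eq
      congr 1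
      ext (i | (i | (i | i))) <;> rfl
  have hnear : ∀ e, DefPt (rvExp (LStr hV)) (range s) e →
      O.valuation (x' - x) < lam * O.valuation (x - e) := by
    intro e he
    obtain ⟨C, hC1, hC2, heC⟩ := alg_of_pt hV hG hH he
    obtain ⟨ψ, hψ⟩ := formula_of_range hC2
    have hψ' : ∀ e, e ∈ C ↔ (ψ.relabel (Sum.map id fun _ : Fin 1 => ())).Realize
        (Sum.elim s fun _ => e) := by
      intro e
      have h2 : (fun _ : Fin 1 => e) ∈ {x : Fin 1 → K | x 0 ∈ C} ↔
          (fun _ : Fin 1 => e) ∈ {w | ψ.Realize (Sum.elim s w)} := by rw [hψ]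
      simp only [mem_ofPred_eq] at h2
      rw [h2, Formula.realize_relabel]
      apply iff_of_eq
      congr 1
      ext (i | i) <;> rfl
    have hset : {e | (ψ.relabel (Sum.map id fun _ : Fin 1 => ())).Realize
        (Sum.elim s fun _ => e)} = C := by
      ext e; exact (hψ' e).symm
    have h5 := hclose _ e ((hψ' e).1 heC) (by rw [hset]; exact hC1)
    have h6 := h5.val_eq h1
    rcases h5 with h5 | h5
    · exact absurd (sub_left_injective h5) hxx
    · rw [sub_sub_sub_cancel_right] at h5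
      rwa [Valuation.map_sub_swap, h6]
  obtain ⟨a', ⟨b'', hb'', hx''⟩, ha'⟩ := omega_hom hZ h0 h1 hnear c' ⟨b', hb', hx⟩
  exact ⟨b'', a', hb'', fun j => (ha' j).trans h1 (hc' j), hx''⟩

/-- **`1`-h-minimality implies `ω`-h-minimality.** -/
theorem main (hV : IsValuedModel V K O) (hG : Good K O) (hH : HMin V K 1) : HMin V K ⊤ := by
  intro K' _ _ O' hV' hKK' lam h0 h1 A n c _ X ⟨m, b, Y, hY, hX⟩
  have hG' : Good K' O' := hG.transfer hV hV' hKK'
  have hH' : HMin V K' 1 := hmin_congr hKK' hH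
  obtain ⟨k, s, hs, φ, rfl⟩ := formula_of_definable hY
  obtain ⟨N, C, hC, hC1, hC2⟩ := compactness hV' φ (fun I U =>
    pointwise_omega (UP.model hV') (hG'.transfer hV' (UP.model hV') UP.elem)
      (hmin_congr UP.elem hH') φ) b
  refine ⟨{x | C (s, x)}, (hC1 s).1, (hC1 s).2.1, ?_, ?_⟩
  · obtain ⟨β, _, a, ha, Q, hQ, hCQ⟩ := hC
    have hβ : IsEmpty β := ⟨fun i => (ha i).elim⟩
    have hQ' : (∅ : Set K').Definable L {s | Q s} := hQ
    rw [empty_definable_iff] at hQ'
    obtain ⟨ψ, hψ⟩ := hQ'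
    have hψ' : ∀ w, Q w ↔ ψ.Realize w := by
      intro w
      have : w ∈ {s | Q s} ↔ w ∈ Set.ofPred ψ.Realize := by rw [hψ]
      exact this
    have h5 := definable_of_formula hs (ψ.relabel (Sum.elim (Sum.elim (fun i => Sum.inl i)
      (fun _ => Sum.inr 0)) (fun i => (hβ.false i).elim) :
        (DSort.ι K' ((Fin k → K') × K') ⊕ β) → Fin k ⊕ Fin 1))
    unfold Definable₁
    convert h5 using 1
    ext w
    simp only [mem_ofPred_eq, Formula.realize_relabel]
    rw [hCQ, hψ']
    apply iff_of_eq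
    congr 1
    ext ((i | i) | i)
    · rfl
    · rfl
    · exact (hβ.false i).elim
  · rw [prepared_iff h0 h1]
    have := hC2 s lam h0 h1 c
    convert this using 1
    ext x
    rw [hX]
    simp only [defSet, mem_ofPred_eq, sameRV_iff h0 h1, sameRV_iff one_ne_zero le_rfl]

end Main

end Pool.Agent.Helper28.HM
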