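import Mathlib

/-!
# Abstract definable structures on a valued field

An abstract interface for families of definable predicates.
-/

set_option autoImplicit false
set_option linter.unusedTactic false
set_option linter.unreachableTactic false

universe u w

namespace Pool.Agent.Helper28.HM

open Set

/-- `rv_lam x = rv_lam y`, in the form convenient for computations. -/
def RVE {K : Type u} [Field K] {Γ : Type w} [LinearOrderedCommGroupWithZero Γ]
    (v : Valuation K Γ) (lam : Γ) (x y : K) : Prop :=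
  x = y ∨ v (x - y) < lam * v y

/-- A family of definable predicates on finite powers of a valued field. -/
structure DefStr {K : Type u} [Field K] {Γ : Type w} [LinearOrderedCommGroupWithZero Γ]
    (v : Valuation K Γ) where
  Dfn : ∀ {α : Type} [Finite α], ((α → K) → Prop) → Prop
  and' : ∀ {α : Type} [Finite α] {P Q : (α → K) → Prop},
    Dfn P → Dfn Q → Dfn (fun s => P s ∧ Q s)
  not' : ∀ {α : Type} [Finite α] {P : (α → K) → Prop}, Dfn P → Dfn (fun s => ¬ P s)
  ex' : ∀ {α β : Type} [Finite α] [Finite β] {P : (α ⊕ β → K) → Prop}, Dfn P →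
    Dfn (fun s : α → K => ∃ t : β → K, P (Sum.elim s t))
  comap' : ∀ {α β : Type} [Finite α] [Finite β] {P : (α → K) → Prop} (f : α → β), Dfn P →
    Dfn (fun s : β → K => P (s ∘ f))
  eq' : Dfn (fun s : Fin 2 → K => s 0 = s 1)
  add' : Dfn (fun s : Fin 3 → K => s 0 + s 1 = s 2)
  mul' : Dfn (fun s : Fin 3 → K => s 0 * s 1 = s 2)
  int' : Dfn (fun s : Fin 1 → K => v (s 0) ≤ 1)

/-- The classes of the leading term equivalence are definable. -/
class RVStr {K : Type u} [Field K] {Γ : Type w} [LinearOrderedCommGroupWithZero Γ]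
    {v : Valuation K Γ} (D : DefStr v) : Prop where
  rv' : ∀ b : K, D.Dfn (fun s : Fin 1 → K => RVE v 1 (s 0) b)

/-- Types of the form `K ^ ι`, `ι` finite. -/
class DSort (K : Type u) (σ : Type u) where
  ι : Type
  fin : Finite ι
  e : σ ≃ (ι → K)

attribute [instance] DSort.fin

instance DSort.self (K : Type u) : DSort K K where
  ι := Unit
  fin := inferInstance
  e := (Equiv.funUnique Unit K).symm

instance DSort.prod (K : Type u) (σ τ : Type u) [DSort K σ] [DSort K τ] : DSort K (σ × τ) where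
  ι := DSort.ι K σ ⊕ DSort.ι K τ
  fin := inferInstance
  e := ((DSort.e (K := K) (σ := σ)).prodCongr (DSort.e (K := K) (σ := τ))).trans
    (Equiv.sumArrowEquivProdArrow _ _ _).symm

instance DSort.pi (K : Type u) (α : Type) [Finite α] : DSort K (α → K) where
  ι := α
  fin := inferInstance
  e := Equiv.refl _

instance DSort.unit (K : Type u) : DSort K PUnit.{u+1} where
  ι := Empty
  fin := inferInstance
  e := ⟨fun _ => Empty.elim, fun _ => PUnit.unit, fun _ => rfl, fun _ => funext (fun i => i.elim)⟩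

variable {K : Type u} [Field K] {Γ : Type w} [LinearOrderedCommGroupWithZero Γ]
  {v : Valuation K Γ} (D : DefStr v)

section Basic

variable {σ τ ρ : Type u} [DSort K σ] [DSort K τ] [DSort K ρ]

omit [Field K] in
@[simp] lemma DSort.e_prod_inl (s : σ) (t : τ) (i : DSort.ι K σ) :
    (DSort.e (K := K) (σ := σ × τ) (s, t)) (Sum.inl i) = DSort.e (K := K) s i := rfl

omit [Field K] in
@[simp] lemma DSort.e_prod_inr (s : σ) (t : τ) (i : DSort.ι K τ) :
    (DSort.e (K := K) (σ := σ × τ) (s, t)) (Sum.inr i) = DSort.e (K := K) t i := rfl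

/-- Definability of a predicate on a sort with parameters from `A`. -/
def DefPred (A : Set K) (P : σ → Prop) : Prop :=
  ∃ (β : Type) (_ : Finite β) (a : β → K), (∀ i, a i ∈ A) ∧
    ∃ Q : (DSort.ι K σ ⊕ β → K) → Prop, D.Dfn Q ∧
      ∀ s : σ, P s ↔ Q (Sum.elim (DSort.e (K := K) s) a)

variable {D} {A B : Set K}

lemma DefPred.mono {P : σ → Prop} (h : DefPred D A P) (hAB : A ⊆ B) : DefPred D B P := by
  obtain ⟨β, hβ, a, ha, Q, hQ, h⟩ := h
  exact ⟨β, hβ, a, fun i => hAB (ha i), Q, hQ, h⟩

lemma DefPred.congr {P Q : σ → Prop} (h : DefPred D A P) (hPQ : ∀ s, Q s ↔ P s) :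
    DefPred D A Q := by
  have : Q = P := funext fun s => propext (hPQ s)
  rw [this]; exact h

lemma DefPred.and {P Q : σ → Prop} (hP : DefPred D A P) (hQ : DefPred D A Q) :
    DefPred D A (fun s => P s ∧ Q s) := by
  obtain ⟨β, hβ, a, ha, P', hP', hP⟩ := hP
  obtain ⟨γ, hγ, b, hb, Q', hQ', hQ⟩ := hQ
  refine ⟨β ⊕ γ, inferInstance, Sum.elim a b, ?_, 
    fun s => P' (s ∘ Sum.map id Sum.inl) ∧ Q' (s ∘ Sum.map id Sum.inr), ?_, ?_⟩
  · rintro (i | i)
    · exact ha i
    · exact hb i
  · exact D.and' (D.comap' _ hP') (D.comap' _ hQ')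
  · intro s
    beta_reduce
    rw [hP, hQ]
    simp only [Sum.elim_comp_map, Function.comp_id, Sum.elim_comp_inl, Sum.elim_comp_inr]

lemma DefPred.not {P : σ → Prop} (hP : DefPred D A P) : DefPred D A (fun s => ¬ P s) := by
  obtain ⟨β, hβ, a, ha, P', hP', hP⟩ := hP
  exact ⟨β, hβ, a, ha, _, D.not' hP', fun s => not_congr (hP s)⟩

lemma DefPred.or {P Q : σ → Prop} (hP : DefPred D A P) (hQ : DefPred D A Q) :
    DefPred D A (fun s => P s ∨ Q s) :=
  (hP.not.and hQ.not).not.congr fun s => by tauto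

lemma DefPred.imp {P Q : σ → Prop} (hP : DefPred D A P) (hQ : DefPred D A Q) :
    DefPred D A (fun s => P s → Q s) :=
  (hP.and hQ.not).not.congr fun s => by tauto

lemma DefPred.iff {P Q : σ → Prop} (hP : DefPred D A P) (hQ : DefPred D A Q) :
    DefPred D A (fun s => (P s ↔ Q s)) :=
  ((hP.imp hQ).and (hQ.imp hP)).congr fun s => by tauto

/-- Reindexing. -/
lemma DefPred.reindex {P : τ → Prop} (hP : DefPred D A P) (r : σ → τ)
    (φ : DSort.ι K τ → DSort.ι K σ)
    (hr : ∀ s i, DSort.e (K := K) (r s) i = DSort.e (K := K) s (φ i)) :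
    DefPred D A (fun s => P (r s)) := by
  obtain ⟨β, hβ, a, ha, P', hP', hP⟩ := hP
  refine ⟨β, hβ, a, ha, fun s => P' (s ∘ Sum.map φ id), D.comap' _ hP', fun s => ?_⟩
  beta_reduce
  rw [hP]
  have : Sum.elim (DSort.e (K := K) (r s)) a =
      Sum.elim (DSort.e (K := K) s) a ∘ Sum.map φ id := by
    ext (i | i)
    · simp [hr]
    · simp
  rw [this]

lemma DefPred.ex {P : σ → τ → Prop} (hP : DefPred D A (fun p : σ × τ => P p.1 p.2)) :
    DefPred D A (fun s => ∃ t, P s t) := by
  obtain ⟨β, hβ, a, ha, P', hP', hP⟩ := hP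
  refine ⟨β, hβ, a, ha, fun s => ∃ t : DSort.ι K τ → K,
    P' (Sum.elim s t ∘ Sum.elim (Sum.elim (fun i => Sum.inl (Sum.inl i)) Sum.inr)
      (fun i => Sum.inl (Sum.inr i))), ?_, ?_⟩
  · exact D.ex' (D.comap' _ hP')
  · intro s
    constructor
    · rintro ⟨t, ht⟩
      refine ⟨DSort.e t, ?_⟩
      have h1 := (hP (s, t)).1 ht
      convert h1 using 1
      ext ((i | i) | i) <;> simp
    · rintro ⟨t, ht⟩
      refine ⟨DSort.e.symm t, ?_⟩
      refine (hP (s, DSort.e.symm t)).2 ?_
      convert ht using 1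
      ext ((i | i) | i) <;> simp

lemma DefPred.all {P : σ → τ → Prop} (hP : DefPred D A (fun p : σ × τ => P p.1 p.2)) :
    DefPred D A (fun s => ∀ t, P s t) :=
  (DefPred.ex (P := fun s t => ¬ P s t) hP.not).not.congr fun s => by simp

lemma DefPred.true : DefPred D A (fun _ : σ => True) := by
  refine ⟨Empty, inferInstance, Empty.elim, fun i => i.elim, fun _ => True, ?_, fun s => Iff.rfl⟩
  have h := D.comap' (β := DSort.ι K σ ⊕ Empty) (α := Empty) Empty.elim
    (D.ex' (α := Empty) (β := Fin 2) (D.comap' (fun i : Fin 2 => (Sum.inr i : Empty ⊕ Fin 2)) D.eq'))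
  convert h using 1
  ext s
  simp only [true_iff]
  exact ⟨fun _ => 0, rfl⟩

lemma DefPred.false : DefPred D A (fun _ : σ => False) :=
  (DefPred.true (D := D) (A := A) (σ := σ)).not.congr fun s => by simp

lemma DefPred.const (p : Prop) : DefPred D A (fun _ : σ => p) := by
  by_cases hp : p
  · exact DefPred.true.congr fun _ => by simp [hp]
  · exact DefPred.false.congr fun _ => by simp [hp]

/-- Coordinate predicates: basic building block. -/
lemma DefPred.ofDfn {n : ℕ} {Q : (Fin n → K) → Prop} (hQ : D.Dfn Q)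
    (φ : Fin n → DSort.ι K σ) {P : σ → Prop}
    (h : ∀ s, P s ↔ Q (fun i => DSort.e (K := K) s (φ i))) : DefPred D A P := by
  refine ⟨Empty, inferInstance, Empty.elim, fun i => i.elim,
    fun s => Q (s ∘ (fun i => Sum.inl (φ i))), D.comap' _ hQ, fun s => ?_⟩
  rw [h]
  rfl

lemma DefPred.forall_fin {ι : Type*} [Finite ι] {P : ι → σ → Prop}
    (h : ∀ i, DefPred D A (P i)) : DefPred D A (fun s => ∀ i, P i s) := by
  classical
  have := Fintype.ofFinite ι
  have key : ∀ S : Finset ι, DefPred D A (fun s => ∀ i ∈ S, P i s) := by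
    intro S
    induction S using Finset.induction_on with
    | empty => exact DefPred.true.congr fun _ => by simp
    | insert i S _ ih => exact ((h i).and ih).congr fun s => by simp
  exact (key Finset.univ).congr fun s => by simp

lemma DefPred.exists_fin {ι : Type*} [Finite ι] {P : ι → σ → Prop}
    (h : ∀ i, DefPred D A (P i)) : DefPred D A (fun s => ∃ i, P i s) :=
  (DefPred.forall_fin (P := fun i s => ¬ P i s) fun i => (h i).not).not.congr fun s => by simp

/-- A definable map, given by its graph. -/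
def DefMap (D : DefStr v) (A : Set K) (f : σ → τ) : Prop :=
  DefPred D A (fun p : σ × τ => p.2 = f p.1)

lemma DefMap.mono {f : σ → τ} (h : DefMap D A f) (hAB : A ⊆ B) : DefMap D B f :=
  DefPred.mono h hAB

lemma DefPred.eq_coord (r₁ r₂ : σ → τ) (φ₁ φ₂ : DSort.ι K τ → DSort.ι K σ)
    (h₁ : ∀ s i, DSort.e (K := K) (r₁ s) i = DSort.e (K := K) s (φ₁ i))
    (h₂ : ∀ s i, DSort.e (K := K) (r₂ s) i = DSort.e (K := K) s (φ₂ i)) :
    DefPred D A (fun s => r₁ s = r₂ s) := by
  have h : ∀ i, DefPred D A (fun s : σ => DSort.e (K := K) (r₁ s) i = DSort.e (K := K) (r₂ s) i) :=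
    fun i => DefPred.ofDfn D.eq' ![φ₁ i, φ₂ i] fun s => by simp [h₁, h₂]
  refine (DefPred.forall_fin h).congr fun s => ?_
  constructor
  · intro h i; rw [h]
  · intro h
    exact DSort.e.injective (funext h)

/-- Coordinate maps are definable. -/
lemma DefMap.coord (r : σ → τ) (φ : DSort.ι K τ → DSort.ι K σ)
    (hr : ∀ s i, DSort.e (K := K) (r s) i = DSort.e (K := K) s (φ i)) : DefMap D A r :=
  DefPred.eq_coord (fun p : σ × τ => p.2) (fun p => r p.1) (fun i => Sum.inr i)
    (fun i => Sum.inl (φ i)) (fun _ _ => rfl) (fun s i => hr s.1 i)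

lemma DefMap.id : DefMap D A (fun s : σ => s) :=
  DefMap.coord _ (fun i => i) fun _ _ => rfl

/-- Substitution of a definable map in a definable predicate. -/
lemma DefPred.comp {P : τ → Prop} (hP : DefPred D A P) {f : σ → τ} (hf : DefMap D A f) :
    DefPred D A (fun s => P (f s)) := by
  have h1 : DefPred D A (fun p : σ × τ => p.2 = f p.1 ∧ P p.2) :=
    hf.and (hP.reindex (fun p : σ × τ => p.2) (fun i => Sum.inr i) fun _ _ => rfl)
  exact (DefPred.ex (P := fun s t => t = f s ∧ P t) h1).congr fun s => by simp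

lemma DefMap.fst_id : DefMap D A (fun p : σ × τ => p.1) :=
  DefMap.coord _ (fun i => Sum.inl i) fun _ _ => rfl

lemma DefMap.snd_id : DefMap D A (fun p : σ × τ => p.2) :=
  DefMap.coord _ (fun i => Sum.inr i) fun _ _ => rfl

lemma DefPred.reindexFst {P : σ → Prop} (hP : DefPred D A P) :
    DefPred D A (fun p : σ × τ => P p.1) :=
  hP.reindex _ (fun i => Sum.inl i) fun _ _ => rfl

lemma DefPred.reindexSnd {P : τ → Prop} (hP : DefPred D A P) :
    DefPred D A (fun p : σ × τ => P p.2) :=
  hP.reindex _ (fun i => Sum.inr i) fun _ _ => rfl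

lemma DefMap.pair {f : σ → τ} {g : σ → ρ} (hf : DefMap D A f) (hg : DefMap D A g) :
    DefMap D A (fun s => (f s, g s)) := by
  have h1 : DefPred D A (fun p : σ × (τ × ρ) => p.2.1 = f p.1) :=
    DefPred.reindex hf (fun p : σ × (τ × ρ) => (p.1, p.2.1))
      (Sum.elim (fun i => Sum.inl i) (fun i => Sum.inr (Sum.inl i))) (by rintro s (i | i) <;> rfl)
  have h2 : DefPred D A (fun p : σ × (τ × ρ) => p.2.2 = g p.1) :=
    DefPred.reindex hg (fun p : σ × (τ × ρ) => (p.1, p.2.2))
      (Sum.elim (fun i => Sum.inl i) (fun i => Sum.inr (Sum.inr i))) (by rintro s (i | i) <;> rfl)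
  exact (h1.and h2).congr fun s => by
    rcases s with ⟨s, t, r⟩
    simp [Prod.ext_iff]

lemma DefMap.comp {g : τ → ρ} {f : σ → τ} (hg : DefMap D A g) (hf : DefMap D A f) :
    DefMap D A (fun s => g (f s)) := by
  have h1 : DefPred D A (fun p : (σ × ρ) × τ => p.2 = f p.1.1 ∧ p.1.2 = g p.2) := by
    refine DefPred.and ?_ ?_
    · exact DefPred.reindex hf (fun p : (σ × ρ) × τ => (p.1.1, p.2))
        (Sum.elim (fun i => Sum.inl (Sum.inl i)) (fun i => Sum.inr i))
        (by rintro s (i | i) <;> rfl)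
    · exact DefPred.reindex hg (fun p : (σ × ρ) × τ => (p.2, p.1.2))
        (Sum.elim (fun i => Sum.inr i) (fun i => Sum.inl (Sum.inr i)))
        (by rintro s (i | i) <;> rfl)
  exact (DefPred.ex (P := fun (p : σ × ρ) (t : τ) => t = f p.1 ∧ p.2 = g t) h1).congr
    fun s => by simp

lemma DefMap.fst {f : σ → τ × ρ} (hf : DefMap D A f) : DefMap D A (fun s => (f s).1) :=
  DefMap.fst_id.comp hf

lemma DefMap.snd {f : σ → τ × ρ} (hf : DefMap D A f) : DefMap D A (fun s => (f s).2) :=
  DefMap.snd_id.comp hf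

lemma DefPred.eq {f g : σ → τ} (hf : DefMap D A f) (hg : DefMap D A g) :
    DefPred D A (fun s => f s = g s) :=
  (DefPred.eq_coord (fun p : τ × τ => p.1) (fun p => p.2) (fun i => Sum.inl i)
    (fun i => Sum.inr i) (fun _ _ => rfl) (fun _ _ => rfl)).comp (hf.pair hg)

/-- A definable map described by a definable predicate. -/
lemma DefMap.of_graph {f : σ → τ} {G : σ → τ → Prop}
    (hG : DefPred D A (fun p : σ × τ => G p.1 p.2)) (h : ∀ s t, t = f s ↔ G s t) : DefMap D A f :=
  DefPred.congr hG fun p => h p.1 p.2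

end Basic

section Field

variable {σ τ ρ : Type u} [DSort K σ] [DSort K τ] [DSort K ρ] {A B : Set K} {D}

lemma DefMap.add {f g : σ → K} (hf : DefMap D A f) (hg : DefMap D A g) :
    DefMap D A (fun s => f s + g s) := by
  have h : DefMap D A (fun p : K × K => p.1 + p.2) := by
    have : DefPred D A (fun p : (K × K) × K => p.1.1 + p.1.2 = p.2) :=
      DefPred.ofDfn D.add' ![Sum.inl (Sum.inl ()), Sum.inl (Sum.inr ()), Sum.inr ()]
        fun s => by rcases s with ⟨⟨a, b⟩, c⟩; rfl
    exact this.congr fun s => eq_comm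
  exact h.comp (hf.pair hg)

lemma DefMap.mul {f g : σ → K} (hf : DefMap D A f) (hg : DefMap D A g) :
    DefMap D A (fun s => f s * g s) := by
  have h : DefMap D A (fun p : K × K => p.1 * p.2) := by
    have : DefPred D A (fun p : (K × K) × K => p.1.1 * p.1.2 = p.2) :=
      DefPred.ofDfn D.mul' ![Sum.inl (Sum.inl ()), Sum.inl (Sum.inr ()), Sum.inr ()]
        fun s => by rcases s with ⟨⟨a, b⟩, c⟩; rfl
    exact this.congr fun s => eq_comm
  exact h.comp (hf.pair hg)

lemma DefMap.sub {f g : σ → K} (hf : DefMap D A f) (hg : DefMap D A g) :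
    DefMap D A (fun s => f s - g s) := by
  have h : DefPred D A (fun p : σ × K => p.2 + g p.1 = f p.1) :=
    DefPred.eq (DefMap.add DefMap.snd_id (hg.comp DefMap.fst_id)) (hf.comp DefMap.fst_id)
  exact h.congr fun s => eq_sub_iff_add_eq

/-- `{a}` is definable. -/
def DefPt (D : DefStr v) (A : Set K) (a : K) : Prop := DefPred D A (fun x : K => x = a)

lemma DefMap.const {a : K} (ha : DefPt D A a) : DefMap D A (fun _ : σ => a) :=
  DefPred.comp (P := fun x : K => x = a) ha DefMap.snd_id

lemma DefPt.of_mem {a : K} (ha : a ∈ A) : DefPt D A a := by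
  refine ⟨Unit, inferInstance, fun _ => a, fun _ => ha,
    fun s => s (Sum.inl ()) = s (Sum.inr ()), ?_, ?_⟩
  · exact D.comap' (![Sum.inl (), Sum.inr ()] : Fin 2 → (DSort.ι K K ⊕ Unit)) D.eq'
  · intro s
    rfl

lemma DefPt.zero : DefPt D A (0 : K) := by
  have : DefPred D A (fun x : K => x + x = x) := DefPred.eq (DefMap.id.add DefMap.id) DefMap.id
  exact this.congr fun x => by simp

lemma DefPt.one : DefPt D A (1 : K) := by
  have : DefPred D A (fun x : K => x * x = x ∧ ¬ x = 0) :=
    (DefPred.eq (DefMap.id.mul DefMap.id) DefMap.id).and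
      (DefPred.eq DefMap.id (DefMap.const DefPt.zero)).not
  refine this.congr fun x => ?_
  constructor
  · rintro rfl; simp
  · rintro ⟨h, h0⟩
    exact mul_left_cancel₀ h0 (by simpa using h)

lemma DefPt.map {a : K} (ha : DefPt D A a) {f : K → K} (hf : DefMap D A f) : DefPt D A (f a) := by
  have : DefPred D A (fun y : K => ∃ x : K, x = a ∧ y = f x) := by
    refine DefPred.ex (P := fun y x => x = a ∧ y = f x) ?_
    exact (DefPred.comp (P := fun x : K => x = a) ha DefMap.snd_id).and
      (DefPred.eq DefMap.fst_id (hf.comp DefMap.snd_id))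
  exact this.congr fun y => by simp

lemma DefMap.neg {f : σ → K} (hf : DefMap D A f) : DefMap D A (fun s => - f s) := by
  have := DefMap.sub (DefMap.const (σ := σ) (DefPt.zero (D := D) (A := A))) hf
  simpa using this

lemma DefMap.apply {α : Type} [Finite α] (i : α) : DefMap D A (fun w : α → K => w i) :=
  DefMap.coord _ (fun _ => i) fun _ _ => rfl

lemma DefMap.pi {α : Type} [Finite α] {f : σ → α → K} (hf : ∀ i, DefMap D A (fun s => f s i)) :
    DefMap D A f := by
  have h : ∀ i, DefPred D A (fun p : σ × (α → K) => p.2 i = f p.1 i) := fun i =>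
    DefPred.eq ((DefMap.apply i).comp DefMap.snd_id) ((hf i).comp DefMap.fst_id)
  exact (DefPred.forall_fin h).congr fun p => funext_iff

end Field

/-- Standing assumptions on the valuation. -/
class VF (v : Valuation K Γ) : Prop where
  surj : ∀ γ : Γ, ∃ x, v x = γ
  char : ∀ n : ℕ, n ≠ 0 → v (n : K) = 1
  nontriv : ∃ x : K, x ≠ 0 ∧ v x < 1

section Val

variable {σ τ ρ : Type u} [DSort K σ] [DSort K τ] [DSort K ρ] {A B : Set K} {D}

lemma DefPred.int {f : σ → K} (hf : DefMap D A f) : DefPred D A (fun s => v (f s) ≤ 1) := by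
  have : DefPred D A (fun x : K => v x ≤ 1) :=
    DefPred.ofDfn D.int' ![()] fun s => Iff.rfl
  exact this.comp hf

lemma DefPred.val_le' {f g : σ → K} (hf : DefMap D A f) (hg : DefMap D A g) :
    DefPred D A (fun s => v (f s) ≤ v (g s)) := by
  have h : DefPred D A (fun s => ∃ t : K, v t ≤ 1 ∧ f s = t * g s) :=
    DefPred.ex (P := fun s t => v t ≤ 1 ∧ f s = t * g s)
      ((DefPred.int DefMap.snd_id).and
        (DefPred.eq (hf.comp DefMap.fst_id) (DefMap.snd_id.mul (hg.comp DefMap.fst_id))))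
  refine h.congr fun s => ?_
  constructor
  · intro hs
    by_cases h0 : g s = 0
    · refine ⟨0, by simp, ?_⟩
      rw [h0, map_zero, le_zero_iff, map_eq_zero] at hs
      simp [hs]
    · refine ⟨f s / g s, ?_, by field_simp⟩
      rw [map_div₀]
      exact div_le_one_of_le₀ hs zero_le
  · rintro ⟨t, ht, hs⟩
    rw [hs, map_mul]
    calc v t * v (g s) ≤ 1 * v (g s) := mul_le_mul_left ht _
      _ = v (g s) := one_mul _

/-- A definable `Γ`-valued map. -/
def DefVal (D : DefStr v) (A : Set K) (φ : σ → Γ) : Prop :=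
  DefPred D A (fun p : σ × K => v p.2 = φ p.1)

lemma DefVal.mono {φ : σ → Γ} (h : DefVal D A φ) (hAB : A ⊆ B) : DefVal D B φ :=
  DefPred.mono h hAB

lemma DefPred.rv [RVStr D] {f : σ → K} (hf : DefMap D A f) (b : K) :
    DefPred D A (fun s => RVE v 1 (f s) b) := by
  have : DefPred D A (fun x : K => RVE v 1 x b) :=
    DefPred.ofDfn (RVStr.rv' (D := D) b) ![()] fun s => Iff.rfl
  exact this.comp hf

lemma RVE.val_eq {lam : Γ} (hl : lam ≤ 1) {x y : K} (h : RVE v lam x y) : v x = v y := by
  rcases h with rfl | h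
  · rfl
  · have h2 : v (x - y) < v y := lt_of_lt_of_le h (by simpa using mul_le_mul_left hl (v y))
    have := Valuation.map_add_eq_of_lt_right v h2
    simpa using this

lemma DefVal.val {f : σ → K} (hf : DefMap D A f) : DefVal D A (fun s => v (f s)) := by
  have h := (DefPred.val_le' (D := D) (A := A) (DefMap.snd_id (σ := σ) (τ := K))
    (hf.comp DefMap.fst_id)).and
    (DefPred.val_le' (D := D) (A := A) (hf.comp DefMap.fst_id) (DefMap.snd_id (σ := σ) (τ := K)))
  exact h.congr fun _ => by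
    constructor
    · intro h; exact ⟨h.le, h.ge⟩
    · rintro ⟨h1, h2⟩; exact le_antisymm h1 h2

lemma DefPred.val_eq' {f g : σ → K} (hf : DefMap D A f) (hg : DefMap D A g) :
    DefPred D A (fun s => v (f s) = v (g s)) :=
  ((DefPred.val_le' hf hg).and (DefPred.val_le' hg hf)).congr fun _ => le_antisymm_iff

variable [VF v]

lemma DefVal.const [RVStr D] (γ : Γ) : DefVal D A (fun _ : σ => γ) := by
  obtain ⟨r, rfl⟩ := VF.surj (v := v) γ
  have h : DefPred D A (fun p : σ × K => ∃ r' : K, RVE v 1 r' r ∧ v p.2 = v r') :=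
    DefPred.ex (P := fun (p : σ × K) (r' : K) => RVE v 1 r' r ∧ v p.2 = v r')
      ((DefPred.rv DefMap.snd_id r).and (DefPred.val_eq' (DefMap.snd_id.comp DefMap.fst_id)
        DefMap.snd_id))
  refine h.congr fun s => ?_
  constructor
  · intro h; exact ⟨r, Or.inl rfl, h⟩
  · rintro ⟨r', h1, h2⟩
    rw [h2, h1.val_eq le_rfl]

lemma DefVal.mul {φ ψ : σ → Γ} (hφ : DefVal D A φ) (hψ : DefVal D A ψ) :
    DefVal D A (fun s => φ s * ψ s) := by
  have h : DefPred D A (fun p : σ × K => ∃ q : K × K, v q.1 = φ p.1 ∧ v q.2 = ψ p.1 ∧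
      v p.2 = v (q.1 * q.2)) := by
    refine DefPred.ex (P := fun (p : σ × K) (q : K × K) => v q.1 = φ p.1 ∧ v q.2 = ψ p.1 ∧
      v p.2 = v (q.1 * q.2)) ?_
    refine DefPred.and ?_ (DefPred.and ?_ ?_)
    · exact DefPred.comp (P := fun r : σ × K => v r.2 = φ r.1) hφ
        (f := fun p : (σ × K) × (K × K) => (p.1.1, p.2.1))
        (DefMap.pair DefMap.fst_id.fst DefMap.snd_id.fst)
    · exact DefPred.comp (P := fun r : σ × K => v r.2 = ψ r.1) hψ
        (f := fun p : (σ × K) × (K × K) => (p.1.1, p.2.2))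
        (DefMap.pair DefMap.fst_id.fst DefMap.snd_id.snd)
    · exact DefPred.val_eq' DefMap.fst_id.snd
        (DefMap.snd_id.fst.mul DefMap.snd_id.snd)
  refine h.congr fun s => ?_
  constructor
  · intro h
    obtain ⟨a, ha⟩ := VF.surj (v := v) (φ s.1)
    obtain ⟨b, hb⟩ := VF.surj (v := v) (ψ s.1)
    exact ⟨(a, b), ha, hb, by rw [h, map_mul, ha, hb]⟩
  · rintro ⟨⟨a, b⟩, h1, h2, h3⟩
    dsimp only at h1 h2 h3
    rw [h3, map_mul, h1, h2]

lemma DefPred.le {φ ψ : σ → Γ} (hφ : DefVal D A φ) (hψ : DefVal D A ψ) :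
    DefPred D A (fun s => φ s ≤ ψ s) := by
  have h : DefPred D A (fun s : σ => ∃ q : K × K, v q.1 = φ s ∧ v q.2 = ψ s ∧
      v q.1 ≤ v q.2) := by
    refine DefPred.ex (P := fun (s : σ) (q : K × K) => v q.1 = φ s ∧ v q.2 = ψ s ∧
      v q.1 ≤ v q.2) ?_
    refine DefPred.and ?_ (DefPred.and ?_ ?_)
    · exact DefPred.comp (P := fun r : σ × K => v r.2 = φ r.1) hφ
        (f := fun p : σ × (K × K) => (p.1, p.2.1))
        (DefMap.pair DefMap.fst_id DefMap.snd_id.fst)
    · exact DefPred.comp (P := fun r : σ × K => v r.2 = ψ r.1) hψ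
        (f := fun p : σ × (K × K) => (p.1, p.2.2))
        (DefMap.pair DefMap.fst_id DefMap.snd_id.snd)
    · exact DefPred.val_le' DefMap.snd_id.fst DefMap.snd_id.snd
  refine h.congr fun s => ?_
  constructor
  · intro h
    obtain ⟨a, ha⟩ := VF.surj (v := v) (φ s)
    obtain ⟨b, hb⟩ := VF.surj (v := v) (ψ s)
    exact ⟨(a, b), ha, hb, by dsimp only; rw [ha, hb]; exact h⟩
  · rintro ⟨⟨a, b⟩, h1, h2, h3⟩
    dsimp only at h1 h2 h3
    rwa [h1, h2] at h3

lemma DefPred.lt {φ ψ : σ → Γ} (hφ : DefVal D A φ) (hψ : DefVal D A ψ) :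
    DefPred D A (fun s => φ s < ψ s) :=
  (DefPred.le hψ hφ).not.congr fun _ => not_le.symm

lemma DefPred.veq {φ ψ : σ → Γ} (hφ : DefVal D A φ) (hψ : DefVal D A ψ) :
    DefPred D A (fun s => φ s = ψ s) :=
  ((DefPred.le hφ hψ).and (DefPred.le hψ hφ)).congr fun _ => le_antisymm_iff

omit [VF v] in
lemma DefVal.comp {φ : τ → Γ} (hφ : DefVal D A φ) {f : σ → τ} (hf : DefMap D A f) :
    DefVal D A (fun s => φ (f s)) :=
  DefPred.comp (P := fun r : τ × K => v r.2 = φ r.1) hφ
    (f := fun p : σ × K => (f p.1, p.2)) ((hf.comp DefMap.fst_id).pair DefMap.snd_id)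

omit [VF v] in
lemma DefPred.ne {f g : σ → τ} (hf : DefMap D A f) (hg : DefMap D A g) :
    DefPred D A (fun s => f s ≠ g s) := (DefPred.eq hf hg).not

lemma DefPred.vne {φ ψ : σ → Γ} (hφ : DefVal D A φ) (hψ : DefVal D A ψ) :
    DefPred D A (fun s => φ s ≠ ψ s) := (DefPred.veq hφ hψ).not

omit [VF v] in
lemma DefMap.update {α : Type} [Finite α] [DecidableEq α] {f : σ → α → K} {g : σ → K} (j : α)
    (hf : DefMap D A f) (hg : DefMap D A g) :
    DefMap D A (fun s => Function.update (f s) j (g s)) := by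
  refine DefMap.pi fun i => ?_
  by_cases hij : i = j
  · subst hij; simpa using hg
  · simpa [Function.update_of_ne hij] using (DefMap.apply i).comp hf

end Val

section Test

variable {σ τ ρ : Type u} [DSort K σ] [DSort K τ] [DSort K ρ] {A B : Set K} {D} [VF v] [RVStr D]

example (f : K → K) (hf : DefMap D A f) (e : K) (he : DefPt D A e) (γ : Γ) :
    DefPred D A (fun x : K => ∃ y : K, v (f x - f y) ≤ γ * v (x - e) ∧ ¬ y = x) := by
  repeat' (beta_reduce; with_reducible (first
        | assumption | exact DefMap.id | exact DefPred.const _ | exact DefVal.const _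
        | refine DefPred.and ?_ ?_ | refine DefPred.or ?_ ?_ | refine DefPred.ne ?_ ?_
        | refine DefPred.vne ?_ ?_ | refine DefPred.not ?_ | refine DefPred.imp ?_ ?_
        | refine DefPred.iff ?_ ?_ | refine DefPred.ex ?_ | refine DefPred.all ?_
        | refine DefPred.le ?_ ?_ | refine DefPred.lt ?_ ?_ | refine DefPred.eq ?_ ?_
        | refine DefPred.veq ?_ ?_ | refine DefVal.val ?_ | refine DefVal.mul ?_ ?_
        | exact DefMap.const (by assumption) | exact DefMap.const DefPt.zero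
        | exact DefMap.const DefPt.one | exact DefMap.const (DefPt.of_mem (by assumption))
        | refine DefMap.add ?_ ?_ | refine DefMap.sub ?_ ?_ | refine DefMap.mul ?_ ?_
        | refine DefMap.neg ?_ | refine DefMap.fst ?_ | refine DefMap.snd ?_
        | refine DefMap.pair ?_ ?_ | refine DefMap.update _ ?_ ?_
        | refine DefPred.comp (by assumption) ?_ | refine DefVal.comp (by assumption) ?_
        | refine DefMap.comp (by assumption) ?_ | refine DefMap.comp (DefMap.apply _) ?_))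

example (f : K × K → K) (hf : DefMap D A f) (Z : K × (Fin 3 → K) → Prop) (hZ : DefPred D A Z)
    (γ : Γ) :
    DefPred D A (fun p : K × (Fin 3 → K) => ∀ y : K, ∀ z : K,
      v (f (p.1, y) - f (y, p.1)) ≤ γ * v (p.2 0 - z) ∧ y ≠ z →
        Z (y, Function.update p.2 1 (y + z))) := by
  repeat' (beta_reduce; with_reducible (first
        | assumption | exact DefMap.id | exact DefPred.const _ | exact DefVal.const _
        | refine DefPred.and ?_ ?_ | refine DefPred.or ?_ ?_ | refine DefPred.ne ?_ ?_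
        | refine DefPred.vne ?_ ?_ | refine DefPred.not ?_ | refine DefPred.imp ?_ ?_
        | refine DefPred.iff ?_ ?_ | refine DefPred.ex ?_ | refine DefPred.all ?_
        | refine DefPred.le ?_ ?_ | refine DefPred.lt ?_ ?_ | refine DefPred.eq ?_ ?_
        | refine DefPred.veq ?_ ?_ | refine DefVal.val ?_ | refine DefVal.mul ?_ ?_
        | exact DefMap.const (by assumption) | exact DefMap.const DefPt.zero
        | exact DefMap.const DefPt.one | exact DefMap.const (DefPt.of_mem (by assumption))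
        | refine DefMap.add ?_ ?_ | refine DefMap.sub ?_ ?_ | refine DefMap.mul ?_ ?_
        | refine DefMap.neg ?_ | refine DefMap.fst ?_ | refine DefMap.snd ?_
        | refine DefMap.pair ?_ ?_ | refine DefMap.update _ ?_ ?_
        | refine DefPred.comp (by assumption) ?_ | refine DefVal.comp (by assumption) ?_
        | refine DefMap.comp (by assumption) ?_ | refine DefMap.comp (DefMap.apply _) ?_))

end Test

end Pool.Agent.Helper28.HM
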