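import Pool.Agent.Helper28.HM.Defs
import Pool.Agent.Helper28.HM.Expand

/-!
# From first-order structures to abstract definable structures
-/

set_option autoImplicit false
set_option linter.unusedTactic false
set_option linter.unreachableTactic false

universe u v w

namespace Pool.Agent.Helper28.HM

open FirstOrder FirstOrder.Language FirstOrder.Language.Structure Set

variable {L : FirstOrder.Language.{v, w}} {V : ValLang L} {K : Type u} [Field K] [L.Structure K]
  {O : ValuationSubring K}

lemma sameRV_iff {lam : O.ValueGroup} (h0 : lam ≠ 0) (h1 : lam ≤ 1) (x y : K) :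
    SameRV O lam x y ↔ RVE O.valuation lam x y := by
  constructor
  · rintro (⟨rfl, rfl⟩ | ⟨hx, hy, h⟩)
    · exact Or.inl rfl
    · right
      have hy' : 0 < O.valuation y := zero_lt_iff.2 ((Valuation.ne_zero_iff _).2 hy)
      have e1 : x - y = (x / y - 1) * y := by field_simp
      rw [e1, map_mul]
      exact mul_lt_mul_of_pos_right h hy'
  · intro h
    have hxy := h.val_eq h1
    rcases h with rfl | h
    · by_cases hx : x = 0
      · exact Or.inl ⟨hx, hx⟩
      · right
        refine ⟨hx, hx, ?_⟩
        rw [div_self hx, sub_self, map_zero, zero_lt_iff]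
        exact h0
    · right
      have hy : y ≠ 0 := by
        rintro rfl
        simp at h
      have hy' : 0 < O.valuation y := zero_lt_iff.2 ((Valuation.ne_zero_iff _).2 hy)
      have hx : x ≠ 0 := by
        rintro rfl
        rw [map_zero] at hxy
        exact hy'.ne hxy
      refine ⟨hx, hy, ?_⟩
      have e1 : x / y - 1 = (x - y) / y := by field_simp
      rw [e1, map_div₀, div_lt_iff₀ hy']
      exact h

/-- The abstract definable structure of `∅`-definable sets. -/
def LStr (hV : IsValuedModel V K O) : DefStr O.valuation where
  Dfn P := (∅ : Set K).Definable L {s | P s}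
  and' h1 h2 := h1.inter h2
  not' h := h.compl
  ex' h := h.exists_of_finite
  comap' f h := h.preimage_comp f
  eq' := by
    rw [empty_definable_iff]
    exact ⟨(Term.var 0).equal (Term.var 1), by ext; simp⟩
  add' := by
    rw [empty_definable_iff]
    refine ⟨(V.add.apply₂ (Term.var 0) (Term.var 1)).equal (Term.var 2), ?_⟩
    ext s
    simp [Term.realize_functions_apply₂, hV.add]
  mul' := by
    rw [empty_definable_iff]
    refine ⟨(V.mul.apply₂ (Term.var 0) (Term.var 1)).equal (Term.var 2), ?_⟩
    ext s
    simp [Term.realize_functions_apply₂, hV.mul]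
  int' := by
    rw [empty_definable_iff]
    refine ⟨V.int.formula₁ (Term.var 0), ?_⟩
    ext s
    simp [Formula.realize_rel₁, hV.int, ValuationSubring.valuation_le_one_iff]

end Pool.Agent.Helper28.HM
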