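import Pool.Agent.Helper28.HM.Frame

/-!
# One-variable theory
-/

set_option autoImplicit false
set_option linter.unusedTactic false
set_option linter.unreachableTactic false

universe u w

namespace Pool.Agent.Helper28.HM

open Set

variable {K : Type u} [Field K] {Γ : Type w} [LinearOrderedCommGroupWithZero Γ]
  {v : Valuation K Γ}

/-- `X` is `lam`-prepared by `C`. -/
def Prepares (v : Valuation K Γ) (lam : Γ) (C X : Set K) : Prop :=
  ∀ x x', (∀ c ∈ C, RVE v lam (x - c) (x' - c)) → (x ∈ X ↔ x' ∈ X)

/-- The uniform form of `1`-h-minimality. -/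
class UG (D : DefStr v) : Prop extends RVStr D where
  ug : ∀ {α : Type} [Finite α] (Z : (α → K) × K × K → Prop), DefPred D ∅ Z →
    ∃ (N : ℕ) (C : (α → K) × K → Prop), DefPred D ∅ C ∧
      (∀ s, {x | C (s, x)}.Nonempty ∧ {x | C (s, x)}.Finite ∧ {x | C (s, x)}.ncard ≤ N) ∧
      ∀ s (lam : Γ), lam ≠ 0 → lam ≤ 1 → ∀ c,
        Prepares v lam {x | C (s, x)} {x | ∃ c', RVE v lam c' c ∧ Z (s, x, c')}

variable {D : DefStr v} {A B : Set K}

lemma Prepares.mono {lam : Γ} {C C' X : Set K} (h : Prepares v lam C X) (hC : C ⊆ C') :
    Prepares v lam C' X :=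
  fun x x' hx => h x x' fun c hc => hx c (hC hc)

section General

variable {σ : Type u} [DSort K σ] [UG D]

lemma ug_gen (Z : σ × K × K → Prop) (hZ : DefPred D A Z) :
    ∃ (N : ℕ) (C : σ × K → Prop), DefPred D A C ∧
      (∀ s, {x | C (s, x)}.Nonempty ∧ {x | C (s, x)}.Finite ∧ {x | C (s, x)}.ncard ≤ N) ∧
      ∀ s (lam : Γ), lam ≠ 0 → lam ≤ 1 → ∀ c,
        Prepares v lam {x | C (s, x)} {x | ∃ c', RVE v lam c' c ∧ Z (s, x, c')} := by
  obtain ⟨β, hβ, a, ha, Q, hQ, h⟩ := hZ
  let g : ((DSort.ι K σ ⊕ β → K) × K × K) → (DSort.ι K (σ × K × K) ⊕ β) → K :=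
    fun p => Sum.elim (DSort.e (K := K) ((DSort.e.symm (p.1 ∘ Sum.inl) : σ), p.2.1, p.2.2))
      (p.1 ∘ Sum.inr)
  let Z' : ((DSort.ι K σ ⊕ β → K) × K × K) → Prop := fun p => Q (g p)
  have hZ' : DefPred D ∅ Z' := by
    refine ⟨Empty, inferInstance, Empty.elim, fun i => i.elim,
      fun s => Q (s ∘ Sum.elim (Sum.elim (fun i => Sum.inl (Sum.inl (Sum.inl i)))
        (fun i => Sum.inl (Sum.inr i))) (fun i => Sum.inl (Sum.inl (Sum.inr i)))), 
        D.comap' _ hQ, fun s => ?_⟩
    simp only [Z', g]
    apply iff_of_eq
    congr 1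
    ext ((i | i) | i)
    · simp; rfl
    · rfl
    · rfl
  obtain ⟨N, C, hC, h1, h2⟩ := UG.ug Z' hZ'
  let r : σ → (DSort.ι K σ ⊕ β → K) := fun s => Sum.elim (DSort.e (K := K) s) a
  refine ⟨N, fun p => C (r p.1, p.2), ?_, fun s => h1 (r s), fun s lam hl0 hl1 c => ?_⟩
  · refine DefPred.comp (f := fun p : σ × K => (r p.1, p.2)) (hC.mono (empty_subset _)) ?_
    refine DefMap.pair ?_ DefMap.snd_id
    refine DefMap.pi fun i => ?_
    rcases i with i | i
    · exact DefMap.coord _ (fun _ => Sum.inl i) fun _ _ => rfl
    · exact DefMap.const (DefPt.of_mem (ha i))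
  · have := h2 (r s) lam hl0 hl1 c
    convert this using 5 with x c'
    rw [h]
    simp only [Z', g, r]
    congr! 2
    simp [Function.comp_def]

end General

/-- The lower set of distances from `x` to the definable points. -/
def LL (D : DefStr v) (A : Set K) (x : K) : Set Γ := {γ | ∀ e, DefPt D A e → γ < v (x - e)}

lemma DefPt.mono {a : K} (h : DefPt D A a) (hAB : A ⊆ B) : DefPt D B a := DefPred.mono h hAB

lemma LL.anti (hAB : A ⊆ B) (x : K) : LL D B x ⊆ LL D A x :=
  fun _ hγ e he => hγ e (he.mono hAB)

lemma LL.lower {x : K} {γ δ : Γ} (h : γ ∈ LL D A x) (hd : δ ≤ γ) : δ ∈ LL D A x :=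
  fun e he => lt_of_le_of_lt hd (h e he)

section Sum

variable {σ : Type u} [DSort K σ]

lemma DefMap.sum {ι : Type*} (S : Finset ι) {f : ι → σ → K} (h : ∀ i, DefMap D A (f i)) :
    DefMap D A (fun s => ∑ i ∈ S, f i s) := by
  classical
  induction S using Finset.induction_on with
  | empty => simpa using DefMap.const DefPt.zero
  | insert i S hi ih => simpa [Finset.sum_insert hi] using (h i).add ih

lemma DefPt.natCast (n : ℕ) : DefPt D A (n : K) := by
  induction n with
  | zero => simpa using DefPt.zero (D := D) (A := A)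
  | succ n ih =>
    have := DefPt.map (A := A) ih (f := fun x => x + 1) (by repeat' (beta_reduce; with_reducible (first
          | assumption | exact DefMap.id | exact DefPred.const _ | exact DefVal.const _
          | refine DefPred.and ?_ ?_ | refine DefPred.or ?_ ?_ | refine DefPred.ne ?_ ?_
          | refine DefPred.vne ?_ ?_ | refine DefPred.not ?_ | refine DefPred.imp ?_ ?_
          | refine DefPred.iff ?_ ?_ | refine DefPred.ex ?_ | refine DefPred.all ?_
          | refine DefPred.le ?_ ?_ | refine DefPred.lt ?_ ?_ | refine DefPred.eq ?_ ?_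
          | refine DefPred.veq ?_ ?_ | refine DefVal.val ?_ | refine DefVal.mul ?_ ?_
          | exact DefMap.const (by assumption) | exact DefMap.const DefPt.zero
          | exact DefMap.const DefPt.one | exact DefMap.const (DefPt.of_mem (by assumption))
          | refine DefMap.add ?_ ?_ | refine DefMap.sub ?_ ?_ | refine DefMap.mul ?_ ?_
          | refine DefMap.neg ?_ | refine DefMap.fst ?_ | refine DefMap.snd ?_
          | refine DefMap.pair ?_ ?_ | refine DefMap.update _ ?_ ?_
          | refine DefPred.comp (by assumption) ?_ | refine DefVal.comp (by assumption) ?_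
          | refine DefMap.comp (by assumption) ?_ | refine DefMap.comp (DefMap.apply _) ?_)))
    simpa using this

end Sum

section Coding

variable [VF v] [RVStr D]

lemma avg_lt {S : Finset K} (c₀ a : K) (hS : S.Nonempty)
    (ha : (S.card : K) * a = ∑ c ∈ S, c) (h : ∀ c ∈ S, RVE v 1 (c - a) (c₀ - a)) (hc : c₀ ∈ S) :
    S = {c₀} := by
  by_cases h0 : c₀ = a
  · subst h0
    refine Finset.eq_singleton_iff_unique_mem.2 ⟨hc, fun c hcS => ?_⟩
    rcases h c hcS with h | h
    · simpa [sub_eq_zero] using h
    · simp at h
  · exfalso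
    have hpos : v (c₀ - a) ≠ 0 := by
      rw [Valuation.ne_zero_iff]; exact sub_ne_zero.2 h0
    have h1 : v (∑ c ∈ S, ((c - a) - (c₀ - a))) < v (c₀ - a) := by
      refine Valuation.map_sum_lt v hpos fun c hcS => ?_
      rcases h c hcS with h | h
      · rw [h, sub_self, map_zero]; exact zero_lt_iff.2 hpos
      · simpa using h
    have h2 : ∑ c ∈ S, ((c - a) - (c₀ - a)) = - ((S.card : K) * (c₀ - a)) := by
      have : ∀ c ∈ S, ((c - a) - (c₀ - a)) = c - c₀ := fun c _ => by ring
      rw [Finset.sum_congr rfl this, Finset.sum_sub_distrib, ← ha]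
      simp
      ring
    rw [h2, Valuation.map_neg, map_mul, VF.char (v := v) _ (Finset.card_ne_zero.2 hS), one_mul]
      at h1
    exact lt_irrefl _ h1

lemma coding {X : K → Prop} (hX : DefPred D A X) (hfin : {x | X x}.Finite) :
    ∀ x, X x → DefPt D A x := by
  classical
  suffices H : ∀ n : ℕ, ∀ X : K → Prop, DefPred D A X → ∀ S : Finset K, (∀ x, x ∈ S ↔ X x) →
      S.card = n → ∀ x, X x → DefPt D A x from
    H _ X hX hfin.toFinset (fun x => by simp) rfl
  intro n
  induction n using Nat.strong_induction_on with
  | _ n ih =>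
    intro X hX S hS hn x hx
    have hne : S.Nonempty := ⟨x, (hS x).2 hx⟩
    have hcard : (S.card : K) ≠ 0 := by
      intro h0
      have := VF.char (v := v) _ (Finset.card_ne_zero.2 hne)
      rw [h0, map_zero] at this
      exact zero_ne_one this
    set a : K := (∑ c ∈ S, c) / S.card with ha
    have ha' : (S.card : K) * a = ∑ c ∈ S, c := by rw [ha]; field_simp
    have hadef : DefPt D A a := by
      have hm : DefPt D A ((S.card : ℕ) : K) := DefPt.natCast _
      have h1 : DefPred D A (fun y : K => ∃ w : Fin S.card → K,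
          ((∀ i, X (w i)) ∧ (∀ p : Fin S.card × Fin S.card, p.1 ≠ p.2 → w p.1 ≠ w p.2)) ∧
            ((S.card : ℕ) : K) * y = ∑ i, w i) := by
        refine DefPred.ex (DefPred.and (DefPred.and ?_ ?_) ?_)
        · exact DefPred.forall_fin fun i => by repeat' (beta_reduce; with_reducible (first
              | assumption | exact DefMap.id | exact DefPred.const _ | exact DefVal.const _
              | refine DefPred.and ?_ ?_ | refine DefPred.or ?_ ?_ | refine DefPred.ne ?_ ?_
              | refine DefPred.vne ?_ ?_ | refine DefPred.not ?_ | refine DefPred.imp ?_ ?_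
              | refine DefPred.iff ?_ ?_ | refine DefPred.ex ?_ | refine DefPred.all ?_
              | refine DefPred.le ?_ ?_ | refine DefPred.lt ?_ ?_ | refine DefPred.eq ?_ ?_
              | refine DefPred.veq ?_ ?_ | refine DefVal.val ?_ | refine DefVal.mul ?_ ?_
              | exact DefMap.const (by assumption) | exact DefMap.const DefPt.zero
              | exact DefMap.const DefPt.one | exact DefMap.const (DefPt.of_mem (by assumption))
              | refine DefMap.add ?_ ?_ | refine DefMap.sub ?_ ?_ | refine DefMap.mul ?_ ?_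
              | refine DefMap.neg ?_ | refine DefMap.fst ?_ | refine DefMap.snd ?_
              | refine DefMap.pair ?_ ?_ | refine DefMap.update _ ?_ ?_
              | refine DefPred.comp (by assumption) ?_ | refine DefVal.comp (by assumption) ?_
              | refine DefMap.comp (by assumption) ?_ | refine DefMap.comp (DefMap.apply _) ?_))
        · exact DefPred.forall_fin fun i => by repeat' (beta_reduce; with_reducible (first
              | assumption | exact DefMap.id | exact DefPred.const _ | exact DefVal.const _
              | refine DefPred.and ?_ ?_ | refine DefPred.or ?_ ?_ | refine DefPred.ne ?_ ?_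
              | refine DefPred.vne ?_ ?_ | refine DefPred.not ?_ | refine DefPred.imp ?_ ?_
              | refine DefPred.iff ?_ ?_ | refine DefPred.ex ?_ | refine DefPred.all ?_
              | refine DefPred.le ?_ ?_ | refine DefPred.lt ?_ ?_ | refine DefPred.eq ?_ ?_
              | refine DefPred.veq ?_ ?_ | refine DefVal.val ?_ | refine DefVal.mul ?_ ?_
              | exact DefMap.const (by assumption) | exact DefMap.const DefPt.zero
              | exact DefMap.const DefPt.one | exact DefMap.const (DefPt.of_mem (by assumption))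
              | refine DefMap.add ?_ ?_ | refine DefMap.sub ?_ ?_ | refine DefMap.mul ?_ ?_
              | refine DefMap.neg ?_ | refine DefMap.fst ?_ | refine DefMap.snd ?_
              | refine DefMap.pair ?_ ?_ | refine DefMap.update _ ?_ ?_
              | refine DefPred.comp (by assumption) ?_ | refine DefVal.comp (by assumption) ?_
              | refine DefMap.comp (by assumption) ?_ | refine DefMap.comp (DefMap.apply _) ?_))
        · refine DefPred.eq ?_ ?_
          · exact (DefMap.const hm).mul (by repeat' (beta_reduce; with_reducible (first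
                | assumption | exact DefMap.id | exact DefPred.const _ | exact DefVal.const _
                | refine DefPred.and ?_ ?_ | refine DefPred.or ?_ ?_ | refine DefPred.ne ?_ ?_
                | refine DefPred.vne ?_ ?_ | refine DefPred.not ?_ | refine DefPred.imp ?_ ?_
                | refine DefPred.iff ?_ ?_ | refine DefPred.ex ?_ | refine DefPred.all ?_
                | refine DefPred.le ?_ ?_ | refine DefPred.lt ?_ ?_ | refine DefPred.eq ?_ ?_
                | refine DefPred.veq ?_ ?_ | refine DefVal.val ?_ | refine DefVal.mul ?_ ?_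
                | exact DefMap.const (by assumption) | exact DefMap.const DefPt.zero
                | exact DefMap.const DefPt.one
                | exact DefMap.const (DefPt.of_mem (by assumption)) | refine DefMap.add ?_ ?_
                | refine DefMap.sub ?_ ?_ | refine DefMap.mul ?_ ?_ | refine DefMap.neg ?_
                | refine DefMap.fst ?_ | refine DefMap.snd ?_ | refine DefMap.pair ?_ ?_
                | refine DefMap.update _ ?_ ?_ | refine DefPred.comp (by assumption) ?_
                | refine DefVal.comp (by assumption) ?_ | refine DefMap.comp (by assumption) ?_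
                | refine DefMap.comp (DefMap.apply _) ?_)))
          · exact DefMap.sum _ fun i => by repeat' (beta_reduce; with_reducible (first
                | assumption | exact DefMap.id | exact DefPred.const _ | exact DefVal.const _
                | refine DefPred.and ?_ ?_ | refine DefPred.or ?_ ?_ | refine DefPred.ne ?_ ?_
                | refine DefPred.vne ?_ ?_ | refine DefPred.not ?_ | refine DefPred.imp ?_ ?_
                | refine DefPred.iff ?_ ?_ | refine DefPred.ex ?_ | refine DefPred.all ?_
                | refine DefPred.le ?_ ?_ | refine DefPred.lt ?_ ?_ | refine DefPred.eq ?_ ?_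
                | refine DefPred.veq ?_ ?_ | refine DefVal.val ?_ | refine DefVal.mul ?_ ?_
                | exact DefMap.const (by assumption) | exact DefMap.const DefPt.zero
                | exact DefMap.const DefPt.one
                | exact DefMap.const (DefPt.of_mem (by assumption)) | refine DefMap.add ?_ ?_
                | refine DefMap.sub ?_ ?_ | refine DefMap.mul ?_ ?_ | refine DefMap.neg ?_
                | refine DefMap.fst ?_ | refine DefMap.snd ?_ | refine DefMap.pair ?_ ?_
                | refine DefMap.update _ ?_ ?_ | refine DefPred.comp (by assumption) ?_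
                | refine DefVal.comp (by assumption) ?_ | refine DefMap.comp (by assumption) ?_
                | refine DefMap.comp (DefMap.apply _) ?_))
      refine h1.congr fun y => ?_
      constructor
      · rintro rfl
        obtain ⟨e⟩ : Nonempty (Fin S.card ≃ S) := ⟨(Fintype.equivFinOfCardEq (by simp)).symm⟩
        refine ⟨fun i => (e i : K), ⟨fun i => (hS _).1 (e i).2, ?_⟩, ?_⟩
        · intro p hp h
          exact hp (e.injective (Subtype.ext h))
        · rw [ha', ← Finset.sum_coe_sort S]
          exact (Equiv.sum_comp e (fun c => (c : K))).symm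
      · rintro ⟨w, ⟨hw1, hw2⟩, hw3⟩
        have hinj : Function.Injective w := by
          intro i j hij
          by_contra hne'
          exact hw2 (i, j) hne' hij
        have himg : Finset.univ.image w = S := by
          apply Finset.eq_of_subset_of_card_le
          · intro c hc
            obtain ⟨i, _, rfl⟩ := Finset.mem_image.1 hc
            exact (hS _).2 (hw1 i)
          · rw [Finset.card_image_of_injective _ hinj]; simp
        have hsum : ∑ i, w i = ∑ c ∈ S, c := by
          have h5 := Finset.sum_image (f := fun c : K => c) (s := Finset.univ) (g := w)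
            fun i _ j _ h => hinj h
          rw [himg] at h5
          exact h5.symm
        rw [hsum, ← ha'] at hw3
        exact mul_left_cancel₀ hcard hw3
    -- now cut by the `rv`-class of `x - a`
    set X' : K → Prop := fun y => X y ∧ RVE v 1 (y - a) (x - a) with hX'
    have hX'def : DefPred D A X' := hX.and (DefPred.rv (DefMap.id.sub (DefMap.const hadef)) _)
    set S' : Finset K := S.filter (fun y => RVE v 1 (y - a) (x - a)) with hS'
    have hS'mem : ∀ y, y ∈ S' ↔ X' y := fun y => by simp [S', X', hS]
    by_cases hSS : S' = S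
    · have : S = {x} := by
        refine avg_lt (v := v) x a hne ha' (fun c hc => ?_) ((hS x).2 hx)
        rw [← hSS] at hc
        exact (Finset.mem_filter.1 hc).2
      refine hX.congr fun y => ?_
      rw [← hS, this, Finset.mem_singleton]
    · have hlt : S'.card < S.card :=
        Finset.card_lt_card (lt_of_le_of_ne (Finset.filter_subset _ _) hSS)
      exact ih S'.card (hn ▸ hlt) X' hX'def S' hS'mem rfl x ⟨hx, Or.inl rfl⟩

end Coding

section Params

variable {σ : Type u} [DSort K σ]

lemma param_range {α : Type} [Finite α] {w : α → K} {P : σ → Prop}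
    (h : DefPred D (A ∪ range w) P) :
    ∃ Q : σ × (α → K) → Prop, DefPred D A Q ∧ ∀ s, P s ↔ Q (s, w) := by
  classical
  obtain ⟨β, hβ, a, ha, Q, hQ, h⟩ := h
  have ha' : ∀ i, a i ∉ A → ∃ j, w j = a i := fun i hi => (ha i).resolve_left hi
  choose j hj using ha'
  let β₁ := {i : β // a i ∈ A}
  let φ : (DSort.ι K σ ⊕ β) → (DSort.ι K σ ⊕ α) ⊕ β₁ :=
    Sum.elim (fun i => Sum.inl (Sum.inl i))
      (fun i => if h : a i ∈ A then Sum.inr ⟨i, h⟩ else Sum.inl (Sum.inr (j i h)))
  refine ⟨fun p => Q (Sum.elim (DSort.e (K := K) p) (fun i : β₁ => a i.1) ∘ φ), ?_, ?_⟩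
  · exact ⟨β₁, inferInstance, fun i => a i.1, fun i => i.2, fun s => Q (s ∘ φ),
      D.comap' _ hQ, fun s => Iff.rfl⟩
  · intro s
    rw [h]
    apply iff_of_eq
    congr 1
    ext (i | i)
    · rfl
    · simp only [Function.comp_apply, φ, Sum.elim_inr]
      split_ifs with hi
      · rfl
      · exact (hj i hi).symm

lemma param_insert {x : K} {P : σ → Prop} (h : DefPred D (insert x A) P) :
    ∃ Q : σ × K → Prop, DefPred D A Q ∧ ∀ s, P s ↔ Q (s, x) := by
  have h' : DefPred D (A ∪ range (fun _ : Unit => x)) P := by
    refine h.mono ?_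
    rintro y (rfl | hy)
    · exact Or.inr ⟨(), rfl⟩
    · exact Or.inl hy
  obtain ⟨Q, hQ, h⟩ := param_range h'
  refine ⟨fun p => Q (p.1, fun _ => p.2), ?_, h⟩
  refine DefPred.comp (f := fun p : σ × K => (p.1, fun _ : Unit => p.2)) hQ ?_
  exact DefMap.fst_id.pair (DefMap.pi fun _ => DefMap.snd_id)

lemma param_point {x : K} {Q : σ × K → Prop} (hQ : DefPred D A Q) (hx : DefPt D A x) :
    DefPred D A (fun s => Q (s, x)) :=
  DefPred.comp (f := fun s : σ => (s, x)) hQ (DefMap.id.pair (DefMap.const hx))

/-- Uniquely determined values give a definable function. -/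
lemma exists_fun {G : σ × K → Prop} (hG : DefPred D A G) :
    ∃ f : σ → K, DefMap D A f ∧ ∀ s t, (∀ u, G (s, u) ↔ u = t) → f s = t := by
  classical
  let f : σ → K := fun s => if h : ∃ t, ∀ u, G (s, u) ↔ u = t then h.choose else 0
  have hf : ∀ s t, (∀ u, G (s, u) ↔ u = t) → f s = t := by
    intro s t h
    have hex : ∃ t, ∀ u, G (s, u) ↔ u = t := ⟨t, h⟩
    have h1 : f s = hex.choose := dif_pos hex
    rw [h1]
    exact (h _).1 ((hex.choose_spec _).2 rfl)
  refine ⟨f, ?_, hf⟩
  have h1 : DefPred D A (fun p : σ × K => (∀ u, G (p.1, u) ↔ u = p.2) ∨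
      ((¬ ∃ t, ∀ u, G (p.1, u) ↔ u = t) ∧ p.2 = 0)) := by
    repeat' (beta_reduce; with_reducible (first
          | assumption | exact DefMap.id | exact DefPred.const _ | exact DefVal.const _
          | refine DefPred.and ?_ ?_ | refine DefPred.or ?_ ?_ | refine DefPred.ne ?_ ?_
          | refine DefPred.vne ?_ ?_ | refine DefPred.not ?_ | refine DefPred.imp ?_ ?_
          | refine DefPred.iff ?_ ?_ | refine DefPred.ex ?_ | refine DefPred.all ?_
          | refine DefPred.le ?_ ?_ | refine DefPred.lt ?_ ?_ | refine DefPred.eq ?_ ?_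
          | refine DefPred.veq ?_ ?_ | refine DefVal.val ?_ | refine DefVal.mul ?_ ?_
          | exact DefMap.const (by assumption) | exact DefMap.const DefPt.zero
          | exact DefMap.const DefPt.one | exact DefMap.const (DefPt.of_mem (by assumption))
          | refine DefMap.add ?_ ?_ | refine DefMap.sub ?_ ?_ | refine DefMap.mul ?_ ?_
          | refine DefMap.neg ?_ | refine DefMap.fst ?_ | refine DefMap.snd ?_
          | refine DefMap.pair ?_ ?_ | refine DefMap.update _ ?_ ?_
          | refine DefPred.comp (by assumption) ?_ | refine DefVal.comp (by assumption) ?_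
          | refine DefMap.comp (by assumption) ?_ | refine DefMap.comp (DefMap.apply _) ?_))
  refine h1.congr fun p => ?_
  rcases p with ⟨s, t⟩
  dsimp only
  constructor
  · rintro rfl
    by_cases hex : ∃ t, ∀ u, G (s, u) ↔ u = t
    · obtain ⟨t, ht⟩ := hex
      left
      rw [hf s t ht]; exact ht
    · right
      exact ⟨hex, dif_neg hex⟩
  · rintro (h | ⟨h, h2⟩)
    · exact (hf s t h).symm
    · have : f s = 0 := dif_neg h
      rw [h2, this]

lemma param_fun_range {α : Type} [Finite α] {w : α → K} {g : σ → K}
    (h : DefMap D (A ∪ range w) g) :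
    ∃ f : σ × (α → K) → K, DefMap D A f ∧ ∀ s, f (s, w) = g s := by
  obtain ⟨Q, hQ, hQ'⟩ := param_range h
  have hG : DefPred D A (fun p : (σ × (α → K)) × K => Q ((p.1.1, p.2), p.1.2)) := by repeat' (beta_reduce; with_reducible (first
        | assumption | exact DefMap.id | exact DefPred.const _ | exact DefVal.const _
        | refine DefPred.and ?_ ?_ | refine DefPred.or ?_ ?_ | refine DefPred.ne ?_ ?_
        | refine DefPred.vne ?_ ?_ | refine DefPred.not ?_ | refine DefPred.imp ?_ ?_
        | refine DefPred.iff ?_ ?_ | refine DefPred.ex ?_ | refine DefPred.all ?_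
        | refine DefPred.le ?_ ?_ | refine DefPred.lt ?_ ?_ | refine DefPred.eq ?_ ?_
        | refine DefPred.veq ?_ ?_ | refine DefVal.val ?_ | refine DefVal.mul ?_ ?_
        | exact DefMap.const (by assumption) | exact DefMap.const DefPt.zero
        | exact DefMap.const DefPt.one | exact DefMap.const (DefPt.of_mem (by assumption))
        | refine DefMap.add ?_ ?_ | refine DefMap.sub ?_ ?_ | refine DefMap.mul ?_ ?_
        | refine DefMap.neg ?_ | refine DefMap.fst ?_ | refine DefMap.snd ?_
        | refine DefMap.pair ?_ ?_ | refine DefMap.update _ ?_ ?_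
        | refine DefPred.comp (by assumption) ?_ | refine DefVal.comp (by assumption) ?_
        | refine DefMap.comp (by assumption) ?_ | refine DefMap.comp (DefMap.apply _) ?_))
  obtain ⟨f, hf, hf'⟩ := exists_fun hG
  refine ⟨f, hf, fun s => hf' _ _ fun u => ?_⟩
  dsimp only
  rw [← hQ']

lemma param_fun {x : K} {g : σ → K} (h : DefMap D (insert x A) g) :
    ∃ f : σ × K → K, DefMap D A f ∧ ∀ s, f (s, x) = g s := by
  obtain ⟨Q, hQ, hQ'⟩ := param_insert h
  have hG : DefPred D A (fun p : (σ × K) × K => Q ((p.1.1, p.2), p.1.2)) := by repeat' (beta_reduce; with_reducible (first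
        | assumption | exact DefMap.id | exact DefPred.const _ | exact DefVal.const _
        | refine DefPred.and ?_ ?_ | refine DefPred.or ?_ ?_ | refine DefPred.ne ?_ ?_
        | refine DefPred.vne ?_ ?_ | refine DefPred.not ?_ | refine DefPred.imp ?_ ?_
        | refine DefPred.iff ?_ ?_ | refine DefPred.ex ?_ | refine DefPred.all ?_
        | refine DefPred.le ?_ ?_ | refine DefPred.lt ?_ ?_ | refine DefPred.eq ?_ ?_
        | refine DefPred.veq ?_ ?_ | refine DefVal.val ?_ | refine DefVal.mul ?_ ?_
        | exact DefMap.const (by assumption) | exact DefMap.const DefPt.zero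
        | exact DefMap.const DefPt.one | exact DefMap.const (DefPt.of_mem (by assumption))
        | refine DefMap.add ?_ ?_ | refine DefMap.sub ?_ ?_ | refine DefMap.mul ?_ ?_
        | refine DefMap.neg ?_ | refine DefMap.fst ?_ | refine DefMap.snd ?_
        | refine DefMap.pair ?_ ?_ | refine DefMap.update _ ?_ ?_
        | refine DefPred.comp (by assumption) ?_ | refine DefVal.comp (by assumption) ?_
        | refine DefMap.comp (by assumption) ?_ | refine DefMap.comp (DefMap.apply _) ?_))
  obtain ⟨f, hf, hf'⟩ := exists_fun hG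
  refine ⟨f, hf, fun s => hf' _ _ fun u => ?_⟩
  dsimp only
  rw [← hQ']

lemma param_fun_iff {x : K} {f : σ × K → K} (h : DefMap D A f) :
    DefMap D (insert x A) (fun s => f (s, x)) := by
  have hf := h.mono (subset_insert x A)
  have hx : x ∈ insert x A := mem_insert _ _
  repeat' (beta_reduce; with_reducible (first
        | assumption | exact DefMap.id | exact DefPred.const _ | exact DefVal.const _
        | refine DefPred.and ?_ ?_ | refine DefPred.or ?_ ?_ | refine DefPred.ne ?_ ?_
        | refine DefPred.vne ?_ ?_ | refine DefPred.not ?_ | refine DefPred.imp ?_ ?_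
        | refine DefPred.iff ?_ ?_ | refine DefPred.ex ?_ | refine DefPred.all ?_
        | refine DefPred.le ?_ ?_ | refine DefPred.lt ?_ ?_ | refine DefPred.eq ?_ ?_
        | refine DefPred.veq ?_ ?_ | refine DefVal.val ?_ | refine DefVal.mul ?_ ?_
        | exact DefMap.const (by assumption) | exact DefMap.const DefPt.zero
        | exact DefMap.const DefPt.one | exact DefMap.const (DefPt.of_mem (by assumption))
        | refine DefMap.add ?_ ?_ | refine DefMap.sub ?_ ?_ | refine DefMap.mul ?_ ?_
        | refine DefMap.neg ?_ | refine DefMap.fst ?_ | refine DefMap.snd ?_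
        | refine DefMap.pair ?_ ?_ | refine DefMap.update _ ?_ ?_
        | refine DefPred.comp (by assumption) ?_ | refine DefVal.comp (by assumption) ?_
        | refine DefMap.comp (by assumption) ?_ | refine DefMap.comp (DefMap.apply _) ?_))

lemma pt_insert {x z : K} (h : DefPt D (insert x A) z) :
    ∃ f : K → K, DefMap D A f ∧ f x = z := by
  obtain ⟨Q, hQ, hQ'⟩ := param_insert h
  have hG : DefPred D A (fun p : K × K => Q (p.2, p.1)) := by repeat' (beta_reduce; with_reducible (first
        | assumption | exact DefMap.id | exact DefPred.const _ | exact DefVal.const _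
        | refine DefPred.and ?_ ?_ | refine DefPred.or ?_ ?_ | refine DefPred.ne ?_ ?_
        | refine DefPred.vne ?_ ?_ | refine DefPred.not ?_ | refine DefPred.imp ?_ ?_
        | refine DefPred.iff ?_ ?_ | refine DefPred.ex ?_ | refine DefPred.all ?_
        | refine DefPred.le ?_ ?_ | refine DefPred.lt ?_ ?_ | refine DefPred.eq ?_ ?_
        | refine DefPred.veq ?_ ?_ | refine DefVal.val ?_ | refine DefVal.mul ?_ ?_
        | exact DefMap.const (by assumption) | exact DefMap.const DefPt.zero
        | exact DefMap.const DefPt.one | exact DefMap.const (DefPt.of_mem (by assumption))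
        | refine DefMap.add ?_ ?_ | refine DefMap.sub ?_ ?_ | refine DefMap.mul ?_ ?_
        | refine DefMap.neg ?_ | refine DefMap.fst ?_ | refine DefMap.snd ?_
        | refine DefMap.pair ?_ ?_ | refine DefMap.update _ ?_ ?_
        | refine DefPred.comp (by assumption) ?_ | refine DefVal.comp (by assumption) ?_
        | refine DefMap.comp (by assumption) ?_ | refine DefMap.comp (DefMap.apply _) ?_))
  obtain ⟨f, hf, hf'⟩ := exists_fun hG
  exact ⟨f, hf, hf' _ _ fun u => (hQ' u).symm⟩

lemma pt_insert_of {x : K} {f : K → K} (h : DefMap D A f) : DefPt D (insert x A) (f x) :=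
  (DefPt.of_mem (mem_insert x A)).map (h.mono (subset_insert x A))

lemma pt_range {α : Type} [Finite α] {w : α → K} {z : K} (h : DefPt D (A ∪ range w) z) :
    ∃ f : (α → K) → K, DefMap D A f ∧ f w = z := by
  obtain ⟨Q, hQ, hQ'⟩ := param_range h
  have hG : DefPred D A (fun p : (α → K) × K => Q (p.2, p.1)) := by repeat' (beta_reduce; with_reducible (first
        | assumption | exact DefMap.id | exact DefPred.const _ | exact DefVal.const _
        | refine DefPred.and ?_ ?_ | refine DefPred.or ?_ ?_ | refine DefPred.ne ?_ ?_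
        | refine DefPred.vne ?_ ?_ | refine DefPred.not ?_ | refine DefPred.imp ?_ ?_
        | refine DefPred.iff ?_ ?_ | refine DefPred.ex ?_ | refine DefPred.all ?_
        | refine DefPred.le ?_ ?_ | refine DefPred.lt ?_ ?_ | refine DefPred.eq ?_ ?_
        | refine DefPred.veq ?_ ?_ | refine DefVal.val ?_ | refine DefVal.mul ?_ ?_
        | exact DefMap.const (by assumption) | exact DefMap.const DefPt.zero
        | exact DefMap.const DefPt.one | exact DefMap.const (DefPt.of_mem (by assumption))
        | refine DefMap.add ?_ ?_ | refine DefMap.sub ?_ ?_ | refine DefMap.mul ?_ ?_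
        | refine DefMap.neg ?_ | refine DefMap.fst ?_ | refine DefMap.snd ?_
        | refine DefMap.pair ?_ ?_ | refine DefMap.update _ ?_ ?_
        | refine DefPred.comp (by assumption) ?_ | refine DefVal.comp (by assumption) ?_
        | refine DefMap.comp (by assumption) ?_ | refine DefMap.comp (DefMap.apply _) ?_))
  obtain ⟨f, hf, hf'⟩ := exists_fun hG
  exact ⟨f, hf, hf' _ _ fun u => (hQ' u).symm⟩

lemma pred_of_pts {x : K} {P : σ → Prop} (h : DefPred D (insert x A) P) (hx : DefPt D A x) :
    DefPred D A P := by
  obtain ⟨Q, hQ, hQ'⟩ := param_insert h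
  exact (param_point hQ hx).congr hQ'

end Params

section Prep

variable [VF v] [UG D]

/-- Preparation, uniformly in the level and in one parameter from `RV_lam`. -/
lemma prep_rv {Z : K × K → Prop} (hZ : DefPred D A Z) :
    ∃ C : Set K, C.Nonempty ∧ C.Finite ∧ (∀ c ∈ C, DefPt D A c) ∧
      ∀ lam : Γ, lam ≠ 0 → lam ≤ 1 → ∀ c,
        Prepares v lam C {x | ∃ c', RVE v lam c' c ∧ Z (x, c')} := by
  obtain ⟨N, C, hC, h1, h2⟩ := ug_gen (σ := PUnit.{u+1}) (fun p => Z p.2)
    (DefPred.comp hZ DefMap.snd_id)
  refine ⟨{x | C (PUnit.unit, x)}, (h1 _).1, (h1 _).2.1, fun c hc => ?_, h2 _⟩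
  refine coding (X := fun x => C (PUnit.unit, x)) ?_ (h1 _).2.1 c hc
  refine DefPred.reindex hC _ (Sum.elim (fun i => i.elim) (fun i => i)) ?_
  rintro s (i | i)
  · exact i.elim
  · rfl

lemma prep {X : K → Prop} (hX : DefPred D A X) :
    ∃ C : Set K, C.Nonempty ∧ C.Finite ∧ (∀ c ∈ C, DefPt D A c) ∧
      Prepares v 1 C {x | X x} := by
  obtain ⟨C, h1, h2, h3, h4⟩ := prep_rv (Z := fun p : K × K => X p.1)
    (DefPred.comp hX DefMap.fst_id)
  refine ⟨C, h1, h2, h3, ?_⟩
  have := h4 1 one_ne_zero le_rfl 0
  convert this using 3 with x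
  constructor
  · intro h; exact ⟨0, Or.inl rfl, h⟩
  · rintro ⟨_, _, h⟩; exact h

/-- Homogeneity at level `lam`. -/
lemma hom_lam {Z : K × K → Prop} (hZ : DefPred D A Z) {lam : Γ} (h0 : lam ≠ 0) (h1 : lam ≤ 1)
    {x y : K} (hxy : ∀ e, DefPt D A e → v (y - x) < lam * v (x - e)) (c : K) :
    (∃ c', RVE v lam c' c ∧ Z (x, c')) ↔ (∃ c', RVE v lam c' c ∧ Z (y, c')) := by
  obtain ⟨C, _, _, h4, h5⟩ := prep_rv hZ
  refine (h5 lam h0 h1 c y x fun c hc => Or.inr ?_).symm
  have := hxy c (h4 c hc)
  rwa [sub_sub_sub_cancel_right]

/-- Homogeneity. -/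
lemma hom {X : K → Prop} (hX : DefPred D A X) {x y : K} (hxy : v (y - x) ∈ LL D A x) :
    X x ↔ X y := by
  have := hom_lam (Z := fun p : K × K => X p.1) (DefPred.comp hX DefMap.fst_id)
    one_ne_zero le_rfl (x := x) (y := y) (fun e he => by rw [one_mul]; exact hxy e he) 0
  constructor
  · intro h
    obtain ⟨_, _, h⟩ := this.1 ⟨0, Or.inl rfl, h⟩
    exact h
  · intro h
    obtain ⟨_, _, h⟩ := this.2 ⟨0, Or.inl rfl, h⟩
    exact h

end Prep

end Pool.Agent.Helper28.HM
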