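import Pool.Agent.Helper28.HM.Rel

/-!
# The slope estimate
-/

set_option autoImplicit false
set_option linter.unusedTactic false
set_option linter.unreachableTactic false

universe u w

namespace Pool.Agent.Helper28.HM

open Set

variable {K : Type u} [Field K] {Γ : Type w} [LinearOrderedCommGroupWithZero Γ]
  {v : Valuation K Γ} {D : DefStr v} {A B : Set K}

section VF

variable [VF v] [UG D]

/-- A definable property transfers to a neighbourhood of controlled size. -/
lemma transfer {X : K → Prop} (hX : DefPred D A X) {t : K} (hXt : X t) :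
    ∃ δ : Γ, δ ∉ LL D A t ∧ ∀ u, v (u - t) < δ → X u := by
  obtain ⟨C, hC1, hC2, hC3, hC4⟩ := prep hX
  obtain ⟨c₀, hc₀, hmin⟩ := Set.exists_min_image C (fun c => v (t - c)) hC2 hC1
  refine ⟨v (t - c₀), val_sub_notMem_LL _ (hC3 _ hc₀), fun u hu => ?_⟩
  refine (hC4 u t fun c hc => Or.inr ?_).2 hXt
  rw [sub_sub_sub_cancel_right, one_mul]
  exact hu.trans_le (hmin c hc)

open Classical in
/-- The vector with coordinates `b i` for `i ∈ S` and `h i y` otherwise. -/
noncomputable def vec {ι : Type} (S : Finset ι) (h : ι → K → K) (b : ι → K) (y : K) : ι → K :=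
  fun i => if i ∈ S then b i else h i y

omit [VF v] [UG D] in
lemma defMap_vec {ι : Type} [Finite ι] {σ : Type u} [DSort K σ] (S : Finset ι) (h : ι → K → K)
    (b : ι → K) (hh : ∀ i, DefMap D A (h i)) (hb : ∀ i ∈ S, b i ∈ A) {f : σ → K}
    (hf : DefMap D A f) : DefMap D A (fun s => vec S h b (f s)) := by
  classical
  refine DefMap.pi fun i => ?_
  by_cases hi : i ∈ S
  · simp only [vec, if_pos hi]
    exact DefMap.const (DefPt.of_mem (hb i hi))
  · simp only [vec, if_neg hi]
    exact (hh i).comp hf

open Classical in
omit [Field K] in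
lemma vec_insert {ι : Type} (S : Finset ι) (h : ι → K → K) (b : ι → K) (y : K) (j : ι)
    (_hj : j ∉ S) : vec (insert j S) h b y = Function.update (vec S h b y) j (b j) := by
  funext i
  by_cases hij : i = j
  · subst hij; simp [vec]
  · simp [vec, Finset.mem_insert, hij]

open Classical in
omit [Field K] in
lemma vec_update {ι : Type} (S : Finset ι) (h : ι → K → K) (b : ι → K) (y : K) (j : ι)
    (hj : j ∉ S) (h' : K → K) : vec S (Function.update h j h') b y =
      Function.update (vec S h b y) j (h' y) := by
  funext i
  by_cases hij : i = j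
  · subst hij; simp [vec, hj]
  · simp [vec, Function.update_of_ne hij]

open Classical in
theorem qlemma {ι : Type} [Finite ι] {x : K} (b : ι → K) (J : Finset ι)
    {F : K × (ι → K) → K} (hF : DefMap D A F) {β : K → K} (hβ : DefMap D A β)
    (hβL : Lip D A x β) {γ₁ : Γ} (hγ₁ : γ₁ ∈ LL D A x) {κ : Γ} (hκ : 1 < κ)
    {ν : Set Γ} {ρ : Γ} (hρ : ρ ≠ 0)
    (s μ : ι → Γ) (hsμ : ∀ j ∈ J, s j * μ j ≤ 1)
    (G1 : ∀ S ⊆ J, ∀ j ∈ J, j ∉ S → LL D (insert x (A ∪ b '' S)) (b j) = ν)
    (G2 : ∀ j ∈ J, ∀ γ ∉ ν, ∃ h : K → K, DefMap D A h ∧ v (b j - h x) < γ ∧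
      ∀ y, v (y - x) ∈ LL D A x → v (h y - h x) ≤ μ j * v (y - x))
    (G3 : ∀ S ⊆ J, ρ ∈ LL D (A ∪ b '' S) x) :
    ∀ S ⊆ J, ∀ h : ι → K → K, (∀ i, DefMap D A (h i)) →
      v (F (x, vec S h b x) - β x) ≤ γ₁ →
      (∀ j ∈ S, ∃ d : K, d ≠ 0 ∧ ∀ u u', v (u - b j) < v d → v (u' - b j) < v d →
        v (F (x, Function.update (vec S h b x) j u) - F (x, Function.update (vec S h b x) j u'))
          ≤ s j * v (u - u')) →
      (∃ d : K, d ≠ 0 ∧ ∀ y, v (y - x) < v d →
        v (F (y, vec S h b y) - F (x, vec S h b x)) = κ * v (y - x)) → False := by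
  intro S
  induction S using Finset.induction_on with
  | empty =>
    intro _ h hh H1 _ H3
    have hρ0 : ρ ∈ LL D A x := by simpa using G3 ∅ (Finset.empty_subset _)
    obtain ⟨d, hd, H3⟩ := H3
    let c : K → K := fun y => F (y, vec ∅ h b y)
    have hc : DefMap D A c := by
      have hv : DefMap D A (fun y : K => vec ∅ h b y) :=
        defMap_vec ∅ h b hh (by simp) DefMap.id
      exact hF.comp (DefMap.id.pair hv)
    have hcL : Lip D A x c := hβL.of_close hβ hc (LL.lower hγ₁ H1)
    obtain ⟨r, hr, hr1, hr2⟩ := exists_small_two (v := v) ((Valuation.ne_zero_iff v).2 hd) hρ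
    have h1 := H3 (x + r) (by simpa using hr1)
    have hx0 : v (x - x) ∈ LL D A x := by
      rw [sub_self, map_zero]; exact LL.lower hγ₁ zero_le
    have h2 := hcL (x + r) x (by
      rw [add_sub_cancel_left]; exact LL.lower hρ0 hr2.le) hx0
    rw [h1, add_sub_cancel_left] at h2
    have hvr : 0 < v r := zero_lt_iff.2 ((Valuation.ne_zero_iff v).2 hr)
    have h3 : 1 * v r < κ * v r := mul_lt_mul_of_pos_right hκ hvr
    rw [one_mul] at h3
    exact absurd h2 (not_le.2 h3)
  | insert j S hj ih =>
    intro hSJ h hh H1 H2 H3
    have hjJ : j ∈ J := hSJ (Finset.mem_insert_self _ _)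
    have hSJ' : S ⊆ J := (Finset.subset_insert _ _).trans hSJ
    set A₁ : Set K := A ∪ b '' S with hA₁
    set A₂ : Set K := insert x A₁ with hA₂
    have hAA₁ : A ⊆ A₁ := subset_union_left
    have hA₁A₂ : A₁ ⊆ A₂ := subset_insert _ _
    have hbS : ∀ i ∈ S, b i ∈ A₁ := fun i hi => Or.inr ⟨i, hi, rfl⟩
    have hν : LL D A₂ (b j) = ν := G1 S hSJ' j hjJ hj
    let V : K → ι → K := vec S h b
    have hV : DefMap D A₁ V := defMap_vec S h b (fun i => (hh i).mono hAA₁) hbS DefMap.id
    have hV₂ : DefMap D A₂ V := hV.mono hA₁A₂
    have hF₁ : DefMap D A₁ F := hF.mono hAA₁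
    have hF₂ : DefMap D A₂ F := hF₁.mono hA₁A₂
    have hβ₂ : DefMap D A₂ β := hβ.mono (hAA₁.trans hA₁A₂)
    have hxA₂ : x ∈ A₂ := mem_insert _ _
    have hVi : ∀ y, vec (insert j S) h b y = Function.update (V y) j (b j) :=
      fun y => vec_insert S h b y j hj
    simp only [hVi] at H1 H2 H3
    -- data at `j`
    obtain ⟨dj, hdj, H2j⟩ := H2 j (Finset.mem_insert_self _ _)
    simp only [Function.update_idem] at H2j
    obtain ⟨d3, hd3, H3⟩ := H3
    -- the property to be transferred
    let Ψ : K → Prop := fun t =>
      v (F (x, Function.update (V x) j t) - β x) ≤ γ₁ ∧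
      (∀ i, i ∈ S → ∃ d : K, d ≠ 0 ∧ ∀ u u', v (u - b i) < v d → v (u' - b i) < v d →
        v (F (x, Function.update (Function.update (V x) j t) i u) -
          F (x, Function.update (Function.update (V x) j t) i u')) ≤ s i * v (u - u')) ∧
      (∃ d : K, d ≠ 0 ∧ ∀ y, v (y - x) < v d →
        v (F (y, Function.update (V y) j t) - F (x, Function.update (V x) j t)) =
          κ * v (y - x)) ∧
      (∀ u u', v (u - t) < v dj → v (u' - t) < v dj →
        v (F (x, Function.update (V x) j u) - F (x, Function.update (V x) j u'))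
          ≤ s j * v (u - u'))
    have hΨ : DefPred D A₂ Ψ := by
      refine DefPred.and (by repeat' (beta_reduce; with_reducible (first
            | assumption | exact DefMap.id | exact DefPred.const _ | exact DefVal.const _
            | refine DefPred.and ?_ ?_ | refine DefPred.or ?_ ?_ | refine DefPred.ne ?_ ?_
            | refine DefPred.vne ?_ ?_ | refine DefPred.not ?_ | refine DefPred.imp ?_ ?_
            | refine DefPred.iff ?_ ?_ | refine DefPred.ex ?_ | refine DefPred.all ?_
            | refine DefPred.le ?_ ?_ | refine DefPred.lt ?_ ?_ | refine DefPred.eq ?_ ?_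
            | refine DefPred.veq ?_ ?_ | refine DefVal.val ?_ | refine DefVal.mul ?_ ?_
            | exact DefMap.const (by assumption) | exact DefMap.const DefPt.zero
            | exact DefMap.const DefPt.one | exact DefMap.const (DefPt.of_mem (by assumption))
            | refine DefMap.add ?_ ?_ | refine DefMap.sub ?_ ?_ | refine DefMap.mul ?_ ?_
            | refine DefMap.neg ?_ | refine DefMap.fst ?_ | refine DefMap.snd ?_
            | refine DefMap.pair ?_ ?_ | refine DefMap.update _ ?_ ?_
            | refine DefPred.comp (by assumption) ?_ | refine DefVal.comp (by assumption) ?_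
            | refine DefMap.comp (by assumption) ?_ | refine DefMap.comp (DefMap.apply _) ?_))) (DefPred.and ?_ (DefPred.and (by repeat' (beta_reduce; with_reducible (first
            | assumption | exact DefMap.id | exact DefPred.const _ | exact DefVal.const _
            | refine DefPred.and ?_ ?_ | refine DefPred.or ?_ ?_ | refine DefPred.ne ?_ ?_
            | refine DefPred.vne ?_ ?_ | refine DefPred.not ?_ | refine DefPred.imp ?_ ?_
            | refine DefPred.iff ?_ ?_ | refine DefPred.ex ?_ | refine DefPred.all ?_
            | refine DefPred.le ?_ ?_ | refine DefPred.lt ?_ ?_ | refine DefPred.eq ?_ ?_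
            | refine DefPred.veq ?_ ?_ | refine DefVal.val ?_ | refine DefVal.mul ?_ ?_
            | exact DefMap.const (by assumption) | exact DefMap.const DefPt.zero
            | exact DefMap.const DefPt.one | exact DefMap.const (DefPt.of_mem (by assumption))
            | refine DefMap.add ?_ ?_ | refine DefMap.sub ?_ ?_ | refine DefMap.mul ?_ ?_
            | refine DefMap.neg ?_ | refine DefMap.fst ?_ | refine DefMap.snd ?_
            | refine DefMap.pair ?_ ?_ | refine DefMap.update _ ?_ ?_
            | refine DefPred.comp (by assumption) ?_ | refine DefVal.comp (by assumption) ?_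
            | refine DefMap.comp (by assumption) ?_ | refine DefMap.comp (DefMap.apply _) ?_))) (by repeat' (beta_reduce; with_reducible (first
            | assumption | exact DefMap.id | exact DefPred.const _ | exact DefVal.const _
            | refine DefPred.and ?_ ?_ | refine DefPred.or ?_ ?_ | refine DefPred.ne ?_ ?_
            | refine DefPred.vne ?_ ?_ | refine DefPred.not ?_ | refine DefPred.imp ?_ ?_
            | refine DefPred.iff ?_ ?_ | refine DefPred.ex ?_ | refine DefPred.all ?_
            | refine DefPred.le ?_ ?_ | refine DefPred.lt ?_ ?_ | refine DefPred.eq ?_ ?_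
            | refine DefPred.veq ?_ ?_ | refine DefVal.val ?_ | refine DefVal.mul ?_ ?_
            | exact DefMap.const (by assumption) | exact DefMap.const DefPt.zero
            | exact DefMap.const DefPt.one | exact DefMap.const (DefPt.of_mem (by assumption))
            | refine DefMap.add ?_ ?_ | refine DefMap.sub ?_ ?_ | refine DefMap.mul ?_ ?_
            | refine DefMap.neg ?_ | refine DefMap.fst ?_ | refine DefMap.snd ?_
            | refine DefMap.pair ?_ ?_ | refine DefMap.update _ ?_ ?_
            | refine DefPred.comp (by assumption) ?_ | refine DefVal.comp (by assumption) ?_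
            | refine DefMap.comp (by assumption) ?_ | refine DefMap.comp (DefMap.apply _) ?_)))))
      refine DefPred.forall_fin fun i => ?_
      by_cases hi : i ∈ S
      · have hbi : b i ∈ A₂ := hA₁A₂ (hbS i hi)
        simp only [hi, forall_const]
        repeat' (beta_reduce; with_reducible (first
              | assumption | exact DefMap.id | exact DefPred.const _ | exact DefVal.const _
              | refine DefPred.and ?_ ?_ | refine DefPred.or ?_ ?_ | refine DefPred.ne ?_ ?_
              | refine DefPred.vne ?_ ?_ | refine DefPred.not ?_ | refine DefPred.imp ?_ ?_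
              | refine DefPred.iff ?_ ?_ | refine DefPred.ex ?_ | refine DefPred.all ?_
              | refine DefPred.le ?_ ?_ | refine DefPred.lt ?_ ?_ | refine DefPred.eq ?_ ?_
              | refine DefPred.veq ?_ ?_ | refine DefVal.val ?_ | refine DefVal.mul ?_ ?_
              | exact DefMap.const (by assumption) | exact DefMap.const DefPt.zero
              | exact DefMap.const DefPt.one | exact DefMap.const (DefPt.of_mem (by assumption))
              | refine DefMap.add ?_ ?_ | refine DefMap.sub ?_ ?_ | refine DefMap.mul ?_ ?_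
              | refine DefMap.neg ?_ | refine DefMap.fst ?_ | refine DefMap.snd ?_
              | refine DefMap.pair ?_ ?_ | refine DefMap.update _ ?_ ?_
              | refine DefPred.comp (by assumption) ?_ | refine DefVal.comp (by assumption) ?_
              | refine DefMap.comp (by assumption) ?_ | refine DefMap.comp (DefMap.apply _) ?_))
      · simp only [hi, false_imp_iff]
        exact DefPred.true
    have hΨj : Ψ (b j) := by
      refine ⟨H1, fun i hi => ?_, ⟨d3, hd3, H3⟩, H2j⟩
      exact H2 i (Finset.mem_insert_of_mem hi)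
    obtain ⟨δ, hδ, hΨδ⟩ := transfer hΨ hΨj
    rw [hν] at hδ
    obtain ⟨h', hh', hclose, hslope⟩ := G2 j hjJ δ hδ
    obtain ⟨P1, P2, ⟨d5, hd5, P3⟩, P4⟩ := hΨδ (h' x) (by rwa [Valuation.map_sub_swap])
    have hVu : ∀ y, vec S (Function.update h j h') b y = Function.update (V y) j (h' y) :=
      fun y => vec_update S h b y j hj h'
    refine ih hSJ' (Function.update h j h') (fun i => ?_) ?_ ?_ ?_
    · by_cases hij : i = j
      · subst hij; simpa using hh'
      · simpa [Function.update_of_ne hij] using hh i
    · simp only [hVu]; exact P1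
    · simp only [hVu]; exact P2
    · simp only [hVu]
      -- the new slope at `x`
      have hρ1 : ρ ∈ LL D A₁ x := G3 S hSJ'
      have hxA₁ : ¬ DefPt D A₁ x := not_pt_of_LL hρ1
      let Θ : K → Prop := fun y => ∀ u u', v (u - h' y) < v dj → v (u' - h' y) < v dj →
        v (F (y, Function.update (V y) j u) - F (y, Function.update (V y) j u'))
          ≤ s j * v (u - u')
      have hh'₁ : DefMap D A₁ h' := hh'.mono hAA₁
      have hΘ : DefPred D A₁ Θ := by repeat' (beta_reduce; with_reducible (first
            | assumption | exact DefMap.id | exact DefPred.const _ | exact DefVal.const _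
            | refine DefPred.and ?_ ?_ | refine DefPred.or ?_ ?_ | refine DefPred.ne ?_ ?_
            | refine DefPred.vne ?_ ?_ | refine DefPred.not ?_ | refine DefPred.imp ?_ ?_
            | refine DefPred.iff ?_ ?_ | refine DefPred.ex ?_ | refine DefPred.all ?_
            | refine DefPred.le ?_ ?_ | refine DefPred.lt ?_ ?_ | refine DefPred.eq ?_ ?_
            | refine DefPred.veq ?_ ?_ | refine DefVal.val ?_ | refine DefVal.mul ?_ ?_
            | exact DefMap.const (by assumption) | exact DefMap.const DefPt.zero
            | exact DefMap.const DefPt.one | exact DefMap.const (DefPt.of_mem (by assumption))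
            | refine DefMap.add ?_ ?_ | refine DefMap.sub ?_ ?_ | refine DefMap.mul ?_ ?_
            | refine DefMap.neg ?_ | refine DefMap.fst ?_ | refine DefMap.snd ?_
            | refine DefMap.pair ?_ ?_ | refine DefMap.update _ ?_ ?_
            | refine DefPred.comp (by assumption) ?_ | refine DefVal.comp (by assumption) ?_
            | refine DefMap.comp (by assumption) ?_ | refine DefMap.comp (DefMap.apply _) ?_))
      -- choose the radius
      obtain ⟨r, hr, hr1, hr2⟩ := exists_small_two (v := v)
        ((Valuation.ne_zero_iff v).2 hd5) hρ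
      obtain ⟨m, hm, hm1⟩ : ∃ m : K, m ≠ 0 ∧ μ j * v m < v dj := by
        by_cases hμ0 : μ j = 0
        · exact ⟨1, one_ne_zero, by
            rw [hμ0, zero_mul]; exact zero_lt_iff.2 ((Valuation.ne_zero_iff v).2 hdj)⟩
        · obtain ⟨m, hm, hm1⟩ := exists_small (v := v)
            (div_ne_zero ((Valuation.ne_zero_iff v).2 hdj) hμ0)
          refine ⟨m, hm, ?_⟩
          rw [mul_comm]
          exact (lt_div_iff₀ (zero_lt_iff.2 hμ0)).1 hm1
      obtain ⟨d, hd, hd1, hd2⟩ := exists_small_two (v := v)
        ((Valuation.ne_zero_iff v).2 hr) ((Valuation.ne_zero_iff v).2 hm)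
      refine ⟨d, hd, fun y hy => ?_⟩
      by_cases hyx : y = x
      · simp [hyx]
      have hpos : 0 < v (y - x) :=
        zero_lt_iff.2 ((Valuation.ne_zero_iff v).2 (sub_ne_zero.2 hyx))
      have hyL₁ : v (y - x) ∈ LL D A₁ x :=
        LL.lower hρ1 ((hy.trans hd1).trans hr2).le
      have hyL : v (y - x) ∈ LL D A x := LL.anti hAA₁ x hyL₁
      have e1 := P3 y ((hy.trans hd1).trans hr1)
      have hΘy : Θ y := (hom hΘ hyL₁).1 P4
      have hsl := hslope y hyL
      have hlt : v (h' x - h' y) < v dj := by
        rw [Valuation.map_sub_swap]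
        refine lt_of_le_of_lt hsl (lt_of_le_of_lt ?_ hm1)
        exact mul_le_mul_right (hy.trans hd2).le _
      have e2 := hΘy (h' y) (h' x) (by
        rw [sub_self, map_zero]; exact zero_lt_iff.2 ((Valuation.ne_zero_iff v).2 hdj)) hlt
      have e3 : s j * v (h' y - h' x) < κ * v (y - x) := by
        calc s j * v (h' y - h' x) ≤ s j * (μ j * v (y - x)) := mul_le_mul_right hsl _
          _ = (s j * μ j) * v (y - x) := (mul_assoc _ _ _).symm
          _ ≤ 1 * v (y - x) := mul_le_mul_left (hsμ j hjJ) _
          _ < κ * v (y - x) := mul_lt_mul_of_pos_right hκ hpos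
      have e4 : F (y, Function.update (V y) j (h' y)) - F (x, Function.update (V x) j (h' x)) =
          (F (y, Function.update (V y) j (h' y)) - F (y, Function.update (V y) j (h' x))) +
          (F (y, Function.update (V y) j (h' x)) - F (x, Function.update (V x) j (h' x))) := by
        ring
      rw [e4, Valuation.map_add_eq_of_lt_right v (by rw [e1]; exact e2.trans_lt e3), e1]

end VF

end Pool.Agent.Helper28.HM
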