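import Pool.Agent.Helper28.HM.Scale

/-!
# Related points and the product formula
-/

set_option autoImplicit false
set_option linter.unusedTactic false
set_option linter.unreachableTactic false

universe u w

namespace Pool.Agent.Helper28.HM

open Set

variable {K : Type u} [Field K] {Γ : Type w} [LinearOrderedCommGroupWithZero Γ]
  {v : Valuation K Γ} {D : DefStr v} {A B : Set K}

section VF

variable [VF v] [UG D]

/-- Small definable functions are contracting. -/
lemma contr {k : K → K} (hk : DefMap D A k) {x : K} (hx : v (k x) ∈ LL D A x) {y y' : K}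
    (hy : v (y - x) ∈ LL D A x) (hy' : v (y' - x) ∈ LL D A x) (hne : y ≠ y') :
    v (k y - k y') < v (y - y') := by
  have hpos : v (y - y') ≠ 0 := by rw [Valuation.ne_zero_iff]; exact sub_ne_zero.2 hne
  by_cases hpt : DefPt D A (k x)
  · rw [const_of_pt hk hpt hy, const_of_pt hk hpt hy', sub_self, map_zero]
    exact zero_lt_iff.2 hpos
  · have hkx : v (k x) ≠ 0 := by
      rw [Valuation.ne_zero_iff]
      intro h
      exact hpt (h ▸ DefPt.zero)
    obtain ⟨μ, hμ, h1, h2⟩ := scale hk hpt ⟨_, hx, hkx⟩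
    rw [h1 y y' hy hy']
    have hμ1 : μ < 1 := by
      by_contra hcon
      push Not at hcon
      apply val_notMem_LL (D := D) (A := A) (k x)
      rw [h2]
      refine LL.lower hx ?_
      rw [div_le_iff₀ (zero_lt_iff.2 hμ)]
      exact le_mul_of_one_le_right' hcon
    calc μ * v (y - y') < 1 * v (y - y') := mul_lt_mul_of_pos_right hμ1 (zero_lt_iff.2 hpos)
      _ = v (y - y') := one_mul _

/-- `1`-Lipschitz on the generic ball of `x`. -/
def Lip (D : DefStr v) (A : Set K) (x : K) (h : K → K) : Prop :=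
  ∀ y y', v (y - x) ∈ LL D A x → v (y' - x) ∈ LL D A x → v (h y - h y') ≤ v (y - y')

lemma Lip.of_close {x : K} {h h' : K → K} (hh : Lip D A x h) (h1 : DefMap D A h)
    (h2 : DefMap D A h') (hx : v (h' x - h x) ∈ LL D A x) : Lip D A x h' := by
  intro y y' hy hy'
  by_cases hne : y = y'
  · simp [hne]
  have hk : DefMap D A (fun y => h' y - h y) := by repeat' (beta_reduce; with_reducible (first
        | assumption | exact DefMap.id | exact DefPred.const _ | exact DefVal.const _
        | refine DefPred.and ?_ ?_ | refine DefPred.or ?_ ?_ | refine DefPred.ne ?_ ?_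
        | refine DefPred.vne ?_ ?_ | refine DefPred.not ?_ | refine DefPred.imp ?_ ?_
        | refine DefPred.iff ?_ ?_ | refine DefPred.ex ?_ | refine DefPred.all ?_
        | refine DefPred.le ?_ ?_ | refine DefPred.lt ?_ ?_ | refine DefPred.eq ?_ ?_
        | refine DefPred.veq ?_ ?_ | refine DefVal.val ?_ | refine DefVal.mul ?_ ?_
        | exact DefMap.const (by assumption) | exact DefMap.const DefPt.zero
        | exact DefMap.const DefPt.one | exact DefMap.const (DefPt.of_mem (by assumption))
        | refine DefMap.add ?_ ?_ | refine DefMap.sub ?_ ?_ | refine DefMap.mul ?_ ?_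
        | refine DefMap.neg ?_ | refine DefMap.fst ?_ | refine DefMap.snd ?_
        | refine DefMap.pair ?_ ?_ | refine DefMap.update _ ?_ ?_
        | refine DefPred.comp (by assumption) ?_ | refine DefVal.comp (by assumption) ?_
        | refine DefMap.comp (by assumption) ?_ | refine DefMap.comp (DefMap.apply _) ?_))
  have h3 := contr hk hx hy hy' hne
  have h4 := hh y y' hy hy'
  have : h' y - h' y' = (h' y - h y - (h' y' - h y')) + (h y - h y') := by ring
  rw [this]
  exact (Valuation.map_add v _ _).trans (max_le h3.le h4)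

omit [VF v] [UG D] in
lemma Lip.mono {x : K} {h : K → K} (hh : Lip D A x h) (hAB : A ⊆ B) : Lip D B x h :=
  fun y y' hy hy' => hh y y' (LL.anti hAB x hy) (LL.anti hAB x hy')

/-- `a` is related to `x`: some point definable from `a` lies in the generic ball of `x`. -/
def Rel (D : DefStr v) (A : Set K) (x a : K) : Prop :=
  ∃ h : K → K, DefMap D A h ∧ v (h a - x) ∈ LL D A x

omit [VF v] [UG D] in
lemma LL_of_not_rel {x a : K} (h : ¬ Rel D A x a) : LL D (insert a A) x = LL D A x := by
  apply Subset.antisymm (LL.anti (subset_insert _ _) x)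
  intro γ hγ e he
  obtain ⟨f, hf, rfl⟩ := pt_insert he
  by_contra hcon
  push Not at hcon
  refine h ⟨f, hf, LL.lower hγ ?_⟩
  rwa [Valuation.map_sub_swap]

omit [VF v] [UG D] in
lemma LL_ne_of_rel {x a : K} (h : Rel D A x a) : LL D (insert a A) x ≠ LL D A x := by
  obtain ⟨f, hf, h⟩ := h
  intro heq
  rw [← heq, Valuation.map_sub_swap] at h
  exact val_sub_notMem_LL x (pt_insert_of hf) h

/-- The main facts about related points. -/
theorem rel_main {x a : K} (hL : ∃ γ ∈ LL D A x, γ ≠ 0) (h : Rel D A x a) :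
    ∃ μ : Γ, μ ≠ 0 ∧ LL D A a = sc μ (LL D A x) ∧
      (∃ k : K → K, DefMap D A k ∧ v (k x - a) ∈ LL D A a) ∧
      (∀ k : K → K, DefMap D A k → v (k x - a) ∈ LL D A a →
        ∀ y y', v (y - x) ∈ LL D A x → v (y' - x) ∈ LL D A x →
          v (k y - k y') = μ * v (y - y')) ∧
      LL D (insert x A) a = sc μ (LL D (insert a A) x) := by
  obtain ⟨h, hh, hhx⟩ := h
  have hpt : ¬ DefPt D A (h a) := not_pt_of_LL (γ := v (h a - x)) (by rwa [LL_eq hhx])
  have hxpt : ¬ DefPt D A x := not_pt_of_LL hhx
  have hx0 : v (x - x) ∈ LL D A x := by rwa [sub_self, map_zero, zero_mem_LL]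
  obtain ⟨g, hg, hga, hg1, hg2⟩ := bij hh hpt
  have hapt : ¬ DefPt D A a := fun ha => hpt (ha.map hh)
  have ha0 : v (a - a) ∈ LL D A a := by rwa [sub_self, map_zero, zero_mem_LL]
  rw [LL_eq hhx] at hg1 hg2
  have memx : ∀ {y}, v (y - x) ∈ LL D A x → v (y - h a) ∈ LL D A x := fun hy => LL_sub hy hhx
  have memx' : ∀ {y}, v (y - h a) ∈ LL D A x → v (y - x) ∈ LL D A x := fun hy => by
    have := LL_trans hhx (z := _) (by rwa [LL_eq hhx])
    exact this
  obtain ⟨μ, hμ, h1, h2⟩ := scale hg (x := h a) (by rwa [hga]) (by rwa [LL_eq hhx])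
  rw [hga, LL_eq hhx] at h2
  rw [LL_eq hhx] at h1
  have slope : ∀ k : K → K, DefMap D A k → v (k x - a) ∈ LL D A a →
        ∀ y y', v (y - x) ∈ LL D A x → v (y' - x) ∈ LL D A x →
          v (k y - k y') = μ * v (y - y') := by
    intro k hk hka y y' hy hy'
    by_cases hne : y = y'
    · simp [hne]
    have hkx : ¬ DefPt D A (k x) := not_pt_of_LL (γ := v (k x - a)) (by rwa [LL_eq hka])
    have hky : ∀ {y}, v (y - x) ∈ LL D A x → v (k y - a) ∈ LL D A a := by
      intro y hy
      exact LL_trans hka (map_ball hk hkx hy)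
    have b1 := hg1 (k y) (hky hy)
    have b2 := hg1 (k y') (hky hy')
    have e1 := h1 _ _ b1.1 b2.1
    rw [b1.2, b2.2] at e1
    rw [e1]
    congr 1
    have hd : DefMap D A (fun y => h (k y) - y) := by repeat' (beta_reduce; with_reducible (first
          | assumption | exact DefMap.id | exact DefPred.const _ | exact DefVal.const _
          | refine DefPred.and ?_ ?_ | refine DefPred.or ?_ ?_ | refine DefPred.ne ?_ ?_
          | refine DefPred.vne ?_ ?_ | refine DefPred.not ?_ | refine DefPred.imp ?_ ?_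
          | refine DefPred.iff ?_ ?_ | refine DefPred.ex ?_ | refine DefPred.all ?_
          | refine DefPred.le ?_ ?_ | refine DefPred.lt ?_ ?_ | refine DefPred.eq ?_ ?_
          | refine DefPred.veq ?_ ?_ | refine DefVal.val ?_ | refine DefVal.mul ?_ ?_
          | exact DefMap.const (by assumption) | exact DefMap.const DefPt.zero
          | exact DefMap.const DefPt.one | exact DefMap.const (DefPt.of_mem (by assumption))
          | refine DefMap.add ?_ ?_ | refine DefMap.sub ?_ ?_ | refine DefMap.mul ?_ ?_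
          | refine DefMap.neg ?_ | refine DefMap.fst ?_ | refine DefMap.snd ?_
          | refine DefMap.pair ?_ ?_ | refine DefMap.update _ ?_ ?_
          | refine DefPred.comp (by assumption) ?_ | refine DefVal.comp (by assumption) ?_
          | refine DefMap.comp (by assumption) ?_ | refine DefMap.comp (DefMap.apply _) ?_))
    have hdx : v (h (k x) - x) ∈ LL D A x := memx' (hg1 (k x) hka).1
    have h5 := contr hd hdx hy hy' hne
    have : h (k y) - h (k y') = (h (k y) - y - (h (k y') - y')) + (y - y') := by ring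
    rw [this, Valuation.map_add_eq_of_lt_right v h5]
  have hgxa : v (g x - a) ∈ LL D A a := (hg2 x (memx hx0)).1
  refine ⟨μ, hμ, h2, ⟨g, hg, hgxa⟩, slope, ?_⟩
  ext γ
  constructor
  · intro hγ
    have hγ' : γ / μ ∈ LL D A x := by
      have := LL.anti (subset_insert _ _) _ hγ
      rwa [h2] at this
    intro e he
    obtain ⟨h', hh', rfl⟩ := pt_insert he
    by_cases hmem : v (h' a - x) ∈ LL D A x
    · have hpt' : ¬ DefPt D A (h' a) := not_pt_of_LL (γ := v (h' a - x)) (by rwa [LL_eq hmem])
      obtain ⟨k', hk', hk'a, hk1, hk2⟩ := bij hh' hpt'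
      rw [LL_eq hmem] at hk2
      have hxmem : v (x - h' a) ∈ LL D A x := by rwa [Valuation.map_sub_swap]
      have hk'x : v (k' x - a) ∈ LL D A a := (hk2 x hxmem).1
      have e1 := slope k' hk' hk'x (h' a) x hmem hx0
      rw [hk'a] at e1
      have h6 := hγ (k' x) (pt_insert_of hk')
      rw [e1] at h6
      rw [div_lt_iff₀ (zero_lt_iff.2 hμ), Valuation.map_sub_swap, mul_comm]
      exact h6
    · by_contra hcon
      push Not at hcon
      refine hmem (LL.lower hγ' ?_)
      rwa [Valuation.map_sub_swap]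
  · intro hγ e he
    have hγ1 : γ / μ ∈ LL D A x := LL.anti (subset_insert _ _) _ hγ
    have hγ2 : γ ∈ LL D A a := by rw [h2]; exact hγ1
    obtain ⟨k, hk, rfl⟩ := pt_insert he
    by_cases hmem : v (k x - a) ∈ LL D A a
    · have hpt' : ¬ DefPt D A (k x) := not_pt_of_LL (γ := v (k x - a)) (by rwa [LL_eq hmem])
      obtain ⟨h', hh', hh'x, hk1, hk2⟩ := bij hk hpt'
      rw [LL_eq hmem] at hk2
      have hamem : v (a - k x) ∈ LL D A a := by rwa [Valuation.map_sub_swap]
      obtain ⟨b1, b2⟩ := hk2 a hamem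
      have e1 := slope k hk hmem x (h' a) hx0 b1
      rw [b2] at e1
      have h6 := hγ (h' a) (pt_insert_of hh')
      rw [Valuation.map_sub_swap, e1, mul_comm]
      rwa [div_lt_iff₀ (zero_lt_iff.2 hμ)] at h6
    · by_contra hcon
      push Not at hcon
      refine hmem (LL.lower hγ2 ?_)
      rwa [Valuation.map_sub_swap]

lemma Rel.symm {x a : K} (hL : ∃ γ ∈ LL D A x, γ ≠ 0) (h : Rel D A x a) : Rel D A a x := by
  obtain ⟨μ, hμ, h1, ⟨k, hk, hk'⟩, h3, h4⟩ := rel_main hL h
  exact ⟨k, hk, hk'⟩

end VF

end Pool.Agent.Helper28.HM
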