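import Pool.Agent.Helper28.HM.OneVar

/-!
# Exact scaling of definable functions
-/

set_option autoImplicit false
set_option linter.unusedTactic false
set_option linter.unreachableTactic false

universe u w

namespace Pool.Agent.Helper28.HM

open Set

variable {K : Type u} [Field K] {Γ : Type w} [LinearOrderedCommGroupWithZero Γ]
  {v : Valuation K Γ} {D : DefStr v} {A B : Set K}

lemma zero_mem_LL {x : K} : (0 : Γ) ∈ LL D A x ↔ ¬ DefPt D A x := by
  constructor
  · intro h hx
    have := h x hx
    simp at this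
  · intro h e he
    rw [zero_lt_iff, Valuation.ne_zero_iff, sub_ne_zero]
    rintro rfl
    exact h he

lemma val_notMem_LL (x : K) : v x ∉ LL D A x := by
  intro h
  have := h 0 DefPt.zero
  simp at this

lemma val_sub_notMem_LL (x : K) {e : K} (he : DefPt D A e) : v (x - e) ∉ LL D A x :=
  fun h => lt_irrefl _ (h e he)

lemma notMem_LL {x : K} {γ : Γ} (h : γ ∉ LL D A x) : ∃ e, DefPt D A e ∧ v (x - e) ≤ γ := by
  simp only [LL, mem_ofPred_eq, not_forall, not_lt] at h
  obtain ⟨e, he, h⟩ := h
  exact ⟨e, he, h⟩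

lemma not_pt_of_LL {x : K} {γ : Γ} (h : γ ∈ LL D A x) : ¬ DefPt D A x :=
  zero_mem_LL.1 (LL.lower h zero_le)

lemma val_sub_eq_of_LL {x y e : K} (h : v (y - x) ∈ LL D A x) (he : DefPt D A e) :
    v (y - e) = v (x - e) := by
  have h1 := h e he
  have : y - e = (y - x) + (x - e) := by ring
  rw [this, Valuation.map_add_eq_of_lt_right v h1]

lemma LL_eq {x y : K} (h : v (y - x) ∈ LL D A x) : LL D A y = LL D A x := by
  ext γ
  constructor
  · intro hγ e he
    rw [← val_sub_eq_of_LL h he]; exact hγ e he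
  · intro hγ e he
    rw [val_sub_eq_of_LL h he]; exact hγ e he

lemma LL_symm {x y : K} (h : v (y - x) ∈ LL D A x) : v (x - y) ∈ LL D A y := by
  rw [LL_eq h, Valuation.map_sub_swap]; exact h

lemma LL_trans {x y z : K} (h : v (y - x) ∈ LL D A x) (h' : v (z - y) ∈ LL D A y) :
    v (z - x) ∈ LL D A x := by
  rw [LL_eq h] at h'
  have : v (z - x) ≤ max (v (z - y)) (v (y - x)) := by
    have := Valuation.map_add v (z - y) (y - x)
    simpa using this
  rcases le_total (v (z - y)) (v (y - x)) with h1 | h1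
  · exact LL.lower h (this.trans (by simp [h1]))
  · exact LL.lower h' (this.trans (by simp [h1]))

section VF

variable [VF v]

lemma exists_small {γ : Γ} (hγ : γ ≠ 0) : ∃ r : K, r ≠ 0 ∧ v r < γ := by
  obtain ⟨r, rfl⟩ := VF.surj (v := v) γ
  obtain ⟨p, hp, hp1⟩ := VF.nontriv (v := v)
  have hr : r ≠ 0 := by rintro rfl; simp at hγ
  refine ⟨p * r, mul_ne_zero hp hr, ?_⟩
  rw [map_mul]
  calc v p * v r < 1 * v r := by
        apply mul_lt_mul_of_pos_right hp1
        rw [zero_lt_iff]; exact hγ
    _ = v r := one_mul _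

lemma exists_small_two {γ δ : Γ} (hγ : γ ≠ 0) (hδ : δ ≠ 0) : ∃ r : K, r ≠ 0 ∧ v r < γ ∧ v r < δ := by
  rcases le_total γ δ with h | h
  · obtain ⟨r, h1, h2⟩ := exists_small (v := v) hγ
    exact ⟨r, h1, h2, h2.trans_le h⟩
  · obtain ⟨r, h1, h2⟩ := exists_small (v := v) hδ
    exact ⟨r, h1, h2.trans_le h, h2⟩

variable [UG D]

/-- A value taken on a whole ball is definable. -/
lemma pt_of_const_ball {f : K → K} (hf : DefMap D A f) {z y₀ : K} {γ : Γ} (hγ : γ ≠ 0)
    (h : ∀ y, v (y - y₀) < γ → f y = z) : DefPt D A z := by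
  obtain ⟨y₁, hy₁, hy₁'⟩ : ∃ y₁ : K, y₁ ≠ 0 ∧ v (y₁ - y₀) < γ := by
    by_cases h0 : y₀ = 0
    · obtain ⟨r, hr, hr'⟩ := exists_small (v := v) hγ
      exact ⟨r, hr, by simpa [h0] using hr'⟩
    · exact ⟨y₀, h0, by simpa using zero_lt_iff.2 hγ⟩
  have hv1 : v y₁ ≠ 0 := (Valuation.ne_zero_iff v).2 hy₁
  set lam : Γ := min 1 (γ / v y₁) with hlam
  have hlam0 : lam ≠ 0 := by
    rw [hlam]
    rcases min_choice (1 : Γ) (γ / v y₁) with h | h <;> rw [h]
    · exact one_ne_zero
    · exact div_ne_zero hγ hv1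
  have hlam1 : lam ≤ 1 := min_le_left _ _
  have hlam2 : lam * v y₁ ≤ γ := by
    calc lam * v y₁ ≤ γ / v y₁ * v y₁ := mul_le_mul_left (min_le_right _ _) _
      _ = γ := div_mul_cancel₀ _ hv1
  have hZ : DefPred D A (fun p : K × K => f p.2 = p.1) := by repeat' (beta_reduce; with_reducible (first
        | assumption | exact DefMap.id | exact DefPred.const _ | exact DefVal.const _
        | refine DefPred.and ?_ ?_ | refine DefPred.or ?_ ?_ | refine DefPred.ne ?_ ?_
        | refine DefPred.vne ?_ ?_ | refine DefPred.not ?_ | refine DefPred.imp ?_ ?_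
        | refine DefPred.iff ?_ ?_ | refine DefPred.ex ?_ | refine DefPred.all ?_
        | refine DefPred.le ?_ ?_ | refine DefPred.lt ?_ ?_ | refine DefPred.eq ?_ ?_
        | refine DefPred.veq ?_ ?_ | refine DefVal.val ?_ | refine DefVal.mul ?_ ?_
        | exact DefMap.const (by assumption) | exact DefMap.const DefPt.zero
        | exact DefMap.const DefPt.one | exact DefMap.const (DefPt.of_mem (by assumption))
        | refine DefMap.add ?_ ?_ | refine DefMap.sub ?_ ?_ | refine DefMap.mul ?_ ?_
        | refine DefMap.neg ?_ | refine DefMap.fst ?_ | refine DefMap.snd ?_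
        | refine DefMap.pair ?_ ?_ | refine DefMap.update _ ?_ ?_
        | refine DefPred.comp (by assumption) ?_ | refine DefVal.comp (by assumption) ?_
        | refine DefMap.comp (by assumption) ?_ | refine DefMap.comp (DefMap.apply _) ?_))
  obtain ⟨C, hC1, hC2, hC3, hC4⟩ := prep_rv hZ
  have hX : {x | ∃ c', RVE v lam c' y₁ ∧ f c' = x} = {z} := by
    ext x
    simp only [mem_ofPred_eq, mem_singleton_iff]
    have hc : ∀ c', RVE v lam c' y₁ → f c' = z := by
      intro c' hc'
      apply h
      rcases hc' with rfl | hc'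
      · exact hy₁'
      · have h1 : v (c' - y₁) < γ := lt_of_lt_of_le hc' hlam2
        have : c' - y₀ = (c' - y₁) + (y₁ - y₀) := by ring
        rw [this]
        exact Valuation.map_add_lt v h1 hy₁'
    constructor
    · rintro ⟨c', hc', rfl⟩
      exact hc c' hc'
    · rintro rfl
      exact ⟨y₁, Or.inl rfl, hc _ (Or.inl rfl)⟩
  have hprep := hC4 lam hlam0 hlam1 y₁
  dsimp only at hprep
  rw [hX] at hprep
  by_contra hz
  have hzC : z ∉ C := fun hzC => hz (hC3 z hzC)
  obtain ⟨c₀, hc₀, hmin⟩ := Set.exists_min_image C (fun c => v (z - c)) hC2 hC1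
  have hδ : v (z - c₀) ≠ 0 := by
    rw [Valuation.ne_zero_iff, sub_ne_zero]
    rintro rfl
    exact hzC hc₀
  obtain ⟨r, hr, hr'⟩ := exists_small (v := v) (mul_ne_zero hlam0 hδ)
  have := hprep (z + r) z (fun c hc => Or.inr (by
    have h1 : z + r - c - (z - c) = r := by ring
    rw [h1]
    exact hr'.trans_le (mul_le_mul_right (hmin c hc) _)))
  simp [hr] at this

lemma fiber_finite {f : K → K} (hf : DefMap D A f) {z : K} (hz : ¬ DefPt D A z) :
    {x | f x = z}.Finite := by
  have hz' : z ∈ insert z A := mem_insert _ _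
  have hf' := hf.mono (subset_insert z A)
  have hX : DefPred D (insert z A) (fun x : K => f x = z) := by repeat' (beta_reduce; with_reducible (first
        | assumption | exact DefMap.id | exact DefPred.const _ | exact DefVal.const _
        | refine DefPred.and ?_ ?_ | refine DefPred.or ?_ ?_ | refine DefPred.ne ?_ ?_
        | refine DefPred.vne ?_ ?_ | refine DefPred.not ?_ | refine DefPred.imp ?_ ?_
        | refine DefPred.iff ?_ ?_ | refine DefPred.ex ?_ | refine DefPred.all ?_
        | refine DefPred.le ?_ ?_ | refine DefPred.lt ?_ ?_ | refine DefPred.eq ?_ ?_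
        | refine DefPred.veq ?_ ?_ | refine DefVal.val ?_ | refine DefVal.mul ?_ ?_
        | exact DefMap.const (by assumption) | exact DefMap.const DefPt.zero
        | exact DefMap.const DefPt.one | exact DefMap.const (DefPt.of_mem (by assumption))
        | refine DefMap.add ?_ ?_ | refine DefMap.sub ?_ ?_ | refine DefMap.mul ?_ ?_
        | refine DefMap.neg ?_ | refine DefMap.fst ?_ | refine DefMap.snd ?_
        | refine DefMap.pair ?_ ?_ | refine DefMap.update _ ?_ ?_
        | refine DefPred.comp (by assumption) ?_ | refine DefVal.comp (by assumption) ?_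
        | refine DefMap.comp (by assumption) ?_ | refine DefMap.comp (DefMap.apply _) ?_))
  obtain ⟨C, hC1, hC2, hC3, hC4⟩ := prep hX
  by_contra hinf
  obtain ⟨y₀, hy₀, hyC⟩ := Set.Infinite.exists_notMem_finite hinf hC2
  obtain ⟨c₀, hc₀, hmin⟩ := Set.exists_min_image C (fun c => v (y₀ - c)) hC2 hC1
  have hδ : v (y₀ - c₀) ≠ 0 := by
    rw [Valuation.ne_zero_iff, sub_ne_zero]
    rintro rfl
    exact hyC hc₀
  refine hz (pt_of_const_ball hf hδ (y₀ := y₀) fun y hy => ?_)
  refine (hC4 y y₀ fun c hc => Or.inr ?_).2 hy₀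
  rw [sub_sub_sub_cancel_right, one_mul]
  exact hy.trans_le (hmin c hc)

lemma exchange {f : K → K} (hf : DefMap D A f) {x : K} (hz : ¬ DefPt D A (f x)) :
    DefPt D (insert (f x) A) x := by
  have hz' : f x ∈ insert (f x) A := mem_insert _ _
  have hf' := hf.mono (subset_insert (f x) A)
  have hX : DefPred D (insert (f x) A) (fun y : K => f y = f x) := by repeat' (beta_reduce; with_reducible (first
        | assumption | exact DefMap.id | exact DefPred.const _ | exact DefVal.const _
        | refine DefPred.and ?_ ?_ | refine DefPred.or ?_ ?_ | refine DefPred.ne ?_ ?_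
        | refine DefPred.vne ?_ ?_ | refine DefPred.not ?_ | refine DefPred.imp ?_ ?_
        | refine DefPred.iff ?_ ?_ | refine DefPred.ex ?_ | refine DefPred.all ?_
        | refine DefPred.le ?_ ?_ | refine DefPred.lt ?_ ?_ | refine DefPred.eq ?_ ?_
        | refine DefPred.veq ?_ ?_ | refine DefVal.val ?_ | refine DefVal.mul ?_ ?_
        | exact DefMap.const (by assumption) | exact DefMap.const DefPt.zero
        | exact DefMap.const DefPt.one | exact DefMap.const (DefPt.of_mem (by assumption))
        | refine DefMap.add ?_ ?_ | refine DefMap.sub ?_ ?_ | refine DefMap.mul ?_ ?_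
        | refine DefMap.neg ?_ | refine DefMap.fst ?_ | refine DefMap.snd ?_
        | refine DefMap.pair ?_ ?_ | refine DefMap.update _ ?_ ?_
        | refine DefPred.comp (by assumption) ?_ | refine DefVal.comp (by assumption) ?_
        | refine DefMap.comp (by assumption) ?_ | refine DefMap.comp (DefMap.apply _) ?_))
  exact coding hX (fiber_finite hf hz) x rfl

/-- The displacement estimate at level `lam`. -/
lemma step_lam {f : K → K} (hf : DefMap D A f) {lam : Γ} (h0 : lam ≠ 0) (h1 : lam ≤ 1) {x y : K}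
    (hz : ¬ DefPt D A (f x)) (hxy : ∀ e, DefPt D A e → v (y - x) < lam * v (x - e)) :
    ∀ e, DefPt D A e → v (f y - f x) < lam * v (f x - e) := by
  intro e he
  have hZ : DefPred D A (fun p : K × K => f p.1 - e = p.2) := by repeat' (beta_reduce; with_reducible (first
        | assumption | exact DefMap.id | exact DefPred.const _ | exact DefVal.const _
        | refine DefPred.and ?_ ?_ | refine DefPred.or ?_ ?_ | refine DefPred.ne ?_ ?_
        | refine DefPred.vne ?_ ?_ | refine DefPred.not ?_ | refine DefPred.imp ?_ ?_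
        | refine DefPred.iff ?_ ?_ | refine DefPred.ex ?_ | refine DefPred.all ?_
        | refine DefPred.le ?_ ?_ | refine DefPred.lt ?_ ?_ | refine DefPred.eq ?_ ?_
        | refine DefPred.veq ?_ ?_ | refine DefVal.val ?_ | refine DefVal.mul ?_ ?_
        | exact DefMap.const (by assumption) | exact DefMap.const DefPt.zero
        | exact DefMap.const DefPt.one | exact DefMap.const (DefPt.of_mem (by assumption))
        | refine DefMap.add ?_ ?_ | refine DefMap.sub ?_ ?_ | refine DefMap.mul ?_ ?_
        | refine DefMap.neg ?_ | refine DefMap.fst ?_ | refine DefMap.snd ?_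
        | refine DefMap.pair ?_ ?_ | refine DefMap.update _ ?_ ?_
        | refine DefPred.comp (by assumption) ?_ | refine DefVal.comp (by assumption) ?_
        | refine DefMap.comp (by assumption) ?_ | refine DefMap.comp (DefMap.apply _) ?_))
  obtain ⟨c', hc', h⟩ := (hom_lam hZ h0 h1 hxy (f x - e)).1 ⟨f x - e, Or.inl rfl, rfl⟩
  dsimp only at h
  subst h
  have hne : v (f x - e) ≠ 0 := by
    rw [Valuation.ne_zero_iff, sub_ne_zero]
    rintro h
    exact hz (h ▸ he)
  rcases hc' with h | h
  · have : f y - f x = 0 := by linear_combination h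
    rw [this, map_zero, zero_lt_iff]
    exact mul_ne_zero h0 hne
  · rwa [sub_sub_sub_cancel_right] at h

lemma const_of_pt {f : K → K} (hf : DefMap D A f) {x y : K} (hz : DefPt D A (f x))
    (hxy : v (y - x) ∈ LL D A x) : f y = f x := by
  have hX : DefPred D A (fun y : K => f y = f x) := by
    refine DefPred.eq hf (DefMap.const hz)
  exact (hom hX hxy).1 rfl

lemma map_ball {f : K → K} (hf : DefMap D A f) {x y : K} (hz : ¬ DefPt D A (f x))
    (hxy : v (y - x) ∈ LL D A x) : v (f y - f x) ∈ LL D A (f x) := by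
  intro e he
  have := step_lam hf one_ne_zero le_rfl hz (x := x) (y := y)
    (fun e he => by rw [one_mul]; exact hxy e he) e he
  rwa [one_mul] at this

/-- Definable functions with non-definable value are bijections between the generic balls. -/
lemma bij {f : K → K} (hf : DefMap D A f) {x : K} (hz : ¬ DefPt D A (f x)) :
    ∃ g : K → K, DefMap D A g ∧ g (f x) = x ∧
      (∀ y, v (y - x) ∈ LL D A x → v (f y - f x) ∈ LL D A (f x) ∧ g (f y) = y) ∧
      (∀ z, v (z - f x) ∈ LL D A (f x) → v (g z - x) ∈ LL D A x ∧ f (g z) = z) := by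
  obtain ⟨g, hg, hgx⟩ := pt_insert (exchange hf hz)
  have hx : ¬ DefPt D A x := fun h => hz (h.map hf)
  refine ⟨g, hg, hgx, fun y hy => ⟨map_ball hf hz hy, ?_⟩, fun z hz' => ⟨?_, ?_⟩⟩
  · have hX : DefPred D A (fun y : K => g (f y) = y) := by repeat' (beta_reduce; with_reducible (first
        | assumption | exact DefMap.id | exact DefPred.const _ | exact DefVal.const _
        | refine DefPred.and ?_ ?_ | refine DefPred.or ?_ ?_ | refine DefPred.ne ?_ ?_
        | refine DefPred.vne ?_ ?_ | refine DefPred.not ?_ | refine DefPred.imp ?_ ?_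
        | refine DefPred.iff ?_ ?_ | refine DefPred.ex ?_ | refine DefPred.all ?_
        | refine DefPred.le ?_ ?_ | refine DefPred.lt ?_ ?_ | refine DefPred.eq ?_ ?_
        | refine DefPred.veq ?_ ?_ | refine DefVal.val ?_ | refine DefVal.mul ?_ ?_
        | exact DefMap.const (by assumption) | exact DefMap.const DefPt.zero
        | exact DefMap.const DefPt.one | exact DefMap.const (DefPt.of_mem (by assumption))
        | refine DefMap.add ?_ ?_ | refine DefMap.sub ?_ ?_ | refine DefMap.mul ?_ ?_
        | refine DefMap.neg ?_ | refine DefMap.fst ?_ | refine DefMap.snd ?_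
        | refine DefMap.pair ?_ ?_ | refine DefMap.update _ ?_ ?_
        | refine DefPred.comp (by assumption) ?_ | refine DefVal.comp (by assumption) ?_
        | refine DefMap.comp (by assumption) ?_ | refine DefMap.comp (DefMap.apply _) ?_))
    exact (hom hX hy).1 hgx
  · have := map_ball hg (x := f x) (y := z) (by rwa [hgx]) hz'
    rwa [hgx] at this
  · have hX : DefPred D A (fun z : K => f (g z) = z) := by repeat' (beta_reduce; with_reducible (first
        | assumption | exact DefMap.id | exact DefPred.const _ | exact DefVal.const _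
        | refine DefPred.and ?_ ?_ | refine DefPred.or ?_ ?_ | refine DefPred.ne ?_ ?_
        | refine DefPred.vne ?_ ?_ | refine DefPred.not ?_ | refine DefPred.imp ?_ ?_
        | refine DefPred.iff ?_ ?_ | refine DefPred.ex ?_ | refine DefPred.all ?_
        | refine DefPred.le ?_ ?_ | refine DefPred.lt ?_ ?_ | refine DefPred.eq ?_ ?_
        | refine DefPred.veq ?_ ?_ | refine DefVal.val ?_ | refine DefVal.mul ?_ ?_
        | exact DefMap.const (by assumption) | exact DefMap.const DefPt.zero
        | exact DefMap.const DefPt.one | exact DefMap.const (DefPt.of_mem (by assumption))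
        | refine DefMap.add ?_ ?_ | refine DefMap.sub ?_ ?_ | refine DefMap.mul ?_ ?_
        | refine DefMap.neg ?_ | refine DefMap.fst ?_ | refine DefMap.snd ?_
        | refine DefMap.pair ?_ ?_ | refine DefMap.update _ ?_ ?_
        | refine DefPred.comp (by assumption) ?_ | refine DefVal.comp (by assumption) ?_
        | refine DefMap.comp (by assumption) ?_ | refine DefMap.comp (DefMap.apply _) ?_))
    exact (hom hX hz').1 (by rw [hgx])

omit [VF v] [UG D] in
lemma mem_LL_div {x : K} {lam : Γ} (h0 : lam ≠ 0) {γ : Γ} :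
    γ / lam ∈ LL D A x ↔ ∀ e, DefPt D A e → γ < lam * v (x - e) := by
  constructor
  · intro h e he
    have := h e he
    rwa [div_lt_iff₀ (zero_lt_iff.2 h0), mul_comm] at this
  · intro h e he
    rw [div_lt_iff₀ (zero_lt_iff.2 h0), mul_comm]
    exact h e he

lemma coarse_one {f : K → K} (hf : DefMap D A f) {x y y' : K} (hz : ¬ DefPt D A (f x))
    (hy' : v (y' - x) ∈ LL D A x) {lam : Γ} (h0 : lam ≠ 0)
    (h1 : lam ≤ 1) (h : v (y - y') / lam ∈ LL D A x) :
    v (f y - f y') / lam ∈ LL D A (f x) := by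
  have hfy' := map_ball hf hz hy'
  rw [← LL_eq hfy', mem_LL_div h0]
  rw [← LL_eq hy', mem_LL_div h0] at h
  have hz' : ¬ DefPt D A (f y') := by
    refine not_pt_of_LL (γ := v (f y' - f x)) ?_
    rw [LL_eq hfy']; exact hfy'
  exact step_lam hf h0 h1 hz' h

lemma coarse {f : K → K} (hf : DefMap D A f) {x y y' : K} (hz : ¬ DefPt D A (f x))
    (hy : v (y - x) ∈ LL D A x) (hy' : v (y' - x) ∈ LL D A x) {lam : Γ} (h0 : lam ≠ 0)
    (h1 : lam ≤ 1) :
    v (y - y') / lam ∈ LL D A x ↔ v (f y - f y') / lam ∈ LL D A (f x) := by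
  refine ⟨coarse_one hf hz hy' h0 h1, fun h => ?_⟩
  obtain ⟨g, hg, hgx, h2, h3⟩ := bij hf hz
  have hx : ¬ DefPt D A x := fun h => hz (h.map hf)
  have := coarse_one hg (x := f x) (y := f y) (y' := f y') (by rwa [hgx])
    (h2 y' hy').1 h0 h1 h
  rwa [hgx, (h2 y hy).2, (h2 y' hy').2] at this

/-- Exact scaling at a fixed radius, from the uniform preparation. -/
lemma local_scale {f g : K → K} (hf : DefMap D A f) (hg : DefMap D A g) {x : K}
    (h2 : ∀ y, v (y - x) ∈ LL D A x → v (f y - f x) ∈ LL D A (f x) ∧ g (f y) = y)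
    {γ : Γ} (hγ : γ ≠ 0) (hγL : γ ∈ LL D A x) {y₁ : K} (hy₁ : v (y₁ - x) ∈ LL D A x) :
    ∃ ρ : Γ, ρ ≠ 0 ∧ ∀ y₂, v (y₁ - y₂) < γ → v (f y₁ - f y₂) * γ = ρ * v (y₁ - y₂) := by
  classical
  -- preparing families
  have hZ2 : DefPred D A (fun p : K × K × K => g p.2.1 - p.1 = p.2.2) := by repeat' (beta_reduce; with_reducible (first
        | assumption | exact DefMap.id | exact DefPred.const _ | exact DefVal.const _
        | refine DefPred.and ?_ ?_ | refine DefPred.or ?_ ?_ | refine DefPred.ne ?_ ?_
        | refine DefPred.vne ?_ ?_ | refine DefPred.not ?_ | refine DefPred.imp ?_ ?_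
        | refine DefPred.iff ?_ ?_ | refine DefPred.ex ?_ | refine DefPred.all ?_
        | refine DefPred.le ?_ ?_ | refine DefPred.lt ?_ ?_ | refine DefPred.eq ?_ ?_
        | refine DefPred.veq ?_ ?_ | refine DefVal.val ?_ | refine DefVal.mul ?_ ?_
        | exact DefMap.const (by assumption) | exact DefMap.const DefPt.zero
        | exact DefMap.const DefPt.one | exact DefMap.const (DefPt.of_mem (by assumption))
        | refine DefMap.add ?_ ?_ | refine DefMap.sub ?_ ?_ | refine DefMap.mul ?_ ?_
        | refine DefMap.neg ?_ | refine DefMap.fst ?_ | refine DefMap.snd ?_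
        | refine DefMap.pair ?_ ?_ | refine DefMap.update _ ?_ ?_
        | refine DefPred.comp (by assumption) ?_ | refine DefVal.comp (by assumption) ?_
        | refine DefMap.comp (by assumption) ?_ | refine DefMap.comp (DefMap.apply _) ?_))
  obtain ⟨N2, C2, hC2, hC2', hC2p⟩ := ug_gen (σ := K) _ hZ2
  have hZ3 : DefPred D A (fun p : (K × K) × K × K => f p.2.1 - p.1.2 = p.2.2) := by repeat' (beta_reduce; with_reducible (first
        | assumption | exact DefMap.id | exact DefPred.const _ | exact DefVal.const _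
        | refine DefPred.and ?_ ?_ | refine DefPred.or ?_ ?_ | refine DefPred.ne ?_ ?_
        | refine DefPred.vne ?_ ?_ | refine DefPred.not ?_ | refine DefPred.imp ?_ ?_
        | refine DefPred.iff ?_ ?_ | refine DefPred.ex ?_ | refine DefPred.all ?_
        | refine DefPred.le ?_ ?_ | refine DefPred.lt ?_ ?_ | refine DefPred.eq ?_ ?_
        | refine DefPred.veq ?_ ?_ | refine DefVal.val ?_ | refine DefVal.mul ?_ ?_
        | exact DefMap.const (by assumption) | exact DefMap.const DefPt.zero
        | exact DefMap.const DefPt.one | exact DefMap.const (DefPt.of_mem (by assumption))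
        | refine DefMap.add ?_ ?_ | refine DefMap.sub ?_ ?_ | refine DefMap.mul ?_ ?_
        | refine DefMap.neg ?_ | refine DefMap.fst ?_ | refine DefMap.snd ?_
        | refine DefMap.pair ?_ ?_ | refine DefMap.update _ ?_ ?_
        | refine DefPred.comp (by assumption) ?_ | refine DefVal.comp (by assumption) ?_
        | refine DefMap.comp (by assumption) ?_ | refine DefMap.comp (DefMap.apply _) ?_))
  obtain ⟨N3, C3, hC3, hC3', hC3p⟩ := ug_gen (σ := K × K) _ hZ3
  -- the union family
  let C : K × K → Prop := fun p => p.2 = p.1 ∨ ∃ c, C2 (p.1, c) ∧ C3 ((p.1, c), p.2)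
  have hC : DefPred D A C := by
    refine DefPred.or (by repeat' (beta_reduce; with_reducible (first
          | assumption | exact DefMap.id | exact DefPred.const _ | exact DefVal.const _
          | refine DefPred.and ?_ ?_ | refine DefPred.or ?_ ?_ | refine DefPred.ne ?_ ?_
          | refine DefPred.vne ?_ ?_ | refine DefPred.not ?_ | refine DefPred.imp ?_ ?_
          | refine DefPred.iff ?_ ?_ | refine DefPred.ex ?_ | refine DefPred.all ?_
          | refine DefPred.le ?_ ?_ | refine DefPred.lt ?_ ?_ | refine DefPred.eq ?_ ?_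
          | refine DefPred.veq ?_ ?_ | refine DefVal.val ?_ | refine DefVal.mul ?_ ?_
          | exact DefMap.const (by assumption) | exact DefMap.const DefPt.zero
          | exact DefMap.const DefPt.one | exact DefMap.const (DefPt.of_mem (by assumption))
          | refine DefMap.add ?_ ?_ | refine DefMap.sub ?_ ?_ | refine DefMap.mul ?_ ?_
          | refine DefMap.neg ?_ | refine DefMap.fst ?_ | refine DefMap.snd ?_
          | refine DefMap.pair ?_ ?_ | refine DefMap.update _ ?_ ?_
          | refine DefPred.comp (by assumption) ?_ | refine DefVal.comp (by assumption) ?_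
          | refine DefMap.comp (by assumption) ?_ | refine DefMap.comp (DefMap.apply _) ?_))) (DefPred.ex ?_)
    repeat' (beta_reduce; with_reducible (first
          | assumption | exact DefMap.id | exact DefPred.const _ | exact DefVal.const _
          | refine DefPred.and ?_ ?_ | refine DefPred.or ?_ ?_ | refine DefPred.ne ?_ ?_
          | refine DefPred.vne ?_ ?_ | refine DefPred.not ?_ | refine DefPred.imp ?_ ?_
          | refine DefPred.iff ?_ ?_ | refine DefPred.ex ?_ | refine DefPred.all ?_
          | refine DefPred.le ?_ ?_ | refine DefPred.lt ?_ ?_ | refine DefPred.eq ?_ ?_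
          | refine DefPred.veq ?_ ?_ | refine DefVal.val ?_ | refine DefVal.mul ?_ ?_
          | exact DefMap.const (by assumption) | exact DefMap.const DefPt.zero
          | exact DefMap.const DefPt.one | exact DefMap.const (DefPt.of_mem (by assumption))
          | refine DefMap.add ?_ ?_ | refine DefMap.sub ?_ ?_ | refine DefMap.mul ?_ ?_
          | refine DefMap.neg ?_ | refine DefMap.fst ?_ | refine DefMap.snd ?_
          | refine DefMap.pair ?_ ?_ | refine DefMap.update _ ?_ ?_
          | refine DefPred.comp (by assumption) ?_ | refine DefVal.comp (by assumption) ?_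
          | refine DefMap.comp (by assumption) ?_ | refine DefMap.comp (DefMap.apply _) ?_))
  have hCcard : ∀ e, ∃ S : Finset K, (∀ c, C (e, c) ↔ c ∈ S) ∧ S.card ≤ N2 * N3 + 1 := by
    intro e
    have f2 := (hC2' e).2.1
    let S2 := f2.toFinset
    let S3 : K → Finset K := fun c => ((hC3' (e, c)).2.1).toFinset
    refine ⟨insert e (S2.biUnion S3), ?_, ?_⟩
    · intro c
      simp only [C, Finset.mem_insert, Finset.mem_biUnion, S2, S3, Set.Finite.mem_toFinset,
        mem_ofPred_eq]
    · refine (Finset.card_insert_le _ _).trans ?_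
      gcongr
      refine (Finset.card_biUnion_le_card_mul _ _ N3 fun c _ => ?_).trans ?_
      · have := (hC3' (e, c)).2.2
        rwa [Set.ncard_eq_toFinset_card _ (hC3' (e, c)).2.1] at this
      · gcongr
        have := (hC2' e).2.2
        rwa [Set.ncard_eq_toFinset_card _ (hC2' e).2.1] at this
  -- a good partner exists
  obtain ⟨r, hr⟩ := VF.surj (v := v) γ
  have hr0 : r ≠ 0 := by rintro rfl; simp at hr; exact hγ hr.symm
  have hpart : ∃ e', v (y₁ - e') = γ ∧ ∀ c, C (e', c) → γ ≤ v (y₁ - c) := by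
    have hX : DefPred D A (fun y : K => ∃ e', v (y - e') = γ ∧ ∀ c, C (e', c) → γ ≤ v (y - c)) := by
      repeat' (beta_reduce; with_reducible (first
            | assumption | exact DefMap.id | exact DefPred.const _ | exact DefVal.const _
            | refine DefPred.and ?_ ?_ | refine DefPred.or ?_ ?_ | refine DefPred.ne ?_ ?_
            | refine DefPred.vne ?_ ?_ | refine DefPred.not ?_ | refine DefPred.imp ?_ ?_
            | refine DefPred.iff ?_ ?_ | refine DefPred.ex ?_ | refine DefPred.all ?_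
            | refine DefPred.le ?_ ?_ | refine DefPred.lt ?_ ?_ | refine DefPred.eq ?_ ?_
            | refine DefPred.veq ?_ ?_ | refine DefVal.val ?_ | refine DefVal.mul ?_ ?_
            | exact DefMap.const (by assumption) | exact DefMap.const DefPt.zero
            | exact DefMap.const DefPt.one | exact DefMap.const (DefPt.of_mem (by assumption))
            | refine DefMap.add ?_ ?_ | refine DefMap.sub ?_ ?_ | refine DefMap.mul ?_ ?_
            | refine DefMap.neg ?_ | refine DefMap.fst ?_ | refine DefMap.snd ?_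
            | refine DefMap.pair ?_ ?_ | refine DefMap.update _ ?_ ?_
            | refine DefPred.comp (by assumption) ?_ | refine DefVal.comp (by assumption) ?_
            | refine DefMap.comp (by assumption) ?_ | refine DefMap.comp (DefMap.apply _) ?_))
    obtain ⟨S, hS, hScard⟩ := hCcard x
    -- find a good translate of `x`
    have : ∃ i : ℕ, i ≠ 0 ∧ ∀ c ∈ S, γ ≤ v (x + i * r - c) := by
      by_contra hcon
      push Not at hcon
      have : ∀ i : Fin (S.card + 1), ∃ c ∈ S, v (x + ((i : ℕ) + 1 : ℕ) * r - c) < γ :=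
        fun i => hcon _ (Nat.succ_ne_zero _)
      choose c hc hc' using this
      obtain ⟨i, j, hij, hcij⟩ : ∃ i j, i ≠ j ∧ c i = c j := by
        have hlt : S.card < (Finset.univ : Finset (Fin (S.card + 1))).card := by simp
        obtain ⟨i, _, j, _, hij, h⟩ := Finset.exists_ne_map_eq_of_card_lt_of_maps_to hlt
          (fun i _ => hc i)
        exact ⟨i, j, hij, h⟩
      have h1 : v ((((i : ℕ) + 1 : ℕ) : K) * r - (((j : ℕ) + 1 : ℕ) : K) * r) < γ := by
        have h3 := hc' i
        have h4 := hc' j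
        rw [← hcij] at h4
        have h5 := Valuation.map_sub_lt v h3 h4
        convert h5 using 2
        ring
      have h2 : v ((((i : ℕ) + 1 : ℕ) : K) - (((j : ℕ) + 1 : ℕ) : K)) = 1 := by
        rcases lt_or_gt_of_ne hij with h | h
        · have h' : (i : ℕ) < j := h
          rw [Valuation.map_sub_swap, ← Nat.cast_sub (by omega)]
          exact VF.char _ (by omega)
        · have h' : (j : ℕ) < i := h
          rw [← Nat.cast_sub (by omega)]
          exact VF.char _ (by omega)
      rw [← sub_mul, map_mul, h2, one_mul, hr] at h1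
      exact lt_irrefl _ h1
    obtain ⟨i, hi0, hi⟩ := this
    have hvi : v ((i : K) * r) = γ := by rw [map_mul, VF.char (v := v) i hi0, one_mul, hr]
    have hy' : v (x + i * r - x) ∈ LL D A x := by
      rw [add_sub_cancel_left, hvi]; exact hγL
    have h0 : ∃ e', v (x + i * r - e') = γ ∧ ∀ c, C (e', c) → γ ≤ v (x + i * r - c) :=
      ⟨x, by rw [add_sub_cancel_left, hvi], fun c hc => hi c ((hS c).1 hc)⟩
    have h1 := (hom hX hy').2 h0
    exact (hom hX hy₁).1 h1
  obtain ⟨e', he', hpart⟩ := hpart
  obtain ⟨c₂, hc₂, hmin⟩ := Set.exists_min_image {x | C2 (e', x)} (fun c => v (f y₁ - c))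
    (hC2' e').2.1 (hC2' e').1
  have hpart3 : ∀ c, C3 ((e', c₂), c) → γ ≤ v (y₁ - c) :=
    fun c hc => hpart c (Or.inr ⟨c₂, hc₂, hc⟩)
  -- membership of the ball
  have hball : ∀ y₂, v (y₁ - y₂) < γ → v (y₂ - x) ∈ LL D A x := by
    intro y₂ h
    refine LL_trans hy₁ ?_
    rw [LL_eq hy₁, Valuation.map_sub_swap]
    exact LL.lower hγL h.le
  -- (ii)
  have key2 : ∀ y₂ (lam : Γ), lam ≠ 0 → lam ≤ 1 → v (y₁ - y₂) < lam * γ →
      RVE v lam (f y₂ - c₂) (f y₁ - c₂) := by
    intro y₂ lam h0 h1 h
    have := hC3p (e', c₂) lam h0 h1 (f y₁ - c₂) y₂ y₁ (fun c hc => Or.inr (by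
      rw [sub_sub_sub_cancel_right, Valuation.map_sub_swap]
      exact h.trans_le (mul_le_mul_right (hpart3 c hc) _)))
    obtain ⟨c', hc', h⟩ := this.2 ⟨_, Or.inl rfl, rfl⟩
    dsimp only at h
    rwa [h]
  have hρ : v (f y₁ - c₂) ≠ 0 := by
    intro h0
    rw [Valuation.zero_iff, sub_eq_zero] at h0
    obtain ⟨s, hs, hs'⟩ := exists_small (v := v) hγ
    have hlt : v (y₁ - (y₁ + s)) < 1 * γ := by
      rw [one_mul]; simpa using hs'
    have := key2 (y₁ + s) 1 one_ne_zero le_rfl hlt
    rw [h0, sub_self] at this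
    have hfe : f (y₁ + s) = c₂ := by
      rcases this with h | h
      · exact sub_eq_zero.1 h
      · simp at h
    have h3 := (h2 y₁ hy₁).2
    have h4 := (h2 (y₁ + s) (hball _ (by simpa using hlt))).2
    rw [hfe, ← h0, h3] at h4
    simp [hs] at h4
  -- (i)
  have key1 : ∀ y₂ (lam : Γ), lam ≠ 0 → lam ≤ 1 → v (y₁ - y₂) < γ →
      v (f y₁ - f y₂) < lam * v (f y₁ - c₂) → v (y₁ - y₂) < lam * γ := by
    intro y₂ lam h0 h1 h h'
    have := hC2p e' lam h0 h1 (g (f y₁) - e') (f y₂) (f y₁) (fun c hc => Or.inr (by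
      rw [sub_sub_sub_cancel_right, Valuation.map_sub_swap]
      exact h'.trans_le (mul_le_mul_right (hmin c hc) _)))
    obtain ⟨c', hc', h5⟩ := this.2 ⟨_, Or.inl rfl, rfl⟩
    dsimp only at h5
    rw [← h5, (h2 y₁ hy₁).2, (h2 y₂ (hball y₂ h)).2] at hc'
    rcases hc' with h6 | h6
    · have : y₁ = y₂ := by linear_combination -h6
      rw [this, sub_self, map_zero, zero_lt_iff]
      exact mul_ne_zero h0 hγ
    · rwa [sub_sub_sub_cancel_right, Valuation.map_sub_swap, he'] at h6
  refine ⟨v (f y₁ - c₂), hρ, fun y₂ hy₂ => ?_⟩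
  by_cases hne : y₁ = y₂
  · simp [hne]
  have hδ : v (y₁ - y₂) ≠ 0 := by rw [Valuation.ne_zero_iff]; exact sub_ne_zero.2 hne
  have hδ' : v (f y₁ - f y₂) ≠ 0 := by
    rw [Valuation.ne_zero_iff, sub_ne_zero]
    intro h
    apply hne
    rw [← (h2 y₁ hy₁).2, h, (h2 y₂ (hball y₂ hy₂)).2]
  have hlt : v (f y₁ - f y₂) < v (f y₁ - c₂) := by
    rcases key2 y₂ 1 one_ne_zero le_rfl (by rwa [one_mul]) with h | h
    · exfalso
      apply hδ'
      rw [Valuation.zero_iff]
      linear_combination -h
    · rwa [sub_sub_sub_cancel_right, Valuation.map_sub_swap, one_mul] at h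
  apply le_antisymm
  · -- δ' γ ≤ ρ δ
    by_contra hcon
    push Not at hcon
    set lam := v (f y₁ - f y₂) / v (f y₁ - c₂) with hlam
    have hl0 : lam ≠ 0 := div_ne_zero hδ' hρ
    have hl1 : lam ≤ 1 := by
      rw [hlam, div_le_one₀ (zero_lt_iff.2 hρ)]; exact hlt.le
    have h3 : v (y₁ - y₂) < lam * γ := by
      rw [hlam, div_mul_eq_mul_div, lt_div_iff₀ (zero_lt_iff.2 hρ), mul_comm]
      exact hcon
    rcases key2 y₂ lam hl0 hl1 h3 with h | h
    · apply hδ'
      rw [Valuation.zero_iff]
      linear_combination -h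
    · rw [sub_sub_sub_cancel_right, Valuation.map_sub_swap, hlam, div_mul_cancel₀ _ hρ] at h
      exact lt_irrefl _ h
  · by_contra hcon
    push Not at hcon
    set lam := v (y₁ - y₂) / γ with hlam
    have hl0 : lam ≠ 0 := div_ne_zero hδ hγ
    have hl1 : lam ≤ 1 := by
      rw [hlam, div_le_one₀ (zero_lt_iff.2 hγ)]; exact hy₂.le
    have h3 : v (f y₁ - f y₂) < lam * v (f y₁ - c₂) := by
      rw [hlam, div_mul_eq_mul_div, lt_div_iff₀ (zero_lt_iff.2 hγ), mul_comm (v (y₁ - y₂))]
      exact hcon
    have := key1 y₂ lam hl0 hl1 hy₂ h3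
    rw [hlam, div_mul_cancel₀ _ hγ] at this
    exact lt_irrefl _ this

omit [VF v] [UG D] in
lemma LL_sub {x y y' : K} (hy : v (y - x) ∈ LL D A x) (hy' : v (y' - x) ∈ LL D A x) :
    v (y - y') ∈ LL D A x := by
  have h := LL_trans (LL_symm hy') hy
  rwa [LL_eq hy'] at h

/-- The set `μ * S`. -/
def sc (μ : Γ) (S : Set Γ) : Set Γ := {γ | γ / μ ∈ S}

/-- Exact scaling. -/
theorem scale {f : K → K} (hf : DefMap D A f) {x : K} (hz : ¬ DefPt D A (f x))
    (hL : ∃ γ ∈ LL D A x, γ ≠ 0) :
    ∃ μ : Γ, μ ≠ 0 ∧ (∀ y y', v (y - x) ∈ LL D A x → v (y' - x) ∈ LL D A x →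
      v (f y - f y') = μ * v (y - y')) ∧ LL D A (f x) = sc μ (LL D A x) := by
  obtain ⟨g, hg, hgx, h2, h3⟩ := bij hf hz
  suffices H : ∃ μ : Γ, μ ≠ 0 ∧ (∀ y y', v (y - x) ∈ LL D A x → v (y' - x) ∈ LL D A x →
      v (f y - f y') = μ * v (y - y')) by
    obtain ⟨μ, hμ, H⟩ := H
    have hx0 : v (x - x) ∈ LL D A x := by
      rw [sub_self, map_zero, zero_mem_LL]
      exact fun h => hz (h.map hf)
    refine ⟨μ, hμ, H, ?_⟩
    ext γ
    constructor
    · intro hγ
      obtain ⟨s, hs⟩ := VF.surj (v := v) γ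
      have hz' : v (f x + s - f x) ∈ LL D A (f x) := by rwa [add_sub_cancel_left, hs]
      obtain ⟨h4, h5⟩ := h3 _ hz'
      have := H _ _ h4 hx0
      rw [h5, add_sub_cancel_left, hs] at this
      change γ / μ ∈ LL D A x
      rw [this, mul_div_cancel_left₀ _ hμ]
      exact h4
    · intro hγ
      obtain ⟨s, hs⟩ := VF.surj (v := v) (γ / μ)
      have hy : v (x + s - x) ∈ LL D A x := by rw [add_sub_cancel_left, hs]; exact hγ
      have := H _ _ hy hx0
      rw [add_sub_cancel_left, hs, mul_div_cancel₀ _ hμ] at this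
      rw [← this]
      exact (h2 _ hy).1
  by_cases hmax : ∃ m ∈ LL D A x, ∀ γ ∈ LL D A x, γ ≤ m
  · obtain ⟨m, hm, hmax⟩ := hmax
    obtain ⟨γ₀, hγ₀, hγ₀'⟩ := hL
    have hm0 : m ≠ 0 := by
      rintro rfl
      exact hγ₀' (le_zero_iff.1 (hmax _ hγ₀))
    have hx0 : v (x - x) ∈ LL D A x := by
      rw [sub_self, map_zero]; exact LL.lower hm zero_le
    have key : ∀ y y', v (y - x) ∈ LL D A x → v (y' - x) ∈ LL D A x → y ≠ y' →
        v (f y - f y') / (v (y - y') / m) ∈ LL D A (f x) ∧
        ∀ t ∈ LL D A (f x), t ≤ v (f y - f y') / (v (y - y') / m) := by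
      intro y y' hy hy' hne
      have hδ : v (y - y') ≠ 0 := by rw [Valuation.ne_zero_iff]; exact sub_ne_zero.2 hne
      have hδ' : v (f y - f y') ≠ 0 := by
        rw [Valuation.ne_zero_iff, sub_ne_zero]
        intro h
        apply hne
        rw [← (h2 y hy).2, h, (h2 y' hy').2]
      have hle : v (y - y') ≤ m := hmax _ (LL_sub hy hy')
      have hl0 : v (y - y') / m ≠ 0 := div_ne_zero hδ hm0
      have hl1 : v (y - y') / m ≤ 1 := by rwa [div_le_one₀ (zero_lt_iff.2 hm0)]
      refine ⟨(coarse hf hz hy hy' hl0 hl1).1 ?_, fun t ht => ?_⟩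
      · rwa [div_div_cancel₀ hδ]
      · by_contra hcon
        push Not at hcon
        have ht0 : t ≠ 0 := by
          rintro rfl
          exact absurd hcon (not_lt.2 zero_le)
        have hlam : v (f y - f y') / t < v (y - y') / m := by
          rw [div_lt_iff₀ (zero_lt_iff.2 hl0)] at hcon
          rw [div_lt_iff₀ (zero_lt_iff.2 ht0), mul_comm]
          exact hcon
        have h4 := (coarse hf hz hy hy' (div_ne_zero hδ' ht0) (hlam.le.trans hl1)).2
          (by rwa [div_div_cancel₀ hδ'])
        have h5 := hmax _ h4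
        rw [div_le_iff₀ (zero_lt_iff.2 (div_ne_zero hδ' ht0))] at h5
        rw [lt_div_iff₀ (zero_lt_iff.2 hm0), mul_comm] at hlam
        exact absurd h5 (not_le.2 hlam)
    obtain ⟨s, hs⟩ := VF.surj (v := v) m
    have hs0 : s ≠ 0 := by rintro rfl; simp at hs; exact hm0 hs.symm
    have hy : v (x + s - x) ∈ LL D A x := by rwa [add_sub_cancel_left, hs]
    have hne : x + s ≠ x := by simpa using hs0
    obtain ⟨h4, h5⟩ := key _ _ hy hx0 hne
    set m' := v (f (x + s) - f x) / (v (x + s - x) / m) with hm'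
    have hm'0 : m' ≠ 0 := by
      rw [hm', add_sub_cancel_left, hs, div_self hm0, div_one, Valuation.ne_zero_iff, sub_ne_zero]
      intro h
      apply hne
      rw [← (h2 _ hy).2, h, hgx]
    refine ⟨m' / m, div_ne_zero hm'0 hm0, fun y y' hy hy' => ?_⟩
    by_cases hyy : y = y'
    · simp [hyy]
    obtain ⟨h6, h7⟩ := key y y' hy hy' hyy
    have heq : m' = v (f y - f y') / (v (y - y') / m) := le_antisymm (h7 _ h4) (h5 _ h6)
    have hδ : v (y - y') ≠ 0 := by rw [Valuation.ne_zero_iff]; exact sub_ne_zero.2 hyy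
    rw [heq]
    field_simp
  · push Not at hmax
    obtain ⟨γ₀, hγ₀, hγ₀'⟩ := hL
    have hx0 : v (x - x) ∈ LL D A x := by
      rw [sub_self, map_zero]; exact LL.lower hγ₀ zero_le
    obtain ⟨ρ₀, hρ₀, hsc₀⟩ := local_scale hf hg h2 hγ₀' hγ₀ hx0
    refine ⟨ρ₀ / γ₀, div_ne_zero hρ₀ hγ₀', fun y y' hy hy' => ?_⟩
    obtain ⟨γ, hγ, h1⟩ := hmax (max (max γ₀ (v (y - y'))) (v (y - x))) (by
      rcases max_choice (max γ₀ (v (y - y'))) (v (y - x)) with h | h <;> rw [h]
      · rcases max_choice γ₀ (v (y - y')) with h | h <;> rw [h]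
        · exact hγ₀
        · exact LL_sub hy hy'
      · exact hy)
    simp only [max_lt_iff] at h1
    obtain ⟨⟨h1a, h1b⟩, h1c⟩ := h1
    have hγ0 : γ ≠ 0 := by rintro rfl; exact absurd h1a (not_lt.2 zero_le)
    obtain ⟨ρy, hρy, hscy⟩ := local_scale hf hg h2 hγ0 hγ hy
    obtain ⟨ρx, hρx, hscx⟩ := local_scale hf hg h2 hγ0 hγ hx0
    have e1 : ρx * γ₀ = ρ₀ * γ := by
      obtain ⟨s, hs, hs'⟩ := exists_small (v := v) hγ₀'
      have a1 := hsc₀ (x + s) (by simpa using hs')
      have a2 := hscx (x + s) (by simpa using hs'.trans h1a)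
      have hvs : v (x - (x + s)) ≠ 0 := by simpa using hs
      have a3 : ρx * v (x - (x + s)) * γ₀ = ρ₀ * v (x - (x + s)) * γ := by
        rw [← a1, ← a2]; ac_rfl
      apply mul_right_cancel₀ hvs
      rw [mul_right_comm, a3, mul_right_comm]
    have e2 : ρy = ρx := by
      by_cases hyx : y = x
      · subst hyx
        obtain ⟨s, hs, hs'⟩ := exists_small (v := v) hγ0
        have a1 := hscy (y + s) (by simpa using hs')
        have a2 := hscx (y + s) (by simpa using hs')
        have hvs : v (y - (y + s)) ≠ 0 := by simpa using hs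
        exact mul_right_cancel₀ hvs (a1.symm.trans a2)
      · have a1 := hscy x h1c
        have a2 := hscx y (by rwa [Valuation.map_sub_swap])
        rw [Valuation.map_sub_swap, a2, Valuation.map_sub_swap] at a1
        have hvs : v (y - x) ≠ 0 := by rw [Valuation.ne_zero_iff]; exact sub_ne_zero.2 hyx
        exact (mul_right_cancel₀ hvs a1).symm
    have a1 := hscy y' h1b
    rw [e2] at a1
    apply mul_right_cancel₀ hγ0
    apply mul_right_cancel₀ hγ₀'
    rw [a1]
    have a4 : ρ₀ / γ₀ * v (y - y') * γ * γ₀ = ρ₀ / γ₀ * γ₀ * (v (y - y') * γ) := by ac_rfl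
    rw [a4, div_mul_cancel₀ _ hγ₀', mul_right_comm, e1]
    ac_rfl

end VF

end Pool.Agent.Helper28.HM
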