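import Pool.Agent.Helper28.HM.Model

/-!
# Ultrapowers and compactness
-/

set_option autoImplicit false
set_option linter.unusedTactic false
set_option linter.unreachableTactic false

universe u v w

namespace Pool.Agent.Helper28.HM

open FirstOrder FirstOrder.Language FirstOrder.Language.Structure Set

variable {L : FirstOrder.Language.{v, w}} {V : ValLang L} {K : Type u} [Field K] [L.Structure K]
  {O : ValuationSubring K}

section Ultra

variable {I : Type u} {U : Ultrafilter I}

/-- The ultrapower. -/
abbrev UP (U : Ultrafilter I) (K : Type u) : Type u := Filter.Germ (U : Filter I) K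

/-- The class of a family. -/
abbrev mk (f : I → K) : UP U K := (f : Filter.Germ (U : Filter I) K)

instance UP.structure : L.Structure (UP U K) :=
  inferInstanceAs (L.Structure ((U : Filter I).Product fun _ => K))

omit [Field K] in
lemma UP.funMap_mk {n : ℕ} (f : L.Functions n) (x : Fin n → I → K) :
    (funMap f fun i => (mk (x i) : UP U K)) = mk (fun a => funMap f fun i => x i a) :=
  Ultraproduct.funMap_cast f x

lemma UP.realize_mk {β : Type*} (φ : L.Formula β) (x : β → I → K) :
    (φ.Realize fun i => (mk (x i) : UP U K)) ↔ ∀ᶠ a : I in U, φ.Realize fun i => x i a :=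
  Ultraproduct.realize_formula_cast φ x

lemma UP.elem : K ≅[L] UP U K := by
  rw [elementarilyEquivalent_iff]
  intro φ
  have h := Ultraproduct.sentence_realize (u := U) (M := fun _ => K) φ
  have h2 : (∀ᶠ _a : I in (U : Filter I), K ⊨ φ) ↔ K ⊨ φ := Filter.eventually_const
  exact (h.trans h2).symm

omit [Field K] in
lemma UP.exists_mk {β : Type*} (x : β → UP U K) : ∃ y : β → I → K, x = fun i => mk (y i) := by
  refine ⟨fun i => Quotient.out (x i), funext fun i => ?_⟩
  exact (Quotient.out_eq (x i)).symm

/-- The valuation ring of the ultrapower. -/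
def upO (U : Ultrafilter I) (O : ValuationSubring K) : ValuationSubring (UP U K) where
  carrier := {x | x.LiftPred fun k => k ∈ O}
  mul_mem' {a b} ha hb := by
    induction a, b using Filter.Germ.inductionOn₂ with | _ a b
    exact (ha.and hb).mono fun i h => O.mul_mem _ _ h.1 h.2
  one_mem' := Filter.Eventually.of_forall fun _ => O.one_mem
  add_mem' {a b} ha hb := by
    induction a, b using Filter.Germ.inductionOn₂ with | _ a b
    exact (ha.and hb).mono fun i h => O.add_mem _ _ h.1 h.2
  zero_mem' := Filter.Eventually.of_forall fun _ => O.zero_mem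
  neg_mem' {a} ha := by
    induction a using Filter.Germ.inductionOn with | _ a
    exact ha.mono fun i h => O.neg_mem _ h
  mem_or_inv_mem' a := by
    induction a using Filter.Germ.inductionOn with | _ a
    exact Ultrafilter.eventually_or.1 (Filter.Eventually.of_forall fun i => O.mem_or_inv_mem (a i))

lemma mem_upO (f : I → K) : (mk f : UP U K) ∈ upO U O ↔ ∀ᶠ i in U, f i ∈ O := Iff.rfl

omit [Field K] in
lemma mk_eq (f g : I → K) : (mk f : UP U K) = mk g ↔ ∀ᶠ i in U, f i = g i := by
  exact Filter.Germ.coe_eq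

lemma UP.model (hV : IsValuedModel V K O) : IsValuedModel V (UP U K) (upO U O) where
  add x y := by
    induction x, y using Filter.Germ.inductionOn₂ with | _ x y
    have h := UP.funMap_mk (U := U) V.add ![x, y]
    have e1 : (fun i => (mk ((![x, y] : Fin 2 → I → K) i) : UP U K)) = ![mk x, mk y] := by
      funext i; fin_cases i <;> rfl
    rw [e1] at h
    rw [h]
    have e2 : ∀ a, (fun i => (![x, y] : Fin 2 → I → K) i a) = ![x a, y a] := by
      intro a; funext i; fin_cases i <;> rfl
    simp only [e2, hV.add]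
    rfl
  mul x y := by
    induction x, y using Filter.Germ.inductionOn₂ with | _ x y
    have h := UP.funMap_mk (U := U) V.mul ![x, y]
    have e1 : (fun i => (mk ((![x, y] : Fin 2 → I → K) i) : UP U K)) = ![mk x, mk y] := by
      funext i; fin_cases i <;> rfl
    rw [e1] at h
    rw [h]
    have e2 : ∀ a, (fun i => (![x, y] : Fin 2 → I → K) i a) = ![x a, y a] := by
      intro a; funext i; fin_cases i <;> rfl
    simp only [e2, hV.mul]
    rfl
  int x := by
    induction x using Filter.Germ.inductionOn with | _ x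
    have h := UP.realize_mk (U := U) (V.int.formula₁ (Term.var (0 : Fin 1))) ![x]
    simp only [Formula.realize_rel₁, Term.realize_var, Matrix.cons_val_zero, hV.int] at h
    exact h

/-- Comparison of valuations in the ultrapower. -/
lemma up_val_le (f g : I → K) : (upO U O).valuation (mk f : UP U K) ≤ (upO U O).valuation (mk g) ↔
    ∀ᶠ i in U, O.valuation (f i) ≤ O.valuation (g i) := by
  rw [ValuationSubring.valuation_le_iff]
  constructor
  · rintro ⟨⟨a, ha⟩, h⟩
    induction a using Filter.Germ.inductionOn with | _ a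
    have ha' : ∀ᶠ i in U, a i ∈ O := ha
    have h' : (mk (fun i => a i * g i) : UP U K) = mk f := h
    rw [mk_eq] at h'
    filter_upwards [ha', h'] with i h1 h2
    rw [ValuationSubring.valuation_le_iff]
    exact ⟨⟨a i, h1⟩, h2⟩
  · intro h
    have : ∀ i, ∃ a : K, a ∈ O ∧ (O.valuation (f i) ≤ O.valuation (g i) → a * g i = f i) := by
      intro i
      by_cases hi : O.valuation (f i) ≤ O.valuation (g i)
      · rw [ValuationSubring.valuation_le_iff] at hi
        obtain ⟨a, ha⟩ := hi
        exact ⟨a, a.2, fun _ => ha⟩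
      · exact ⟨0, O.zero_mem, fun h => absurd h hi⟩
    choose a ha ha' using this
    refine ⟨⟨mk a, (mem_upO a).2 (Filter.Eventually.of_forall ha)⟩, ?_⟩
    change (mk (fun i => a i * g i) : UP U K) = mk f
    rw [mk_eq]
    exact h.mono fun i hi => ha' i hi

lemma up_val_lt (f g : I → K) : (upO U O).valuation (mk f : UP U K) < (upO U O).valuation (mk g) ↔
    ∀ᶠ i in U, O.valuation (f i) < O.valuation (g i) := by
  rw [← not_le, up_val_le, ← Ultrafilter.eventually_not]
  simp only [not_le]

lemma up_rve (l f g : I → K) :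
    RVE (upO U O).valuation ((upO U O).valuation (mk l : UP U K)) (mk f) (mk g) ↔
      ∀ᶠ i in U, RVE O.valuation (O.valuation (l i)) (f i) (g i) := by
  unfold RVE
  rw [Ultrafilter.eventually_or, mk_eq, ← map_mul]
  have h := up_val_lt (U := U) (O := O) (fun i => f i - g i) (fun i => l i * g i)
  simp only [map_mul] at h
  rw [← h]
  rfl

/-- The pointwise statement for a formula. -/
def Pointwise {K : Type u} [Field K] [L.Structure K] (O : ValuationSubring K)
    {α β γ : Type} (φ : L.Formula (α ⊕ (Unit ⊕ (β ⊕ γ)))) : Prop :=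
  ∀ (s : α → K) (x x' : K) (lam : O.ValueGroup), lam ≠ 0 → lam ≤ 1 →
    ∀ (b : β → K) (c : γ → K),
    (∀ (ψ : L.Formula (α ⊕ Unit)) (e : K), ψ.Realize (Sum.elim s fun _ => e) →
      {e | ψ.Realize (Sum.elim s fun _ => e)}.Finite → RVE O.valuation lam (x - e) (x' - e)) →
    (∃ (b' : β → K) (c' : γ → K), (∀ i, RVE O.valuation 1 (b' i) (b i)) ∧
      (∀ j, RVE O.valuation lam (c' j) (c j)) ∧
      φ.Realize (Sum.elim s (Sum.elim (fun _ => x) (Sum.elim b' c')))) →
    ∃ (b' : β → K) (c' : γ → K), (∀ i, RVE O.valuation 1 (b' i) (b i)) ∧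
      (∀ j, RVE O.valuation lam (c' j) (c j)) ∧
      φ.Realize (Sum.elim s (Sum.elim (fun _ => x') (Sum.elim b' c')))

omit [Field K] in
lemma elim_mk {α β : Type} (f : α → I → K) (g : β → I → K) :
    (Sum.elim (fun i => (mk (f i) : UP U K)) (fun i => mk (g i))) =
      fun j => mk (Sum.elim f g j) := by
  funext j; cases j <;> rfl

omit [Field K] in
lemma elim_apply {α β : Type} (f : α → I → K) (g : β → I → K) (a : I) :
    (fun j => Sum.elim f g j a) = Sum.elim (fun i => f i a) (fun i => g i a) := by
  funext j; cases j <;> rfl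

lemma realize_point {α : Type} (ψ : L.Formula (α ⊕ Unit)) (s : α → I → K) (e : I → K) :
    ψ.Realize (Sum.elim (fun i => (mk (s i) : UP U K)) fun _ => mk e) ↔
      ∀ᶠ a in U, ψ.Realize (Sum.elim (fun i => s i a) fun _ => e a) := by
  have h := UP.realize_mk (U := U) ψ (Sum.elim s (fun _ => e))
  rw [← elim_mk] at h
  simp only [elim_apply] at h
  exact h

lemma realize_four {α β γ : Type} (φ : L.Formula (α ⊕ (Unit ⊕ (β ⊕ γ)))) (s : α → I → K)
    (x : I → K) (b : β → I → K) (c : γ → I → K) :
    φ.Realize (Sum.elim (fun i => (mk (s i) : UP U K)) (Sum.elim (fun _ => mk x)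
      (Sum.elim (fun i => mk (b i)) (fun i => mk (c i))))) ↔
      ∀ᶠ a in U, φ.Realize (Sum.elim (fun i => s i a) (Sum.elim (fun _ => x a)
        (Sum.elim (fun i => b i a) (fun i => c i a)))) := by
  have h := UP.realize_mk (U := U) φ (Sum.elim s (Sum.elim (fun _ => x) (Sum.elim b c)))
  rw [← elim_mk, ← elim_mk, ← elim_mk] at h
  simp only [elim_apply] at h
  exact h


/-- The set attached to a formula and classes of parameters. -/
def defSet {K : Type u} [Field K] [L.Structure K] (O : ValuationSubring K)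
    {α β γ : Type} (φ : L.Formula (α ⊕ (Unit ⊕ (β ⊕ γ)))) (lam : O.ValueGroup)
    (s : α → K) (b : β → K) (c : γ → K) : Set K :=
  {x | ∃ (b' : β → K) (c' : γ → K), (∀ i, RVE O.valuation 1 (b' i) (b i)) ∧
      (∀ j, RVE O.valuation lam (c' j) (c j)) ∧
      φ.Realize (Sum.elim s (Sum.elim (fun _ => x) (Sum.elim b' c')))}

/-- The good families. -/
def GoodFam (hV : IsValuedModel V K O) (α : Type) [Finite α] : Type u :=
  {C : (α → K) × K → Prop // DefPred (LStr hV) ∅ C ∧ ∃ N : ℕ, ∀ s,
    {x | C (s, x)}.Nonempty ∧ {x | C (s, x)}.Finite ∧ {x | C (s, x)}.ncard ≤ N}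

instance (hV : IsValuedModel V K O) (α : Type) [Finite α] : Preorder (GoodFam hV α) where
  le C C' := ∀ p, C.1 p → C'.1 p
  le_refl C p h := h
  le_trans C C' C'' h h' p hp := h' p (h p hp)

instance (hV : IsValuedModel V K O) (α : Type) [Finite α] : Nonempty (GoodFam hV α) := by
  refine ⟨⟨fun p => p.2 = 0, ?_, 1, fun s => ⟨⟨0, rfl⟩, ?_, ?_⟩⟩⟩
  · repeat' (beta_reduce; with_reducible (first
        | assumption | exact DefMap.id | exact DefPred.const _ | exact DefVal.const _
        | refine DefPred.and ?_ ?_ | refine DefPred.or ?_ ?_ | refine DefPred.ne ?_ ?_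
        | refine DefPred.vne ?_ ?_ | refine DefPred.not ?_ | refine DefPred.imp ?_ ?_
        | refine DefPred.iff ?_ ?_ | refine DefPred.ex ?_ | refine DefPred.all ?_
        | refine DefPred.le ?_ ?_ | refine DefPred.lt ?_ ?_ | refine DefPred.eq ?_ ?_
        | refine DefPred.veq ?_ ?_ | refine DefVal.val ?_ | refine DefVal.mul ?_ ?_
        | exact DefMap.const (by assumption) | exact DefMap.const DefPt.zero
        | exact DefMap.const DefPt.one | exact DefMap.const (DefPt.of_mem (by assumption))
        | refine DefMap.add ?_ ?_ | refine DefMap.sub ?_ ?_ | refine DefMap.mul ?_ ?_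
        | refine DefMap.neg ?_ | refine DefMap.fst ?_ | refine DefMap.snd ?_
        | refine DefMap.pair ?_ ?_ | refine DefMap.update _ ?_ ?_
        | refine DefPred.comp (by assumption) ?_ | refine DefVal.comp (by assumption) ?_
        | refine DefMap.comp (by assumption) ?_ | refine DefMap.comp (DefMap.apply _) ?_))
  · exact (Set.finite_singleton (0 : K)).subset fun x hx => hx
  · have : {x : K | ((s, x) : (α → K) × K).2 = 0} = {0} := by ext x; simp
    rw [this, Set.ncard_singleton]

instance (hV : IsValuedModel V K O) (α : Type) [Finite α] :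
    IsDirectedOrder (GoodFam hV α) where
  directed := by
    rintro ⟨C, hC, N, hN⟩ ⟨C', hC', N', hN'⟩
    refine ⟨⟨fun p => C p ∨ C' p, hC.or hC', N + N', fun s => ⟨?_, ?_, ?_⟩⟩,
      fun p hp => Or.inl hp, fun p hp => Or.inr hp⟩
    · obtain ⟨x, hx⟩ := (hN s).1
      exact ⟨x, Or.inl hx⟩
    · exact (hN s).2.1.union (hN' s).2.1
    · exact (Set.ncard_union_le {x | C (s, x)} {x | C' (s, x)}).trans
        (add_le_add (hN s).2.2 (hN' s).2.2)

/-- Formulas give definable predicates. -/
lemma defPred_formula (hV : IsValuedModel V K O) {α : Type} [Finite α]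
    (ψ : L.Formula (α ⊕ Unit)) :
    DefPred (σ := (α → K) × K) (LStr hV) ∅
      (fun p => ψ.Realize (Sum.elim p.1 fun _ => p.2)) := by
  refine ⟨Empty, inferInstance, Empty.elim, fun i => i.elim,
    fun s => ψ.Realize (s ∘ Sum.inl), ?_, fun s => ?_⟩
  · exact (LStr hV).comap' (P := fun w => ψ.Realize w) Sum.inl
      (by
        change (∅ : Set K).Definable L _
        rw [empty_definable_iff]
        exact ⟨ψ, rfl⟩)
  · apply iff_of_eq
    congr 1

lemma up_rve_one (f g : I → K) :
    RVE (upO U O).valuation 1 (mk f) (mk g) ↔ ∀ᶠ i in U, RVE O.valuation 1 (f i) (g i) := by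
  have h := up_rve (U := U) (O := O) (fun _ => 1) f g
  simp only [map_one] at h
  rw [← h]
  have h1 : (mk (fun _ : I => (1 : K)) : UP U K) = 1 := rfl
  rw [h1, map_one]

/-- Bounded cardinality of a fibre is definable. -/
lemma defPred_card {hV : IsValuedModel V K O} {α : Type} [Finite α] {P : (α → K) × K → Prop}
    (hP : DefPred (LStr hV) ∅ P) (N : ℕ) :
    DefPred (LStr hV) ∅ (fun s : α → K => ¬ ∃ w : Fin (N + 1) → K, (∀ i, P (s, w i)) ∧
      (∀ p : Fin (N + 1) × Fin (N + 1), p.1 ≠ p.2 → w p.1 ≠ w p.2)) := by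
  refine DefPred.not (DefPred.ex (DefPred.and ?_ ?_))
  · exact DefPred.forall_fin fun i => by repeat' (beta_reduce; with_reducible (first
        | assumption | exact DefMap.id | exact DefPred.const _ | exact DefVal.const _
        | refine DefPred.and ?_ ?_ | refine DefPred.or ?_ ?_ | refine DefPred.ne ?_ ?_
        | refine DefPred.vne ?_ ?_ | refine DefPred.not ?_ | refine DefPred.imp ?_ ?_
        | refine DefPred.iff ?_ ?_ | refine DefPred.ex ?_ | refine DefPred.all ?_
        | refine DefPred.le ?_ ?_ | refine DefPred.lt ?_ ?_ | refine DefPred.eq ?_ ?_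
        | refine DefPred.veq ?_ ?_ | refine DefVal.val ?_ | refine DefVal.mul ?_ ?_
        | exact DefMap.const (by assumption) | exact DefMap.const DefPt.zero
        | exact DefMap.const DefPt.one | exact DefMap.const (DefPt.of_mem (by assumption))
        | refine DefMap.add ?_ ?_ | refine DefMap.sub ?_ ?_ | refine DefMap.mul ?_ ?_
        | refine DefMap.neg ?_ | refine DefMap.fst ?_ | refine DefMap.snd ?_
        | refine DefMap.pair ?_ ?_ | refine DefMap.update _ ?_ ?_
        | refine DefPred.comp (by assumption) ?_ | refine DefVal.comp (by assumption) ?_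
        | refine DefMap.comp (by assumption) ?_ | refine DefMap.comp (DefMap.apply _) ?_))
  · exact DefPred.forall_fin fun i => by repeat' (beta_reduce; with_reducible (first
        | assumption | exact DefMap.id | exact DefPred.const _ | exact DefVal.const _
        | refine DefPred.and ?_ ?_ | refine DefPred.or ?_ ?_ | refine DefPred.ne ?_ ?_
        | refine DefPred.vne ?_ ?_ | refine DefPred.not ?_ | refine DefPred.imp ?_ ?_
        | refine DefPred.iff ?_ ?_ | refine DefPred.ex ?_ | refine DefPred.all ?_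
        | refine DefPred.le ?_ ?_ | refine DefPred.lt ?_ ?_ | refine DefPred.eq ?_ ?_
        | refine DefPred.veq ?_ ?_ | refine DefVal.val ?_ | refine DefVal.mul ?_ ?_
        | exact DefMap.const (by assumption) | exact DefMap.const DefPt.zero
        | exact DefMap.const DefPt.one | exact DefMap.const (DefPt.of_mem (by assumption))
        | refine DefMap.add ?_ ?_ | refine DefMap.sub ?_ ?_ | refine DefMap.mul ?_ ?_
        | refine DefMap.neg ?_ | refine DefMap.fst ?_ | refine DefMap.snd ?_
        | refine DefMap.pair ?_ ?_ | refine DefMap.update _ ?_ ?_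
        | refine DefPred.comp (by assumption) ?_ | refine DefVal.comp (by assumption) ?_
        | refine DefMap.comp (by assumption) ?_ | refine DefMap.comp (DefMap.apply _) ?_))

omit [Field K] in
lemma card_le_iff {P : K → Prop} {N : ℕ} :
    (¬ ∃ w : Fin (N + 1) → K, (∀ i, P (w i)) ∧
      (∀ p : Fin (N + 1) × Fin (N + 1), p.1 ≠ p.2 → w p.1 ≠ w p.2)) ↔
    ({x | P x}.Finite ∧ {x | P x}.ncard ≤ N) := by
  constructor
  · intro h
    by_contra hcon
    apply h
    obtain ⟨T, hT, hTcard⟩ : ∃ T : Finset K, (T : Set K) ⊆ {x | P x} ∧ T.card = N + 1 := by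
      by_cases hfin : {x | P x}.Finite
      · have h1 : N + 1 ≤ hfin.toFinset.card := by
          rw [← Set.ncard_eq_toFinset_card _ hfin]
          by_contra h2
          exact hcon ⟨hfin, by omega⟩
        obtain ⟨T, hT, hTc⟩ := Finset.exists_subset_card_eq h1
        refine ⟨T, fun x hx => ?_, hTc⟩
        exact hfin.mem_toFinset.1 (hT hx)
      · exact Set.Infinite.exists_subset_card_eq hfin (N + 1)
    let e := T.equivFinOfCardEq hTcard
    refine ⟨fun i => (e.symm i : K), fun i => hT (e.symm i).2, fun p hp h => hp ?_⟩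
    exact e.symm.injective (Subtype.ext h)
  · rintro ⟨hfin, hcard⟩ ⟨w, h1, h2⟩
    have hinj : Function.Injective w := by
      intro i j hij
      by_contra hne
      exact h2 (i, j) hne hij
    have h3 : (Finset.univ.map ⟨w, hinj⟩ : Finset K) ⊆ hfin.toFinset := by
      intro x hx
      obtain ⟨i, _, rfl⟩ := Finset.mem_map.1 hx
      exact hfin.mem_toFinset.2 (h1 i)
    have h4 := Finset.card_le_card h3
    rw [Finset.card_map, ← Set.ncard_eq_toFinset_card _ hfin] at h4
    simp at h4
    omega

theorem compactness (hV : IsValuedModel V K O) {α β γ : Type} [Finite α] [Finite β] [Finite γ]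
    (φ : L.Formula (α ⊕ (Unit ⊕ (β ⊕ γ))))
    (hP : ∀ (I : Type u) (U : Ultrafilter I), Pointwise (upO U O) φ) (b : β → K) :
    ∃ (N : ℕ) (C : (α → K) × K → Prop), DefPred (LStr hV) ∅ C ∧
      (∀ s, {x | C (s, x)}.Nonempty ∧ {x | C (s, x)}.Finite ∧ {x | C (s, x)}.ncard ≤ N) ∧
      ∀ s (lam : O.ValueGroup), lam ≠ 0 → lam ≤ 1 → ∀ c : γ → K,
        Prepares O.valuation lam {x | C (s, x)} (defSet O φ lam s b c) := by
  classical
  by_contra hcon
  push Not at hcon
  have hw : ∀ C : GoodFam hV α, ∃ (s : α → K) (l : K) (c : γ → K) (x x' : K),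
      O.valuation l ≠ 0 ∧ O.valuation l ≤ 1 ∧
      (∀ e, C.1 (s, e) → RVE O.valuation (O.valuation l) (x - e) (x' - e)) ∧
      x ∈ defSet O φ (O.valuation l) s b c ∧ x' ∉ defSet O φ (O.valuation l) s b c := by
    rintro ⟨C, hC, N, hN⟩
    obtain ⟨s, lam, h0, h1, c, hprep⟩ := hcon N C hC hN
    obtain ⟨l, rfl⟩ := O.valuation_surjective lam
    simp only [Prepares, not_forall] at hprep
    obtain ⟨x, x', hxx', hne⟩ := hprep
    by_cases hx : x ∈ defSet O φ (O.valuation l) s b c
    · refine ⟨s, l, c, x, x', h0, h1, hxx', hx, fun hx' => hne ⟨fun _ => hx', fun _ => hx⟩⟩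
    · have hx' : x' ∈ defSet O φ (O.valuation l) s b c := by
        by_contra hx'
        exact hne ⟨fun h => absurd h hx, fun h => absurd h hx'⟩
      exact ⟨s, l, c, x', x, h0, h1, fun e he => (hxx' e he).symm h1, hx', hx⟩
  choose s l c x x' hl0 hl1 hclose hx hx' using hw
  -- the ultrafilter
  let U : Ultrafilter (GoodFam hV α) := Ultrafilter.of Filter.atTop
  have hU : ∀ C : GoodFam hV α, ∀ᶠ C' in (U : Filter (GoodFam hV α)), C ≤ C' := fun C =>
    Ultrafilter.of_le _ (Filter.eventually_ge_atTop C)
  have hl0' : (upO U O).valuation (mk l : UP U K) ≠ 0 := by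
    rw [Valuation.ne_zero_iff]
    intro h
    have h2 : (mk l : UP U K) = mk (fun _ => 0) := h
    rw [mk_eq] at h2
    obtain ⟨a, ha⟩ := h2.exists
    exact hl0 a (by rw [ha, map_zero])
  have hl1' : (upO U O).valuation (mk l : UP U K) ≤ 1 := by
    have h := (up_val_le (U := U) (O := O) l (fun _ => 1)).2
      (Filter.Eventually.of_forall fun a => by simpa using hl1 a)
    have h1 : (mk (fun _ => (1 : K)) : UP U K) = 1 := rfl
    rwa [h1, map_one] at h
  have hpw := hP _ U (fun i => mk fun a => s a i) (mk x) (mk x')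
    ((upO U O).valuation (mk l)) hl0' hl1' (fun i => mk fun _ => b i) (fun i => mk fun a => c a i)
    ?_ ?_
  · -- contradiction
    obtain ⟨b', c', h1, h2, h3⟩ := hpw
    obtain ⟨b', rfl⟩ := UP.exists_mk b'
    obtain ⟨c', rfl⟩ := UP.exists_mk c'
    have h1' : ∀ᶠ a in (U : Filter (GoodFam hV α)), ∀ i, RVE O.valuation 1 (b' i a) (b i) :=
      Filter.eventually_all.2 fun i => (up_rve_one _ _).1 (h1 i)
    have h2' : ∀ᶠ a in (U : Filter (GoodFam hV α)), ∀ j,
        RVE O.valuation (O.valuation (l a)) (c' j a) (c a j) :=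
      Filter.eventually_all.2 fun j => (up_rve _ _ _).1 (h2 j)
    have h3' := (realize_four φ (fun i a => s a i) x' b' c').1 h3
    obtain ⟨a, h4, h5, h6⟩ := (h1'.and (h2'.and h3')).exists
    exact hx' a ⟨fun i => b' i a, fun j => c' j a, h4, h5, h6⟩
  · -- closeness
    intro ψ e he hfin
    obtain ⟨e, rfl⟩ : ∃ f : GoodFam hV α → K, e = mk f :=
      ⟨Quotient.out e, (Quotient.out_eq e).symm⟩
    refine (up_rve l (fun a => x a - e a) (fun a => x' a - e a)).2 ?_
    set N := {e | ψ.Realize (Sum.elim (fun i => (mk fun a => s a i : UP U K)) fun _ => e)}.ncard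
      with hN
    -- the family attached to `ψ` and `N`
    have hψ := defPred_formula hV ψ
    have hcardP := defPred_card hψ N
    let C₀ : (α → K) × K → Prop := fun p => p.2 = 0 ∨
      (ψ.Realize (Sum.elim p.1 fun _ => p.2) ∧
        ¬ ∃ w : Fin (N + 1) → K, (∀ i, ψ.Realize (Sum.elim p.1 fun _ => w i)) ∧
      (∀ q : Fin (N + 1) × Fin (N + 1), q.1 ≠ q.2 → w q.1 ≠ w q.2))
    have hC₀ : DefPred (LStr hV) ∅ C₀ := by
      refine DefPred.or (by repeat' (beta_reduce; with_reducible (first
            | assumption | exact DefMap.id | exact DefPred.const _ | exact DefVal.const _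
            | refine DefPred.and ?_ ?_ | refine DefPred.or ?_ ?_ | refine DefPred.ne ?_ ?_
            | refine DefPred.vne ?_ ?_ | refine DefPred.not ?_ | refine DefPred.imp ?_ ?_
            | refine DefPred.iff ?_ ?_ | refine DefPred.ex ?_ | refine DefPred.all ?_
            | refine DefPred.le ?_ ?_ | refine DefPred.lt ?_ ?_ | refine DefPred.eq ?_ ?_
            | refine DefPred.veq ?_ ?_ | refine DefVal.val ?_ | refine DefVal.mul ?_ ?_
            | exact DefMap.const (by assumption) | exact DefMap.const DefPt.zero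
            | exact DefMap.const DefPt.one | exact DefMap.const (DefPt.of_mem (by assumption))
            | refine DefMap.add ?_ ?_ | refine DefMap.sub ?_ ?_ | refine DefMap.mul ?_ ?_
            | refine DefMap.neg ?_ | refine DefMap.fst ?_ | refine DefMap.snd ?_
            | refine DefMap.pair ?_ ?_ | refine DefMap.update _ ?_ ?_
            | refine DefPred.comp (by assumption) ?_ | refine DefVal.comp (by assumption) ?_
            | refine DefMap.comp (by assumption) ?_ | refine DefMap.comp (DefMap.apply _) ?_))) (DefPred.and hψ ?_)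
      exact hcardP.comp DefMap.fst_id
    have hC₀fin : ∀ s, {x | C₀ (s, x)}.Nonempty ∧ {x | C₀ (s, x)}.Finite ∧
        {x | C₀ (s, x)}.ncard ≤ N + 1 := by
      intro s
      refine ⟨⟨0, Or.inl rfl⟩, ?_⟩
      by_cases hc : ¬ ∃ w : Fin (N + 1) → K, (∀ i, ψ.Realize (Sum.elim s fun _ => w i)) ∧
          (∀ q : Fin (N + 1) × Fin (N + 1), q.1 ≠ q.2 → w q.1 ≠ w q.2)
      · have hc' := (card_le_iff (P := fun e : K => ψ.Realize (Sum.elim s fun _ => e))
          (N := N)).1 hc
        have hsub : {x | C₀ (s, x)} ⊆ insert 0 {x | ψ.Realize (Sum.elim s fun _ => x)} := by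
          rintro x (hx | hx)
          · exact Or.inl hx
          · exact Or.inr hx.1
        have hf2 := hc'.1.insert (0 : K)
        refine ⟨hf2.subset hsub, (Set.ncard_le_ncard hsub hf2).trans ?_⟩
        exact (Set.ncard_insert_le _ _).trans (Nat.succ_le_succ hc'.2)
      · have hsub : {x | C₀ (s, x)} ⊆ {0} := by
          rintro x (hx | hx)
          · exact hx
          · exact absurd hx.2 hc
        refine ⟨(Set.finite_singleton _).subset hsub, (Set.ncard_le_ncard hsub).trans ?_⟩
        simp
    have he' := (realize_point ψ (fun i a => s a i) e).1 he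
    -- eventually few solutions
    have hfew : ∀ᶠ a in (U : Filter (GoodFam hV α)), ¬ ∃ w : Fin (N + 1) → K,
        (∀ i, ψ.Realize (Sum.elim (s a) fun _ => w i)) ∧
        (∀ q : Fin (N + 1) × Fin (N + 1), q.1 ≠ q.2 → w q.1 ≠ w q.2) := by
      rw [Ultrafilter.eventually_not]
      intro hmany
      have hch : ∀ a, ∃ w : Fin (N + 1) → K, (∃ w : Fin (N + 1) → K,
        (∀ i, ψ.Realize (Sum.elim (s a) fun _ => w i)) ∧
        (∀ q : Fin (N + 1) × Fin (N + 1), q.1 ≠ q.2 → w q.1 ≠ w q.2)) →
        ((∀ i, ψ.Realize (Sum.elim (s a) fun _ => w i)) ∧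
        (∀ q : Fin (N + 1) × Fin (N + 1), q.1 ≠ q.2 → w q.1 ≠ w q.2)) := by
        intro a
        by_cases h : ∃ w : Fin (N + 1) → K,
          (∀ i, ψ.Realize (Sum.elim (s a) fun _ => w i)) ∧
          (∀ q : Fin (N + 1) × Fin (N + 1), q.1 ≠ q.2 → w q.1 ≠ w q.2)
        · obtain ⟨w, hw⟩ := h
          exact ⟨w, fun _ => hw⟩
        · exact ⟨fun _ => 0, fun h' => absurd h' h⟩
      choose w hw using hch
      have hmany' := hmany.mono hw
      have := (card_le_iff (P := fun e : UP U K => ψ.Realize
        (Sum.elim (fun i => (mk fun a => s a i : UP U K)) fun _ => e)) (N := N)).2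
        ⟨hfin, le_of_eq hN.symm⟩
      refine this ⟨fun i => mk fun a => w a i, fun i => ?_, fun q hq h => ?_⟩
      · rw [realize_point]
        exact hmany'.mono fun a ha => ha.1 i
      · rw [mk_eq] at h
        obtain ⟨a, h1, h2⟩ := (h.and hmany').exists
        exact h2.2 q hq h1
    filter_upwards [he', hfew, hU ⟨C₀, hC₀, N + 1, hC₀fin⟩] with a h1 h2 h3
    exact hclose a (e a) (h3 _ (Or.inr ⟨h1, h2⟩))
  · -- membership
    have hx2 : ∀ a, ∃ (b' : β → K) (c' : γ → K), (∀ i, RVE O.valuation 1 (b' i) (b i)) ∧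
      (∀ j, RVE O.valuation (O.valuation (l a)) (c' j) (c a j)) ∧
      φ.Realize (Sum.elim (s a) (Sum.elim (fun _ => x a) (Sum.elim b' c'))) := hx
    choose b' c' h1 h2 h3 using hx2
    refine ⟨fun i => mk fun a => b' a i, fun j => mk fun a => c' a j, fun i => ?_, fun j => ?_, ?_⟩
    · exact (up_rve_one _ _).2 (Filter.Eventually.of_forall fun a => h1 a i)
    · exact (up_rve _ _ _).2 (Filter.Eventually.of_forall fun a => h2 a j)
    · exact (realize_four φ (fun i a => s a i) x (fun i a => b' a i) (fun j a => c' a j)).2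
        (Filter.Eventually.of_forall fun a => h3 a)

end Ultra

end Pool.Agent.Helper28.HM
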